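import Pool.Agent.H109.Pot

/-!
The bound `5 ≤ lam` for the single types.
-/

set_option autoImplicit false

namespace Pool.Agent.H109

open Rc

variable {A B C D E B' B1 B2 : Finset (ℤ × ℤ)} {P Q R X Y P' M M1 M2 V W V' : Rc}
  {c z v : ℤ × ℤ} {n : ℕ} {a b : ℤ}

/-- No two consecutive one-column steps on the right, with possibly one column on the left in between.
`A` spans `R`. `z` is the only site outside `M` (one column on the right), and `M` is
`M'` plus one column on the right with the site `z'`. Then `z` is at horizontal distance two from `M'` and in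
the row range, so `(A.erase z).erase z' ∪ {z}` spans `box M' (Rc.pt z) = R`, which contradicts
minimality (`Mn.mem_of` or `h.2`). -/
theorem no_two_R {z' : ℤ × ℤ} {M' : Rc} (h : Mn A R) (h1 : SgR A R z M) (h2 : M.x2 + 1 = R.x2)
    (h3 : SgR (A.erase z) M z' M') (h4 : M'.x2 + 1 = M.x2) : False := by
  have mz := h.1.mem z h1.hz
  have zz := h1.zz
  have wf := h3.is.wf
  have l1 := h1.l
  have b1 := h1.b
  have t1 := h1.t
  have l3 := h3.l
  have b3 := h3.b
  have t3 := h3.t
  unfold Mem at mz
  have hn : Near M' (Rc.pt z) := by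
    rw [near_iff']
    unfold Rc.pt
    simp only
    omega
  have his := IS.mg h3.is (IS.pt z) hn
  have e : box M' (Rc.pt z) = R := by
    unfold box Rc.pt
    apply rc_eq <;> simp only <;> omega
  rw [e] at his
  have hsub : (A.erase z).erase z' ∪ {z} ⊆ A := by
    intro x hx
    rw [Finset.mem_union, Finset.mem_erase, Finset.mem_erase, Finset.mem_singleton] at hx
    rcases hx with hx | hx
    · exact hx.2.2
    · rw [hx]; exact h1.hz
  have e2 := h.eq_of_IS_R hsub his
  have hz' := Finset.mem_erase.mp h3.hz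
  have := hz'.2
  rw [← e2, Finset.mem_union, Finset.mem_erase, Finset.mem_singleton] at this
  rcases this with h5 | h5
  · exact h5.1 rfl
  · exact hz'.1 h5

/-- The same with one column on the left in between: `M = M' +` one column on the left (site `z'`),
`M' = M'' +` one column on the right (site `z''`). Then `z` is near `M''`, `box M'' (Rc.pt z)` is spanned,
it is adjacent to `z'`, and together they span `R` without `z''`. -/
theorem no_two_R' {z' z'' : ℤ × ℤ} {M' M'' : Rc} (h : Mn A R) (h1 : SgR A R z M)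
    (h2 : M.x2 + 1 = R.x2) (h3 : SgL (A.erase z) M z' M') (h4 : M'.x1 - 1 = M.x1)
    (h5 : SgR ((A.erase z).erase z') M' z'' M'') (h6 : M''.x2 + 1 = M'.x2) : False := by
  have mz := h.1.mem z h1.hz
  have hzA : z' ∈ A := (Finset.mem_erase.mp h3.hz).2
  have mz' := h.1.mem z' hzA
  have zz := h1.zz
  have zz' := h3.zz
  have wf := h5.is.wf
  have l1 := h1.l
  have b1 := h1.b
  have t1 := h1.t
  have r3 := h3.r
  have b3 := h3.b
  have t3 := h3.t
  have l5 := h5.l
  have b5 := h5.b
  have t5 := h5.t
  unfold Mem at mz mz'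
  have hn : Near M'' (Rc.pt z) := by
    rw [near_iff']
    unfold Rc.pt
    simp only
    omega
  have his := IS.mg h5.is (IS.pt z) hn
  have e : box M'' (Rc.pt z) = ⟨R.x1 + 1, R.x2, R.y1, R.y2⟩ := by
    unfold box Rc.pt
    apply rc_eq <;> simp only <;> omega
  rw [e] at his
  have hn2 : Near ⟨R.x1 + 1, R.x2, R.y1, R.y2⟩ (Rc.pt z') := by
    rw [near_iff']
    unfold Rc.pt
    simp only
    omega
  have his2 := IS.mg his (IS.pt z') hn2
  have e' : box ⟨R.x1 + 1, R.x2, R.y1, R.y2⟩ (Rc.pt z') = R := by
    unfold box Rc.pt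
    apply rc_eq <;> simp only <;> omega
  rw [e'] at his2
  have hsub : ((A.erase z).erase z').erase z'' ∪ {z} ∪ {z'} ⊆ A := by
    intro x hx
    simp only [Finset.mem_union, Finset.mem_erase, Finset.mem_singleton] at hx
    rcases hx with (hx | hx) | hx
    · exact hx.2.2.2
    · rw [hx]; exact h1.hz
    · rw [hx]; exact hzA
  have e2 := h.eq_of_IS_R hsub his2
  have hz5 := Finset.mem_erase.mp h5.hz
  have hz6 := Finset.mem_erase.mp hz5.2
  have := hz6.2
  rw [← e2] at this
  simp only [Finset.mem_union, Finset.mem_erase, Finset.mem_singleton] at this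
  rcases this with (h7 | h7) | h7
  · exact h7.1 rfl
  · exact hz6.1 h7
  · exact hz5.1 h7

/-- Height four, the middle part: `M` of height four and width at least four with `lam ≥ 7`, except when
it is `M'` plus one column on the left or on the right. `Mn.structure`: `TB` gives `7` by `b7` of
`(ih ..).nb`, `TBm` by `Good.nbm`. `SgT`/`SgB`, two rows: `lam = lam M' + 4 w - 3 ≥ 13`, `M'` has height two
(`a0`). One row: `M'` has height three, `lam_h3`: `lam = lam M' + 2 w - 9 ≥ 4 w - 13`, fine for `w ≥ 5`; for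
`w = 4` use `t3_bound` (through `Sy.swap`): `3 |B| ≤ 14`, so `|B| ≤ 4` and `lam M' = 84 - 10 - 60 = 14`.
`SgR`/`SgL`, two columns: `lam = lam M' + 4 * 4 - 3 ≥ 13` (`M'` has width at least two). -/
theorem h4_mid (ih : IH n) (h : Mn B M) (hn : B.card < n) (hw : 4 ≤ M.w) (hh : M.h = 4) :
    7 ≤ lam B M ∨ (∃ z' M', SgR B M z' M' ∧ M'.x2 + 1 = M.x2) ∨
      (∃ z' M', SgL B M z' M' ∧ M'.x1 - 1 = M.x1) := by
  have hc : 2 ≤ B.card := by
    by_contra hcon
    have hpos := h.1.nonempty.card_pos
    obtain ⟨x, hx⟩ := Finset.card_eq_one.mp (show B.card = 1 by omega)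
    have e : M = Rc.pt x := by
      have := h.1
      rw [hx] at this
      exact this.uniq (IS.pt x)
    rw [e] at hw
    unfold Rc.w Rc.pt at hw
    simp only at hw
    omega
  have er : ∀ z ∈ B, (B.erase z).card < n := fun z hz => by
    have := Finset.card_erase_lt_of_mem hz
    omega
  -- height three
  have k3 : ∀ z ∈ B, ∀ N : Rc, IS (B.erase z) N → N.w = M.w → N.h = 3 →
      7 ≤ lam (B.erase z) N + 2 * (M.w + 3) - 15 := by
    intro z hz N hN e1 e2
    have hMN := h.sub (Finset.erase_subset _ _) hN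
    have h4 := t3_bound (Sy.swap.Mn hMN) (by unfold Rc.h at e2; unfold Sy.swap; simp only; omega)
    rw [Sy.card_im] at h4
    have e3 : (Sy.swap.g N).h = N.w := rfl
    rw [e3] at h4
    have h5 := lam_h3 hMN e2
    by_cases h6 : 5 ≤ M.w
    · omega
    · have h7 : M.w = 4 := by omega
      unfold lam
      rw [e2, e1, h7]
      rw [e1, h7] at h4
      omega
  rcases h.structure hc with ⟨z, N, hs⟩ | ⟨B1, M1, B2, M2, ht⟩ | ⟨B1, M1, B2, M2, ht⟩
  · rcases hs with hs | hs | hs | hs
    · rcases hs.r with hr | hr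
      · exact Or.inr (Or.inl ⟨z, N, hs, hr⟩)
      · left
        have h1 := (ih _ _ (h.sub (Finset.erase_subset _ _) hs.is) (er z hs.hz)).a0
        have h2 := hs.lam_eq
        have e1 : N.h = M.h := by unfold Rc.h; have := hs.b; have := hs.t; omega
        have e2 : N.w = M.w - 2 := by unfold Rc.w; have := hs.l; omega
        have h3 := h1 (by omega) (by omega)
        have e3 : M.x2 - N.x2 = 2 := by omega
        rw [e3, hh] at h2
        omega
    · rcases hs.l with hr | hr
      · exact Or.inr (Or.inr ⟨z, N, hs, hr⟩)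
      · left
        have h1 := (ih _ _ (h.sub (Finset.erase_subset _ _) hs.is) (er z hs.hz)).a0
        have h2 := hs.lam_eq
        have e1 : N.h = M.h := by unfold Rc.h; have := hs.b; have := hs.t; omega
        have e2 : N.w = M.w - 2 := by unfold Rc.w; have := hs.r; omega
        have h3 := h1 (by omega) (by omega)
        have e3 : N.x1 - M.x1 = 2 := by omega
        rw [e3, hh] at h2
        omega
    · left
      have h2 := hs.lam_eq
      have e1 : N.w = M.w := by unfold Rc.w; have := hs.l; have := hs.r; omega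
      rcases hs.t with hr | hr
      · have e2 : N.h = 3 := by unfold Rc.h at *; have := hs.b; omega
        have := k3 z hs.hz N hs.is e1 e2
        have e3 : M.y2 - N.y2 = 1 := by omega
        rw [e3] at h2
        omega
      · have e2 : N.h = 2 := by unfold Rc.h at *; have := hs.b; omega
        have h3 := lam_h2 (h.sub (Finset.erase_subset _ _) hs.is) e2
        have e3 : M.y2 - N.y2 = 2 := by omega
        rw [e3] at h2
        omega
    · left
      have h2 := hs.lam_eq
      have e1 : N.w = M.w := by unfold Rc.w; have := hs.l; have := hs.r; omega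
      rcases hs.b with hr | hr
      · have e2 : N.h = 3 := by unfold Rc.h at *; have := hs.t; omega
        have := k3 z hs.hz N hs.is e1 e2
        have e3 : N.y1 - M.y1 = 1 := by omega
        rw [e3] at h2
        omega
      · have e2 : N.h = 2 := by unfold Rc.h at *; have := hs.t; omega
        have h3 := lam_h2 (h.sub (Finset.erase_subset _ _) hs.is) e2
        have e3 : N.y1 - M.y1 = 2 := by omega
        rw [e3] at h2
        omega
  · left
    exact ((ih _ _ h hn).nb _ _ _ _ ht).1.b7 (Or.inr hh)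
  · left
    have hg := ih _ _ (Sy.fly.Mn h) (by rw [Sy.card_im]; exact hn)
    exact (hg.nbm ht).b7 (Or.inr hh)

theorem h825_SgL_flx (hs : SgL A R z M) :
    SgR (Sy.flx.im A) (Sy.flx.g R) (Sy.flx.f z) (Sy.flx.g M) := by
  obtain ⟨h1, h2, h3, h4, h5, h6, h7⟩ := hs
  refine ⟨by rw [Sy.mem_im, Sy.ff]; exact h1, ?_, ?_, h4, h5, ?_, ?_⟩
  · rw [← Sy.im_erase]; exact Sy.flx.IS h2
  · simp only [Sy.flx]; omega
  · simp only [Sy.flx]; omega
  · simp only [Sy.flx]; omega

theorem h825_SgT_swap (hs : SgT A R z M) :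
    SgR (Sy.swap.im A) (Sy.swap.g R) (Sy.swap.f z) (Sy.swap.g M) := by
  obtain ⟨h1, h2, h3, h4, h5, h6, h7⟩ := hs
  refine ⟨by rw [Sy.mem_im, Sy.ff]; exact h1, ?_, h5, h3, h4, h6, h7⟩
  rw [← Sy.im_erase]; exact Sy.swap.IS h2

theorem h825_SgB_swap (hs : SgB A R z M) :
    SgL (Sy.swap.im A) (Sy.swap.g R) (Sy.swap.f z) (Sy.swap.g M) := by
  obtain ⟨h1, h2, h3, h4, h5, h6, h7⟩ := hs
  refine ⟨by rw [Sy.mem_im, Sy.ff]; exact h1, ?_, h5, h3, h4, h6, h7⟩
  rw [← Sy.im_erase]; exact Sy.swap.IS h2

/-- width three, height four -/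
theorem h825_w3h4 (h : Mn A R) (hw : R.w = 3) (hh : R.h = 4) : 14 ≤ lam A R := by
  have h1 : R.x2 = R.x1 + 2 := by unfold Rc.w at hw; omega
  have h2 := t3_bound h h1
  rw [hh] at h2
  unfold lam
  rw [hw, hh]
  omega

/-- The bound for `SgR`, `w, h ≥ 4`. Two columns: `SgR.lam_eq`, `lam M ≥ 0`: `lam ≥ 4 h - 3 ≥ 13`. One column:
`M.w ≥ 3`, `h ≥ 4`, so `lam M ≥ 5` and `lam = lam M + 2 h - 9`; fine for `h ≥ 5`. Let `h = 4`:
`lam = lam M - 1`. `M.w = 3`: `lam M = 14` at least (`t3_bound`: `3 |B| ≤ 14`, `|B| ≤ 4`). `M.w ≥ 4`: `h4_mid` for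
`M` (card `< n`): `7 ≤ lam M`, fine; or `M` is `M'` plus one column on the right: `no_two_R`; or `M` is `M'` plus one
column on the left, `lam M = lam M' - 1` (`SgL.lam_eq`), so we need `lam M' ≥ 7`. `M'.w ≥ 3`. If
`M'.w = 3`: `lam M' ≥ 14`. If `M'.w ≥ 4`: `h4_mid` for `M'`: `7 ≤ lam M'`, fine; one column on the right:
`no_two_R'`; one column on the left: contradiction by (the mirror image `Sy.flx` of) `no_two_R` for
`(A.erase z, M)`. -/
theorem a5_R (ih : IH n) (h : Mn A R) (hn : A.card = n) (hw : 4 ≤ R.w) (hh : 4 ≤ R.h)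
    (hs : SgR A R z M) : 5 ≤ lam A R := by
  have hMn : Mn (A.erase z) M := h.sub (Finset.erase_subset _ _) hs.is
  have hc : (A.erase z).card < n := by
    rw [← hn]; exact Finset.card_erase_lt_of_mem hs.hz
  have hG := ih _ _ hMn hc
  have hMh : M.h = R.h := by
    have := hs.b; have := hs.t; unfold Rc.h; omega
  have hl := hs.l
  have hle := hs.lam_eq
  rcases hs.r with hr | hr
  · have hMw : M.w = R.w - 1 := by unfold Rc.w; omega
    have e1 : R.x2 - M.x2 = 1 := by omega
    rw [e1] at hle
    have h5 := hG.a5 (by omega) (by omega) (by omega)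
    by_cases h4 : R.h = 4
    · rw [h4] at hle
      suffices hq : 6 ≤ lam (A.erase z) M by omega
      by_cases h3 : M.w = 3
      · have := h825_w3h4 hMn h3 (by omega); omega
      · rcases h4_mid ih hMn hc (by omega) (by omega) with hm | ⟨z', M', hs', hr'⟩ | ⟨z', M', hs', hr'⟩
        · omega
        · exact (no_two_R h hs hr hs' hr').elim
        · have hMn' : Mn ((A.erase z).erase z') M' := hMn.sub (Finset.erase_subset _ _) hs'.is
          have hc' : ((A.erase z).erase z').card < n :=
            (Finset.card_erase_lt_of_mem hs'.hz).trans hc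
          have hMh' : M'.h = M.h := by
            have := hs'.b; have := hs'.t; unfold Rc.h; omega
          have hr'' := hs'.r
          have hMw' : M'.w = M.w - 1 := by unfold Rc.w; omega
          have hle' := hs'.lam_eq
          have e2 : M'.x1 - M.x1 = 1 := by omega
          rw [e2, hMh, h4] at hle'
          suffices hq : 7 ≤ lam ((A.erase z).erase z') M' by omega
          by_cases h3' : M'.w = 3
          · have := h825_w3h4 hMn' h3' (by omega); omega
          · rcases h4_mid ih hMn' hc' (by omega) (by omega) with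
              hm | ⟨z'', M'', hs'', hr3⟩ | ⟨z'', M'', hs'', hr3⟩
            · exact hm
            · exact (no_two_R' h hs hr hs' hr' hs'' hr3).elim
            · exfalso
              have g1 := h825_SgL_flx hs'
              have g2 := h825_SgL_flx hs''
              rw [Sy.im_erase] at g2
              refine no_two_R (Sy.flx.Mn hMn) g1 ?_ g2 ?_
              · simp only [Sy.flx]; omega
              · simp only [Sy.flx]; omega
    · omega
  · have hMw : M.w = R.w - 2 := by unfold Rc.w; omega
    have e1 : R.x2 - M.x2 = 2 := by omega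
    rw [e1] at hle
    have h0 := hG.a0 (by omega) (by omega)
    omega

/-- All four directions: `Sy.flx`, `Sy.swap` and `a5_R` (`lam_flx`, `lam_swap`). -/
theorem a5_single (ih : IH n) (h : Mn A R) (hn : A.card = n) (hw : 4 ≤ R.w) (hh : 4 ≤ R.h)
    (hs : Single A R z M) : 5 ≤ lam A R := by
  have e1 : (Sy.flx.g R).w = R.w := by unfold Rc.w; simp only [Sy.flx]; omega
  have e2 : (Sy.flx.g R).h = R.h := rfl
  have e3 : (Sy.swap.g R).w = R.h := rfl
  have e4 : (Sy.swap.g R).h = R.w := rfl
  have e5 : (Sy.flx.g (Sy.swap.g R)).w = R.h := by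
    unfold Rc.w Rc.h; simp only [Sy.flx, Sy.swap]; omega
  have e6 : (Sy.flx.g (Sy.swap.g R)).h = R.w := rfl
  rcases hs with hs | hs | hs | hs
  · exact a5_R ih h hn hw hh hs
  · rw [← lam_flx]
    exact a5_R ih (Sy.flx.Mn h) (by rw [Sy.card_im]; exact hn) (by omega) (by omega)
      (h825_SgL_flx hs)
  · rw [← lam_swap]
    exact a5_R ih (Sy.swap.Mn h) (by rw [Sy.card_im]; exact hn) (by omega) (by omega)
      (h825_SgT_swap hs)
  · rw [← lam_swap, ← lam_flx]
    exact a5_R ih (Sy.flx.Mn (Sy.swap.Mn h)) (by rw [Sy.card_im, Sy.card_im]; exact hn)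
      (by omega) (by omega) (h825_SgL_flx (h825_SgB_swap hs))

end Pool.Agent.H109
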