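import Mathlib

/-!
The arithmetic of the merge: pure integer inequalities.

`V` (bottom left) and `W` (top right) have potentials `LV`, `LW`, dimensions `vw × vh`, `ww × wh`, and
offsets `a = W.x1 - V.x2`, `b = W.y1 - V.y2`. Put `x = ww - 1 + a`, `x' = vw - 1 + a`,
`y = vh - 1 + b`, `y' = wh - 1 + b`.
-/

set_option autoImplicit false

namespace Pool.Agent.H109

/-- facts for the strict type -/
structure KStr (L w h a b : ℤ) : Prop where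
  c2 : a = 2 → -2 * b ≤ L ∧ (w = 2 → b ≤ -1 → 5 ≤ L)
  d2 : b = 2 → -2 * a ≤ L ∧ (h = 2 → a ≤ -1 → 5 ≤ L)
  c1 : a = 1 → b ≤ 0 → -4 * b + 7 ≤ L ∧ 3 ≤ w ∧ 2 ≤ h - 1 + b
  d1 : b = 1 → a ≤ 0 → -4 * a + 7 ≤ L ∧ 3 ≤ h ∧ 2 ≤ w - 1 + a
  c0 : a ≤ 0 → b ≤ 0 → 2 * (3 - a) * (3 - b) - 1 ≤ L ∧ 3 ≤ w - 1 + a ∧ 3 ≤ h - 1 + b
  nn : 0 ≤ L

/-- facts for the single type -/
structure KSg (L w h a b : ℤ) : Prop where
  c2 : a = 2 → -2 * b ≤ L ∧ (w = 2 → b ≤ -1 → 5 ≤ L)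
  d2 : b = 2 → -2 * a ≤ L ∧ (h = 2 → a ≤ -1 → 5 ≤ L)
  c1 : a = 1 → b ≤ 0 → (4 ≤ w ∧ 4 * h - 3 ≤ L) ∨ (b = 0 ∧ 4 ≤ h ∧ 4 * w - 3 ≤ L) ∨
    (b = 0 ∧ 3 ≤ w ∧ 3 ≤ h ∧ 2 * (w + h) - 5 ≤ L)
  d1 : b = 1 → a ≤ 0 → (4 ≤ h ∧ 4 * w - 3 ≤ L) ∨ (a = 0 ∧ 4 ≤ w ∧ 4 * h - 3 ≤ L) ∨
    (a = 0 ∧ 3 ≤ w ∧ 3 ≤ h ∧ 2 * (w + h) - 5 ≤ L)
  c0 : ¬ (a ≤ 0 ∧ b ≤ 0)
  nn : 0 ≤ L

/-- facts for type (b) -/
structure KTb (L w h a b : ℤ) : Prop where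
  w3 : 3 ≤ w
  h3 : 3 ≤ h
  c2 : a = 2 → -2 * b ≤ L
  d2 : b = 2 → -2 * a ≤ L
  c1 : a = 1 → b ≤ 0 → (3 - 2 * b ≤ L) ∨ (2 - 2 * b ≤ L ∧ 2 ≤ h - 1 + b)
  d1 : b = 1 → a ≤ 0 → (3 - 2 * a ≤ L) ∨ (2 - 2 * a ≤ L ∧ 2 ≤ w - 1 + a)
  c0 : a ≤ 0 → b ≤ 0 → 4 - 2 * a - 2 * b ≤ L
  nn : 0 ≤ L

/-- The bounds for a type (b) rectangle of dimensions `w × h` with blocks `x, y, x', y'`. -/
structure NB (L x y x' y' w h : ℤ) : Prop where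
  n5 : 2 * x ≤ L ∧ 2 * y ≤ L ∧ 2 * x' ≤ L ∧ 2 * y' ≤ L
  n3 : 2 ≤ x → 2 ≤ y → 4 * x - 1 ≤ L ∧ 4 * y - 1 ≤ L
  n3' : 2 ≤ x' → 2 ≤ y' → 4 * x' - 1 ≤ L ∧ 4 * y' - 1 ≤ L
  n4 : 3 ≤ x → 3 ≤ y → 2 * x * y - 1 ≤ L
  n4' : 3 ≤ x' → 3 ≤ y' → 2 * x' * y' - 1 ≤ L
  n6a : 2 ≤ x → 2 * y' + 3 ≤ L
  n6b : 2 ≤ y' → 2 * x + 3 ≤ L
  n6c : 2 ≤ x' → 2 * y + 3 ≤ L
  n6d : 2 ≤ y → 2 * x' + 3 ≤ L
  n7 : 2 * (x + y') - 2 ≤ L
  n7' : 2 * (x' + y) - 2 ≤ L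
  b6 : 6 ≤ L
  b7 : w = 4 ∨ h = 4 → 7 ≤ L

/-- The ten classes of type (b) rectangles. `s = x * y + x' * y'`. -/
inductive Cls (L x y x' y' w h : ℤ) : Prop
  | H : 3 ≤ x → 3 ≤ x' → 2 * (x * y + x' * y') - 6 ≤ L → (w = 4 ∨ h = 4 → 7 ≤ L) →
      Cls L x y x' y' w h
  | V : 3 ≤ y → 3 ≤ y' → 2 * (x * y + x' * y') - 6 ≤ L → (w = 4 ∨ h = 4 → 7 ≤ L) →
      Cls L x y x' y' w h
  | D : 2 ≤ x → 2 ≤ x' → 2 ≤ y → 2 ≤ y' → 2 * (x * y + x' * y') - 8 ≤ L → Cls L x y x' y' w h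
  | Hm : 3 ≤ x → 3 ≤ x' → (4 ≤ x ∧ 2 ≤ y) ∨ (4 ≤ x' ∧ 2 ≤ y') →
      2 * (x * y + x' * y') - 7 ≤ L → Cls L x y x' y' w h
  | Vm : 3 ≤ y → 3 ≤ y' → (4 ≤ y' ∧ 2 ≤ x') ∨ (4 ≤ y ∧ 2 ≤ x) →
      2 * (x * y + x' * y') - 7 ≤ L → Cls L x y x' y' w h
  | Gx : 2 ≤ x → 2 ≤ x' → 8 ≤ L → 2 * (x * y + x' * y') - 4 ≤ L → Cls L x y x' y' w h
  | Gy : 2 ≤ y → 2 ≤ y' → 8 ≤ L → 2 * (x * y + x' * y') - 4 ≤ L → Cls L x y x' y' w h
  | G0 : 7 ≤ L → 2 * (x * y + x' * y') - 1 ≤ L → Cls L x y x' y' w h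

/-- linear lower bound of a product -/
theorem h696_pr (c d : ℤ) {x y : ℤ} (hx : c ≤ x) (hy : d ≤ y) : c * y + d * x - c * d ≤ x * y := by
  nlinarith [mul_nonneg (sub_nonneg.2 hx) (sub_nonneg.2 hy)]

theorem h696_H {L x y x' y' w h : ℤ} (hx : 3 ≤ x) (hy : 1 ≤ y) (hx' : 3 ≤ x') (hy' : 1 ≤ y')
    (hL : 2 * (x * y + x' * y') - 6 ≤ L) (h7 : w = 4 ∨ h = 4 → 7 ≤ L) : NB L x y x' y' w h := by
  have p1 := h696_pr 3 1 hx hy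
  have q1 := h696_pr 3 1 hx' hy'
  have p2 : 2 ≤ y → 3 * y + 2 * x - 3 * 2 ≤ x * y := fun h => h696_pr 3 2 hx h
  have q2 : 2 ≤ y' → 3 * y' + 2 * x' - 3 * 2 ≤ x' * y' := fun h => h696_pr 3 2 hx' h
  have e1 : 2 * x * y = 2 * (x * y) := by ring
  have e2 : 2 * x' * y' = 2 * (x' * y') := by ring
  constructor
  all_goals first | (rw [e1]) | (rw [e2]) | skip
  all_goals generalize x * y = P at *
  all_goals generalize x' * y' = Q at *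
  all_goals omega

theorem h696_V {L x y x' y' w h : ℤ} (hx : 1 ≤ x) (hy : 3 ≤ y) (hx' : 1 ≤ x') (hy' : 3 ≤ y')
    (hL : 2 * (x * y + x' * y') - 6 ≤ L) (h7 : w = 4 ∨ h = 4 → 7 ≤ L) : NB L x y x' y' w h := by
  have p1 := h696_pr 1 3 hx hy
  have q1 := h696_pr 1 3 hx' hy'
  have p2 : 2 ≤ x → 2 * y + 3 * x - 2 * 3 ≤ x * y := fun h => h696_pr 2 3 h hy
  have q2 : 2 ≤ x' → 2 * y' + 3 * x' - 2 * 3 ≤ x' * y' := fun h => h696_pr 2 3 h hy'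
  have e1 : 2 * x * y = 2 * (x * y) := by ring
  have e2 : 2 * x' * y' = 2 * (x' * y') := by ring
  constructor
  all_goals first | (rw [e1]) | (rw [e2]) | skip
  all_goals generalize x * y = P at *
  all_goals generalize x' * y' = Q at *
  all_goals omega

theorem h696_D {L x y x' y' w h : ℤ} (hx : 2 ≤ x) (hy : 2 ≤ y) (hx' : 2 ≤ x') (hy' : 2 ≤ y')
    (hL : 2 * (x * y + x' * y') - 8 ≤ L) : NB L x y x' y' w h := by
  have p1 := h696_pr 2 2 hx hy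
  have q1 := h696_pr 2 2 hx' hy'
  have e1 : 2 * x * y = 2 * (x * y) := by ring
  have e2 : 2 * x' * y' = 2 * (x' * y') := by ring
  constructor
  all_goals first | (rw [e1]) | (rw [e2]) | skip
  all_goals generalize x * y = P at *
  all_goals generalize x' * y' = Q at *
  all_goals omega

theorem h696_Hm {L x y x' y' w h : ℤ} (hx : 3 ≤ x) (hy : 1 ≤ y) (hx' : 3 ≤ x') (hy' : 1 ≤ y')
    (hm : (4 ≤ x ∧ 2 ≤ y) ∨ (4 ≤ x' ∧ 2 ≤ y')) (hL : 2 * (x * y + x' * y') - 7 ≤ L) :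
    NB L x y x' y' w h := by
  have p1 := h696_pr 3 1 hx hy
  have q1 := h696_pr 3 1 hx' hy'
  have p2 : 2 ≤ y → 3 * y + 2 * x - 3 * 2 ≤ x * y := fun h => h696_pr 3 2 hx h
  have q2 : 2 ≤ y' → 3 * y' + 2 * x' - 3 * 2 ≤ x' * y' := fun h => h696_pr 3 2 hx' h
  have p3 : 4 ≤ x ∧ 2 ≤ y → 4 * y + 2 * x - 4 * 2 ≤ x * y := fun h => h696_pr 4 2 h.1 h.2
  have q3 : 4 ≤ x' ∧ 2 ≤ y' → 4 * y' + 2 * x' - 4 * 2 ≤ x' * y' := fun h => h696_pr 4 2 h.1 h.2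
  have e1 : 2 * x * y = 2 * (x * y) := by ring
  have e2 : 2 * x' * y' = 2 * (x' * y') := by ring
  constructor
  all_goals first | (rw [e1]) | (rw [e2]) | skip
  all_goals generalize x * y = P at *
  all_goals generalize x' * y' = Q at *
  all_goals omega

theorem h696_Vm {L x y x' y' w h : ℤ} (hx : 1 ≤ x) (hy : 3 ≤ y) (hx' : 1 ≤ x') (hy' : 3 ≤ y')
    (hm : (4 ≤ y' ∧ 2 ≤ x') ∨ (4 ≤ y ∧ 2 ≤ x)) (hL : 2 * (x * y + x' * y') - 7 ≤ L) :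
    NB L x y x' y' w h := by
  have p1 := h696_pr 1 3 hx hy
  have q1 := h696_pr 1 3 hx' hy'
  have p2 : 2 ≤ x → 2 * y + 3 * x - 2 * 3 ≤ x * y := fun h => h696_pr 2 3 h hy
  have q2 : 2 ≤ x' → 2 * y' + 3 * x' - 2 * 3 ≤ x' * y' := fun h => h696_pr 2 3 h hy'
  have p3 : 4 ≤ y ∧ 2 ≤ x → 2 * y + 4 * x - 2 * 4 ≤ x * y := fun h => h696_pr 2 4 h.2 h.1
  have q3 : 4 ≤ y' ∧ 2 ≤ x' → 2 * y' + 4 * x' - 2 * 4 ≤ x' * y' := fun h => h696_pr 2 4 h.2 h.1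
  have e1 : 2 * x * y = 2 * (x * y) := by ring
  have e2 : 2 * x' * y' = 2 * (x' * y') := by ring
  constructor
  all_goals first | (rw [e1]) | (rw [e2]) | skip
  all_goals generalize x * y = P at *
  all_goals generalize x' * y' = Q at *
  all_goals omega

theorem h696_Gx {L x y x' y' w h : ℤ} (hx : 2 ≤ x) (hy : 1 ≤ y) (hx' : 2 ≤ x') (hy' : 1 ≤ y')
    (h8 : 8 ≤ L) (hL : 2 * (x * y + x' * y') - 4 ≤ L) : NB L x y x' y' w h := by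
  have p1 := h696_pr 2 1 hx hy
  have q1 := h696_pr 2 1 hx' hy'
  have p2 : 2 ≤ y → 2 * y + 2 * x - 2 * 2 ≤ x * y := fun h => h696_pr 2 2 hx h
  have q2 : 2 ≤ y' → 2 * y' + 2 * x' - 2 * 2 ≤ x' * y' := fun h => h696_pr 2 2 hx' h
  have e1 : 2 * x * y = 2 * (x * y) := by ring
  have e2 : 2 * x' * y' = 2 * (x' * y') := by ring
  constructor
  all_goals first | (rw [e1]) | (rw [e2]) | skip
  all_goals generalize x * y = P at *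
  all_goals generalize x' * y' = Q at *
  all_goals omega

theorem h696_Gy {L x y x' y' w h : ℤ} (hx : 1 ≤ x) (hy : 2 ≤ y) (hx' : 1 ≤ x') (hy' : 2 ≤ y')
    (h8 : 8 ≤ L) (hL : 2 * (x * y + x' * y') - 4 ≤ L) : NB L x y x' y' w h := by
  have p1 := h696_pr 1 2 hx hy
  have q1 := h696_pr 1 2 hx' hy'
  have p2 : 2 ≤ x → 2 * y + 2 * x - 2 * 2 ≤ x * y := fun h => h696_pr 2 2 h hy
  have q2 : 2 ≤ x' → 2 * y' + 2 * x' - 2 * 2 ≤ x' * y' := fun h => h696_pr 2 2 h hy'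
  have e1 : 2 * x * y = 2 * (x * y) := by ring
  have e2 : 2 * x' * y' = 2 * (x' * y') := by ring
  constructor
  all_goals first | (rw [e1]) | (rw [e2]) | skip
  all_goals generalize x * y = P at *
  all_goals generalize x' * y' = Q at *
  all_goals omega

theorem h696_G0 {L x y x' y' w h : ℤ} (hx : 1 ≤ x) (hy : 1 ≤ y) (hx' : 1 ≤ x') (hy' : 1 ≤ y')
    (h7 : 7 ≤ L) (hL : 2 * (x * y + x' * y') - 1 ≤ L) : NB L x y x' y' w h := by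
  have p1 := h696_pr 1 1 hx hy
  have q1 := h696_pr 1 1 hx' hy'
  have p2 : 2 ≤ x → 2 ≤ y → 2 * y + 2 * x - 2 * 2 ≤ x * y := fun h h' => h696_pr 2 2 h h'
  have q2 : 2 ≤ x' → 2 ≤ y' → 2 * y' + 2 * x' - 2 * 2 ≤ x' * y' := fun h h' => h696_pr 2 2 h h'
  have e1 : 2 * x * y = 2 * (x * y) := by ring
  have e2 : 2 * x' * y' = 2 * (x' * y') := by ring
  constructor
  all_goals first | (rw [e1]) | (rw [e2]) | skip
  all_goals generalize x * y = P at *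
  all_goals generalize x' * y' = Q at *
  all_goals omega

/-- Every class gives the bounds. (For each of the eight classes and each field: small nonlinear
integer inequalities in `x, y, x', y' ≥ 1`; use `nlinarith`.) -/
theorem Cls.nb {L x y x' y' w h : ℤ} (hx : 1 ≤ x) (hy : 1 ≤ y) (hx' : 1 ≤ x') (hy' : 1 ≤ y')
    (hc : Cls L x y x' y' w h) : NB L x y x' y' w h := by
  cases hc with
  | H h1 h2 h3 h4 => exact h696_H h1 hy h2 hy' h3 h4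
  | V h1 h2 h3 h4 => exact h696_V hx h1 hx' h2 h3 h4
  | D h1 h2 h3 h4 h5 => exact h696_D h1 h3 h2 h4 h5
  | Hm h1 h2 h3 h4 => exact h696_Hm h1 hy h2 hy' h3 h4
  | Vm h1 h2 h3 h4 => exact h696_Vm hx h1 hx' h2 h3 h4
  | Gx h1 h2 h3 h4 => exact h696_Gx h1 hy h2 hy' h3 h4
  | Gy h1 h2 h3 h4 => exact h696_Gy hx h1 hx' h2 h3 h4
  | G0 h1 h2 => exact h696_G0 hx hy hx' hy' h1 h2

/-- The bounds are monotone in the blocks. -/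
theorem NB.mono {L x y x' y' w h X Y X' Y' : ℤ} (hb : NB L x y x' y' w h) (hX : X ≤ x) (hY : Y ≤ y)
    (hX' : X' ≤ x') (hY' : Y' ≤ y') (h1 : 1 ≤ X) (h2 : 1 ≤ Y) (h3 : 1 ≤ X') (h4 : 1 ≤ Y') :
    NB L X Y X' Y' w h := by
  obtain ⟨n5, n3, n3', n4, n4', n6a, n6b, n6c, n6d, n7, n7', b6, b7⟩ := hb
  have p : X * Y ≤ x * y := mul_le_mul hX hY (by omega) (by omega)
  have q : X' * Y' ≤ x' * y' := mul_le_mul hX' hY' (by omega) (by omega)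
  have e1 : 2 * x * y = 2 * (x * y) := by ring
  have e2 : 2 * x' * y' = 2 * (x' * y') := by ring
  have e3 : 2 * X * Y = 2 * (X * Y) := by ring
  have e4 : 2 * X' * Y' = 2 * (X' * Y') := by ring
  rw [e1] at n4
  rw [e2] at n4'
  constructor
  all_goals first | (rw [e3]) | (rw [e4]) | skip
  all_goals generalize x * y = P at *
  all_goals generalize x' * y' = Q at *
  all_goals generalize X * Y = P' at *
  all_goals generalize X' * Y' = Q' at *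
  all_goals omega

theorem h696_str_symm {L w h a b : ℤ} (k : KStr L w h a b) : KStr L h w b a := by
  obtain ⟨c2, d2, c1, d1, c0, nn⟩ := k
  refine ⟨d2, c2, d1, c1, fun h1 h2 => ?_, nn⟩
  obtain ⟨e1, e2, e3⟩ := c0 h2 h1
  refine ⟨?_, e3, e2⟩
  have : 2 * (3 - b) * (3 - a) = 2 * (3 - a) * (3 - b) := by ring
  rw [this]
  exact e1

theorem h696_sg_symm {L w h a b : ℤ} (k : KSg L w h a b) : KSg L h w b a := by
  obtain ⟨c2, d2, c1, d1, c0, nn⟩ := k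
  refine ⟨d2, c2, fun h1 h2 => ?_, fun h1 h2 => ?_, fun h => c0 ⟨h.2, h.1⟩, nn⟩
  · rcases d1 h1 h2 with h | h | h
    · exact Or.inl h
    · exact Or.inr (Or.inl h)
    · exact Or.inr (Or.inr ⟨h.1, h.2.2.1, h.2.1, by have := h.2.2.2; omega⟩)
  · rcases c1 h1 h2 with h | h | h
    · exact Or.inl h
    · exact Or.inr (Or.inl h)
    · exact Or.inr (Or.inr ⟨h.1, h.2.2.1, h.2.1, by have := h.2.2.2; omega⟩)

theorem h696_tb_symm {L w h a b : ℤ} (k : KTb L w h a b) : KTb L h w b a := by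
  obtain ⟨w3, h3, c2, d2, c1, d1, c0, nn⟩ := k
  exact ⟨h3, w3, d2, c2, d1, c1, fun h1 h2 => by have := c0 h2 h1; omega, nn⟩

theorem h696_cls_symm {L x y x' y' w h : ℤ} (c : Cls L y' x' y x h w) : Cls L x y x' y' w h := by
  have e : y' * x' + y * x = x * y + x' * y' := by ring
  cases c with
  | H h1 h2 h3 h4 => exact Cls.V h2 h1 (by rw [← e]; exact h3) (fun h => h4 h.symm)
  | V h1 h2 h3 h4 => exact Cls.H h2 h1 (by rw [← e]; exact h3) (fun h => h4 h.symm)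
  | D h1 h2 h3 h4 h5 => exact Cls.D h4 h3 h2 h1 (by rw [← e]; exact h5)
  | Hm h1 h2 h3 h4 => exact Cls.Vm h2 h1 h3 (by rw [← e]; exact h4)
  | Vm h1 h2 h3 h4 => exact Cls.Hm h2 h1 h3 (by rw [← e]; exact h4)
  | Gx h1 h2 h3 h4 => exact Cls.Gy h2 h1 h3 (by rw [← e]; exact h4)
  | Gy h1 h2 h3 h4 => exact Cls.Gx h2 h1 h3 (by rw [← e]; exact h4)
  | G0 h1 h2 => exact Cls.G0 h1 (by rw [← e]; exact h2)

/-- the case `a = 2` -/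
theorem h696_two {LV LW vw vh ww wh b : ℤ} (hb : b ≤ 0)
    (h1 : 2 ≤ vw) (h2 : 2 ≤ vh) (h3 : 2 ≤ ww) (h4 : 2 ≤ wh)
    (y1 : 1 ≤ vh - 1 + b) (y2 : 1 ≤ wh - 1 + b)
    (hV : -2 * b ≤ LV ∧ (vw = 2 → b ≤ -1 → 5 ≤ LV))
    (hW : -2 * b ≤ LW ∧ (ww = 2 → b ≤ -1 → 5 ≤ LW)) :
    Cls (LV + LW + 10 - 2 * (4 - 2) * (4 - b) +
        2 * ((ww - 1 + 2) * (vh - 1 + b) + (vw - 1 + 2) * (wh - 1 + b)))
      (ww - 1 + 2) (vh - 1 + b) (vw - 1 + 2) (wh - 1 + b) (vw + ww - 1 + 2) (vh + wh - 1 + b) := by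
  refine Cls.H (by omega) (by omega) ?_ ?_
  · generalize (ww - 1 + 2) * (vh - 1 + b) = P
    generalize (vw - 1 + 2) * (wh - 1 + b) = Q
    omega
  · intro h
    have hh : vh + wh - 1 + b = 4 := by omega
    have hb' : b = 0 ∨ b = -1 := by omega
    rcases hb' with rfl | rfl
    · have p := h696_pr 3 1 (show 3 ≤ ww - 1 + 2 by omega) y1
      have q := h696_pr 3 1 (show 3 ≤ vw - 1 + 2 by omega) y2
      generalize (ww - 1 + 2) * (vh - 1 + 0) = P at *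
      generalize (vw - 1 + 2) * (wh - 1 + 0) = Q at *
      omega
    · have e1 : vh = 3 := by omega
      have e2 : wh = 3 := by omega
      subst e1
      subst e2
      omega

/-- the case `a = 1`, `b ≤ 0`, `V` and `W` strict or single -/
theorem h696_one {LV LW vw vh ww wh b : ℤ} (hb : b ≤ 0)
    (h1 : 2 ≤ vw) (h2 : 2 ≤ vh) (h3 : 2 ≤ ww) (h4 : 2 ≤ wh)
    (y1 : 1 ≤ vh - 1 + b) (y2 : 1 ≤ wh - 1 + b)
    (hV : (-4 * b + 7 ≤ LV ∧ 3 ≤ vw ∧ 2 ≤ vh - 1 + b) ∨ (4 ≤ vw ∧ 4 * vh - 3 ≤ LV) ∨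
      (b = 0 ∧ 4 ≤ vh ∧ 4 * vw - 3 ≤ LV) ∨ (b = 0 ∧ 3 ≤ vw ∧ 3 ≤ vh ∧ 2 * (vw + vh) - 5 ≤ LV))
    (hW : (-4 * b + 7 ≤ LW ∧ 3 ≤ ww ∧ 2 ≤ wh - 1 + b) ∨ (4 ≤ ww ∧ 4 * wh - 3 ≤ LW) ∨
      (b = 0 ∧ 4 ≤ wh ∧ 4 * ww - 3 ≤ LW) ∨ (b = 0 ∧ 3 ≤ ww ∧ 3 ≤ wh ∧ 2 * (ww + wh) - 5 ≤ LW)) :
    Cls (LV + LW + 10 - 2 * (4 - 1) * (4 - b) +
        2 * ((ww - 1 + 1) * (vh - 1 + b) + (vw - 1 + 1) * (wh - 1 + b)))
      (ww - 1 + 1) (vh - 1 + b) (vw - 1 + 1) (wh - 1 + b) (vw + ww - 1 + 1) (vh + wh - 1 + b) := by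
  have p := h696_pr 2 1 (show 2 ≤ ww - 1 + 1 by omega) y1
  have q := h696_pr 2 1 (show 2 ≤ vw - 1 + 1 by omega) y2
  refine Cls.Gx (by omega) (by omega) ?_ ?_
  · generalize (ww - 1 + 1) * (vh - 1 + b) = P at *
    generalize (vw - 1 + 1) * (wh - 1 + b) = Q at *
    omega
  · generalize (ww - 1 + 1) * (vh - 1 + b) = P at *
    generalize (vw - 1 + 1) * (wh - 1 + b) = Q at *
    omega

/-- the case `a = 1`, `b ≤ 0`, `V` of type (b) -/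
theorem h696_oneTb {LV LW vw vh ww wh b : ℤ} (hb : b ≤ 0)
    (h1 : 3 ≤ vw) (h2 : 3 ≤ vh) (h3 : 2 ≤ ww) (h4 : 2 ≤ wh)
    (y1 : 1 ≤ vh - 1 + b) (y2 : 1 ≤ wh - 1 + b)
    (hV : (3 - 2 * b ≤ LV) ∨ (2 - 2 * b ≤ LV ∧ 2 ≤ vh - 1 + b))
    (hW : (-4 * b + 7 ≤ LW ∧ 3 ≤ ww ∧ 2 ≤ wh - 1 + b) ∨ (4 ≤ ww ∧ 4 * wh - 3 ≤ LW) ∨
      (b = 0 ∧ 4 ≤ wh ∧ 4 * ww - 3 ≤ LW) ∨ (b = 0 ∧ 3 ≤ ww ∧ 3 ≤ wh ∧ 2 * (ww + wh) - 5 ≤ LW)) :
    Cls (LV + LW + 10 - 2 * (4 - 1) * (4 - b) +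
        2 * ((ww - 1 + 1) * (vh - 1 + b) + (vw - 1 + 1) * (wh - 1 + b)))
      (ww - 1 + 1) (vh - 1 + b) (vw - 1 + 1) (wh - 1 + b) (vw + ww - 1 + 1) (vh + wh - 1 + b) := by
  by_cases hc : b = 0 ∧ 4 ≤ wh ∧ 4 * ww - 3 ≤ LW
  · refine Cls.D (by omega) (by omega) (by omega) (by omega) ?_
    generalize (ww - 1 + 1) * (vh - 1 + b) = P at *
    generalize (vw - 1 + 1) * (wh - 1 + b) = Q at *
    omega
  · have hw : 3 ≤ ww := by omega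
    have p := h696_pr 3 1 (show 3 ≤ ww - 1 + 1 by omega) y1
    have q := h696_pr 3 1 (show 3 ≤ vw - 1 + 1 by omega) y2
    by_cases hd : 8 - 6 * b ≤ LV + LW
    · refine Cls.H (by omega) (by omega) ?_ ?_
      · generalize (ww - 1 + 1) * (vh - 1 + b) = P at *
        generalize (vw - 1 + 1) * (wh - 1 + b) = Q at *
        omega
      · intro _
        generalize (ww - 1 + 1) * (vh - 1 + b) = P at *
        generalize (vw - 1 + 1) * (wh - 1 + b) = Q at *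
        omega
    · refine Cls.Hm (by omega) (by omega) ?_ ?_
      · omega
      · generalize (ww - 1 + 1) * (vh - 1 + b) = P at *
        generalize (vw - 1 + 1) * (wh - 1 + b) = Q at *
        omega

/-- the cases `a = 2`, `a = 1`, and `a, b ≤ 0` -/
theorem h696_half {LV LW vw vh ww wh a b : ℤ} (hab : a + b ≤ 2)
    (hc : a = 2 ∨ (a = 1 ∧ b ≤ 1) ∨ (a ≤ 0 ∧ b ≤ 0))
    (h1 : 2 ≤ vw) (h2 : 2 ≤ vh) (h3 : 2 ≤ ww) (h4 : 2 ≤ wh)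
    (x1 : 1 ≤ ww - 1 + a) (x2 : 1 ≤ vw - 1 + a) (y1 : 1 ≤ vh - 1 + b) (y2 : 1 ≤ wh - 1 + b)
    (hV : KStr LV vw vh a b ∨ KSg LV vw vh a b ∨ KTb LV vw vh a b)
    (hW : KStr LW ww wh a b ∨ KSg LW ww wh a b) :
    Cls (LV + LW + 10 - 2 * (4 - a) * (4 - b) +
        2 * ((ww - 1 + a) * (vh - 1 + b) + (vw - 1 + a) * (wh - 1 + b)))
      (ww - 1 + a) (vh - 1 + b) (vw - 1 + a) (wh - 1 + b) (vw + ww - 1 + a) (vh + wh - 1 + b) := by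
  rcases hc with rfl | ⟨rfl, hb1⟩ | ⟨ha0, hb0⟩
  · refine h696_two (by omega) h1 h2 h3 h4 y1 y2 ?_ ?_
    · rcases hV with k | k | k
      · exact k.c2 rfl
      · exact k.c2 rfl
      · exact ⟨k.c2 rfl, fun h => by have := k.w3; omega⟩
    · rcases hW with k | k
      · exact k.c2 rfl
      · exact k.c2 rfl
  · rcases Int.lt_or_le 0 b with hb | hb
    · obtain rfl : b = 1 := by omega
      have nV : 0 ≤ LV := by
        rcases hV with k | k | k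
        · exact k.nn
        · exact k.nn
        · exact k.nn
      have nW : 0 ≤ LW := by
        rcases hW with k | k
        · exact k.nn
        · exact k.nn
      refine Cls.D (by omega) (by omega) (by omega) (by omega) ?_
      generalize (ww - 1 + 1) * (vh - 1 + 1) = P at *
      generalize (vw - 1 + 1) * (wh - 1 + 1) = Q at *
      omega
    · have kW : (-4 * b + 7 ≤ LW ∧ 3 ≤ ww ∧ 2 ≤ wh - 1 + b) ∨ (4 ≤ ww ∧ 4 * wh - 3 ≤ LW) ∨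
          (b = 0 ∧ 4 ≤ wh ∧ 4 * ww - 3 ≤ LW) ∨
          (b = 0 ∧ 3 ≤ ww ∧ 3 ≤ wh ∧ 2 * (ww + wh) - 5 ≤ LW) := by
        rcases hW with k | k
        · exact Or.inl (k.c1 rfl hb)
        · exact Or.inr (k.c1 rfl hb)
      rcases hV with k | k | k
      · exact h696_one hb h1 h2 h3 h4 y1 y2 (Or.inl (k.c1 rfl hb)) kW
      · exact h696_one hb h1 h2 h3 h4 y1 y2 (Or.inr (k.c1 rfl hb)) kW
      · exact h696_oneTb hb k.w3 k.h3 h3 h4 y1 y2 (k.c1 rfl hb) kW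
  · obtain ⟨w1, w2, w3⟩ : 2 * (3 - a) * (3 - b) - 1 ≤ LW ∧ 3 ≤ ww - 1 + a ∧ 3 ≤ wh - 1 + b := by
      rcases hW with k | k
      · exact k.c0 ha0 hb0
      · exact absurd ⟨ha0, hb0⟩ k.c0
    have hab0 : 0 ≤ a * b := mul_nonneg_of_nonpos_of_nonpos ha0 hb0
    have e1 : 2 * (3 - a) * (3 - b) = 18 - 6 * a - 6 * b + 2 * (a * b) := by ring
    have e2 : 2 * (4 - a) * (4 - b) = 32 - 8 * a - 8 * b + 2 * (a * b) := by ring
    have v1 : 4 - 2 * a - 2 * b ≤ LV := by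
      rcases hV with k | k | k
      · have := (k.c0 ha0 hb0).1
        rw [e1] at this
        omega
      · exact absurd ⟨ha0, hb0⟩ k.c0
      · exact k.c0 ha0 hb0
    rw [e1] at w1
    rw [e2]
    have p := h696_pr 3 1 w2 y1
    have q := h696_pr 1 3 x2 w3
    generalize a * b = R at *
    refine Cls.G0 ?_ ?_
    · generalize (ww - 1 + a) * (vh - 1 + b) = P at *
      generalize (vw - 1 + a) * (wh - 1 + b) = Q at *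
      omega
    · generalize (ww - 1 + a) * (vh - 1 + b) = P at *
      generalize (vw - 1 + a) * (wh - 1 + b) = Q at *
      omega

/-- COMBINATION LEMMA. `V` strict, single or type (b), `W` strict or single.

Cases on `(a, b)`: `a = 2` (then `b ≤ 0`): class `H` (`x, x' ≥ 3`): `LV ≥ -2b`, `LW ≥ -2b`,
`10 - 2 (4 - a) (4 - b) = 4 b - 6`. If `w = 4`: impossible (`w = vw + ww + 1 ≥ 5`); if `h = 4` and
`x = x' = 3`, `y = y' = 1` then `vw = ww = 2`, `vh = wh = 3`, `b = -1` and `LV, LW ≥ 5`.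
`b = 2`: class `V`, symmetric. `a = b = 1`: class `D`.
`a = 1`, `b ≤ 0`: `10 - 2 * 3 * (4 - b) = 6 b - 14`. `V`, `W` in {strict, single}: class `Gx`.
`V` type (b), `W` strict: class `H` (`LV ≥ 2 - 2b`, `LW ≥ 7 - 4b`, sum `-5`).
`V` type (b), `W` single: (i) `4 ≤ ww`, `LW ≥ 4 wh - 3 = 4 (y' + 1 - b) - 3`: sum
`LV + 4 y' + 2 b - 13` which is at least `4 y' - 11 ` (second alternative of `c1`, `y ≥ 2`) or
`4 y' - 10` (first alternative): for `y' ≥ 2` class `H`; for `y' = 1`: `Hm` (second alternative, `x ≥ 4`,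
`y ≥ 2`) or `H` (first alternative; `-6`; `x ≥ 4` so `L ≥ 2 (4 + 3) - 6 = 8`).
(ii) `b = 0`, `wh ≥ 4`, `LW ≥ 4 ww - 3`: sum `LV + 4 x - 17 ≥ 4 x - 15`, class `D` (`x ≥ 2`, `y' ≥ 3`,
`y = vh - 1 ≥ 2`, `x' = vw ≥ 3`). (iii) `b = 0`, `ww, wh ≥ 3`: `LW ≥ 2 (ww + wh) - 5 ≥ 7`,
sum `≥ 2 + 7 - 14 = -5`: class `H`.
`b = 1`, `a ≤ 0`: symmetric, classes `Gy`, `V`, `Vm`, `D`.
`a ≤ 0`, `b ≤ 0`: `W` strict; `V` strict: class `G0` with a lot of room; `V` type (b): class `G0`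
(sum exactly `-1`), `7 ≤ L` because `x ≥ 3`, `y' ≥ 3`. -/
theorem combine {LV LW vw vh ww wh a b : ℤ} (ha : a ≤ 2) (hb : b ≤ 2) (hab : a + b ≤ 2)
    (h1 : 2 ≤ vw) (h2 : 2 ≤ vh) (h3 : 2 ≤ ww) (h4 : 2 ≤ wh)
    (x1 : 1 ≤ ww - 1 + a) (x2 : 1 ≤ vw - 1 + a) (y1 : 1 ≤ vh - 1 + b) (y2 : 1 ≤ wh - 1 + b)
    (hV : KStr LV vw vh a b ∨ KSg LV vw vh a b ∨ KTb LV vw vh a b)
    (hW : KStr LW ww wh a b ∨ KSg LW ww wh a b) :
    Cls (LV + LW + 10 - 2 * (4 - a) * (4 - b) +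
        2 * ((ww - 1 + a) * (vh - 1 + b) + (vw - 1 + a) * (wh - 1 + b)))
      (ww - 1 + a) (vh - 1 + b) (vw - 1 + a) (wh - 1 + b) (vw + ww - 1 + a) (vh + wh - 1 + b) := by
  by_cases hc : a = 2 ∨ (a = 1 ∧ b ≤ 1) ∨ (a ≤ 0 ∧ b ≤ 0)
  · exact h696_half hab hc h1 h2 h3 h4 x1 x2 y1 y2 hV hW
  · have k := h696_half (LV := LV) (LW := LW) (vw := vh) (vh := vw) (ww := wh) (wh := ww) (a := b)
      (b := a) (by omega) (by omega) h2 h1 h4 h3 y2 y1 x2 x1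
      (by
        rcases hV with k | k | k
        · exact Or.inl (h696_str_symm k)
        · exact Or.inr (Or.inl (h696_sg_symm k))
        · exact Or.inr (Or.inr (h696_tb_symm k)))
      (by
        rcases hW with k | k
        · exact Or.inl (h696_str_symm k)
        · exact Or.inr (h696_sg_symm k))
    have e : LV + LW + 10 - 2 * (4 - b) * (4 - a) +
        2 * ((wh - 1 + b) * (vw - 1 + a) + (vh - 1 + b) * (ww - 1 + a)) =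
        LV + LW + 10 - 2 * (4 - a) * (4 - b) +
        2 * ((ww - 1 + a) * (vh - 1 + b) + (vw - 1 + a) * (wh - 1 + b)) := by ring
    rw [e] at k
    exact h696_cls_symm k

end Pool.Agent.H109
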