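import Mathlib

/-!
Two-neighbour bootstrap percolation on `ℤ × ℤ`: internally spanned rectangles.

`IS A P` : the finite set of sites `A` internally spans the rectangle `P`.
`Mn A R` : `A` is a minimal spanning set of `R`.
-/

set_option autoImplicit false

namespace Pool.Agent.H109

/-- A rectangle `[x1, x2] × [y1, y2]` of sites of `ℤ × ℤ`. -/
@[ext] structure Rc where
  x1 : ℤ
  x2 : ℤ
  y1 : ℤ
  y2 : ℤ

namespace Rc

/-- The smallest rectangle containing `P` and `Q`. -/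
def box (P Q : Rc) : Rc := ⟨min P.x1 Q.x1, max P.x2 Q.x2, min P.y1 Q.y1, max P.y2 Q.y2⟩

/-- The one-site rectangle. -/
def pt (c : ℤ × ℤ) : Rc := ⟨c.1, c.1, c.2, c.2⟩

/-- width -/
def w (P : Rc) : ℤ := P.x2 - P.x1 + 1

/-- height -/
def h (P : Rc) : ℤ := P.y2 - P.y1 + 1

end Rc

open Rc

/-- membership of a site in a rectangle -/
def Mem (c : ℤ × ℤ) (P : Rc) : Prop := P.x1 ≤ c.1 ∧ c.1 ≤ P.x2 ∧ P.y1 ≤ c.2 ∧ c.2 ≤ P.y2

instance (c : ℤ × ℤ) (P : Rc) : Decidable (Mem c P) := by unfold Mem; infer_instance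

/-- inclusion of rectangles -/
def Sub (P Q : Rc) : Prop := Q.x1 ≤ P.x1 ∧ P.x2 ≤ Q.x2 ∧ Q.y1 ≤ P.y1 ∧ P.y2 ≤ Q.y2

/-- Two rectangles are near when the horizontal distance plus the vertical distance is at most `2`
(the distance in a direction is `0` when the projections meet). -/
def Near (P Q : Rc) : Prop :=
  max 0 (max (Q.x1 - P.x2) (P.x1 - Q.x2)) + max 0 (max (Q.y1 - P.y2) (P.y1 - Q.y2)) ≤ 2

/-- `IS A P`: the set `A` internally spans the rectangle `P`. -/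
inductive IS : Finset (ℤ × ℤ) → Rc → Prop
  | pt (c : ℤ × ℤ) : IS {c} (Rc.pt c)
  | mg {A B : Finset (ℤ × ℤ)} {P Q : Rc} : IS A P → IS B Q → Near P Q → IS (A ∪ B) (box P Q)

/-- `A` is a minimal spanning set of `R`. -/
def Mn (A : Finset (ℤ × ℤ)) (R : Rc) : Prop := IS A R ∧ ∀ B, B ⊂ A → ¬ IS B R

/-- Some subset of `A` spans `P`. -/
def Sp (A : Finset (ℤ × ℤ)) (P : Rc) : Prop := ∃ B, B ⊆ A ∧ IS B P

variable {A B C : Finset (ℤ × ℤ)} {P Q R : Rc} {c : ℤ × ℤ}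

theorem rc_eq (h1 : P.x1 = Q.x1) (h2 : P.x2 = Q.x2) (h3 : P.y1 = Q.y1) (h4 : P.y2 = Q.y2) :
    P = Q := Rc.ext h1 h2 h3 h4

theorem Sub.refl (P : Rc) : Sub P P := ⟨le_refl _, le_refl _, le_refl _, le_refl _⟩

theorem Sub.trans (h1 : Sub P Q) (h2 : Sub Q R) : Sub P R := by
  unfold Sub at *; omega

theorem Sub.antisymm (h1 : Sub P Q) (h2 : Sub Q P) : P = Q := by
  unfold Sub at *; apply rc_eq <;> omega

theorem Mem.sub (h : Mem c P) (h2 : Sub P Q) : Mem c Q := by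
  unfold Mem Sub at *; omega

theorem near_symm (h : Near P Q) : Near Q P := by
  unfold Near at *; omega

theorem near_mono {P' Q' : Rc} (h : Near P Q) (h1 : Sub P P') (h2 : Sub Q Q')
    : Near P' Q' := by
  unfold Near Sub at *; omega

theorem sub_box_left (P Q : Rc) : Sub P (box P Q) := by
  unfold Sub box; simp only; omega

theorem sub_box_right (P Q : Rc) : Sub Q (box P Q) := by
  unfold Sub box; simp only; omega

theorem box_sub (h1 : Sub P R) (h2 : Sub Q R) : Sub (box P Q) R := by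
  unfold Sub box at *; simp only; omega

theorem box_comm (P Q : Rc) : box P Q = box Q P := by
  unfold box; apply rc_eq <;> simp only <;> omega

theorem IS.wf (h : IS A P) : P.x1 ≤ P.x2 ∧ P.y1 ≤ P.y2 := by
  induction h with
  | pt c => simp [Rc.pt]
  | mg _ _ _ ih1 ih2 => unfold box; simp only; omega

theorem IS.nonempty (h : IS A P) : A.Nonempty := by
  induction h with
  | pt c => simp
  | mg _ _ _ ih1 ih2 => exact ih1.mono Finset.subset_union_left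

theorem IS.mem (h : IS A P) : ∀ c ∈ A, Mem c P := by
  induction h with
  | pt c => intro d hd; simp at hd; subst hd; simp [Mem, Rc.pt]
  | @mg A B P Q _ _ _ ih1 ih2 =>
    intro c hc
    rw [Finset.mem_union] at hc
    rcases hc with hc | hc
    · exact (ih1 c hc).sub (sub_box_left _ _)
    · exact (ih2 c hc).sub (sub_box_right _ _)

/-- every side of a spanned rectangle carries a site -/
theorem IS.sides (h : IS A P) : (∃ c ∈ A, c.1 = P.x1) ∧ (∃ c ∈ A, c.1 = P.x2) ∧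
    (∃ c ∈ A, c.2 = P.y1) ∧ (∃ c ∈ A, c.2 = P.y2) := by
  induction h with
  | pt c => simp [Rc.pt]
  | @mg A B P Q _ _ _ ih1 ih2 =>
    obtain ⟨⟨a1, ha1, h1⟩, ⟨a2, ha2, h2⟩, ⟨a3, ha3, h3⟩, ⟨a4, ha4, h4⟩⟩ := ih1
    obtain ⟨⟨b1, hb1, k1⟩, ⟨b2, hb2, k2⟩, ⟨b3, hb3, k3⟩, ⟨b4, hb4, k4⟩⟩ := ih2
    unfold box
    simp only [Finset.mem_union]
    refine ⟨?_, ?_, ?_, ?_⟩
    · rcases le_total P.x1 Q.x1 with h | h
      · exact ⟨a1, Or.inl ha1, by omega⟩
      · exact ⟨b1, Or.inr hb1, by omega⟩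
    · rcases le_total P.x2 Q.x2 with h | h
      · exact ⟨b2, Or.inr hb2, by omega⟩
      · exact ⟨a2, Or.inl ha2, by omega⟩
    · rcases le_total P.y1 Q.y1 with h | h
      · exact ⟨a3, Or.inl ha3, by omega⟩
      · exact ⟨b3, Or.inr hb3, by omega⟩
    · rcases le_total P.y2 Q.y2 with h | h
      · exact ⟨b4, Or.inr hb4, by omega⟩
      · exact ⟨a4, Or.inl ha4, by omega⟩

/-- Key lemma: if a pairwise far family of rectangles covers the sites of `A`, and `A` spans `Q`,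
then `Q` lies in one member of the family. -/
theorem IS.cover (F : Rc → Prop) (hF : ∀ P Q, F P → F Q → Near P Q → P = Q) (h : IS A Q)
    (hA : ∀ c ∈ A, ∃ P, F P ∧ Mem c P) : ∃ P, F P ∧ Sub Q P := by
  induction h with
  | pt c =>
    obtain ⟨P, hP, hc⟩ := hA c (by simp)
    refine ⟨P, hP, ?_⟩
    unfold Sub Rc.pt; unfold Mem at hc; simp only; omega
  | @mg A B P Q _ _ hn ih1 ih2 =>
    obtain ⟨P', hP', h1⟩ := ih1 fun c hc => hA c (Finset.mem_union_left _ hc)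
    obtain ⟨Q', hQ', h2⟩ := ih2 fun c hc => hA c (Finset.mem_union_right _ hc)
    have := hF P' Q' hP' hQ' (near_mono hn h1 h2)
    subst this
    exact ⟨P', hP', box_sub h1 h2⟩

theorem IS.sub_of_mem (h : IS A P) (hA : ∀ c ∈ A, Mem c Q) : Sub P Q := by
  obtain ⟨P', rfl, h'⟩ := h.cover (fun X => X = Q) (fun _ _ h1 h2 _ => h1.trans h2.symm)
    (fun c hc => ⟨Q, rfl, hA c hc⟩)
  exact h'

theorem IS.mono (h : IS A P) (h' : IS B Q) (hAB : A ⊆ B) : Sub P Q :=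
  h.sub_of_mem fun c hc => h'.mem c (hAB hc)

theorem IS.uniq (h : IS A P) (h' : IS A Q) : P = Q :=
  (h.mono h' subset_rfl).antisymm (h'.mono h subset_rfl)

theorem Sp.sub_of_mem (h : Sp A P) (hA : ∀ c ∈ A, Mem c Q) : Sub P Q := by
  obtain ⟨B, hB, h⟩ := h
  exact h.sub_of_mem fun c hc => hA c (hB hc)

theorem Sp.mono (h : Sp A P) (hAB : A ⊆ B) : Sp B P := by
  obtain ⟨C, hC, h⟩ := h
  exact ⟨C, hC.trans hAB, h⟩

theorem IS.sp (h : IS A P) : Sp A P := ⟨A, subset_rfl, h⟩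

theorem Sp.wf (h : Sp A P) : P.x1 ≤ P.x2 ∧ P.y1 ≤ P.y2 := h.choose_spec.2.wf

theorem Sp.merge (h : Sp A P) (h' : Sp A Q) (hn : Near P Q) : Sp A (box P Q) := by
  obtain ⟨B, hB, h⟩ := h
  obtain ⟨C, hC, h'⟩ := h'
  exact ⟨B ∪ C, Finset.union_subset hB hC, IS.mg h h' hn⟩

theorem Sp.pt (hc : c ∈ A) : Sp A (Rc.pt c) := ⟨{c}, by simpa using hc, IS.pt c⟩

theorem finite_Sp (A : Finset (ℤ × ℤ)) : {Q | Sp A Q}.Finite := by
  have : {Q | Sp A Q} ⊆ ⋃ B ∈ (A.powerset : Finset (Finset (ℤ × ℤ))), {Q | IS B Q} := by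
    rintro Q ⟨B, hB, hQ⟩
    simp only [Set.mem_iUnion]
    exact ⟨B, Finset.mem_powerset.mpr hB, hQ⟩
  refine Set.Finite.subset ?_ this
  refine Set.Finite.biUnion A.powerset.finite_toSet ?_
  intro B _
  refine Set.Subsingleton.finite ?_
  intro P hP Q hQ
  exact IS.uniq hP hQ

/-- Among the rectangles spanned inside `A` with a property `p`, there is a maximal one above any
given one. -/
theorem exists_max (A : Finset (ℤ × ℤ)) (p : Rc → Prop) {P : Rc} (hP : Sp A P) (hp : p P) :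
    ∃ Q, Sp A Q ∧ p Q ∧ Sub P Q ∧ ∀ Q', Sp A Q' → p Q' → Sub Q Q' → Q' = Q := by
  have hfin : {Q | Sp A Q ∧ p Q ∧ Sub P Q}.Finite :=
    (finite_Sp A).subset fun Q hQ => hQ.1
  obtain ⟨Q, hQ, hmax⟩ := Set.exists_max_image {Q | Sp A Q ∧ p Q ∧ Sub P Q}
    (fun Q => (Q.x2 - Q.x1) + (Q.y2 - Q.y1)) hfin ⟨P, hP, hp, Sub.refl P⟩
  refine ⟨Q, hQ.1, hQ.2.1, hQ.2.2, ?_⟩
  intro Q' h1 h2 h3
  have := hmax Q' ⟨h1, h2, hQ.2.2.trans h3⟩
  unfold Sub at h3
  apply rc_eq <;> omega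

/-- maximal rectangles spanned inside `A` -/
def MxS (A : Finset (ℤ × ℤ)) (P : Rc) : Prop := Sp A P ∧ ∀ Q, Sp A Q → Sub P Q → Q = P

theorem Sp.exists_MxS (h : Sp A P) : ∃ Q, MxS A Q ∧ Sub P Q := by
  obtain ⟨Q, h1, _, h2, h3⟩ := exists_max A (fun _ => True) h trivial
  exact ⟨Q, ⟨h1, fun Q' hQ' hs => h3 Q' hQ' trivial hs⟩, h2⟩

theorem MxS.eq_of_near (h : MxS A P) (h' : MxS A Q) (hn : Near P Q) : P = Q := by
  have h1 := h.2 _ (h.1.merge h'.1 hn) (sub_box_left _ _)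
  have h2 := h'.2 _ (h.1.merge h'.1 hn) (sub_box_right _ _)
  exact h1.symm.trans h2

theorem exists_MxS_mem (hc : c ∈ A) : ∃ Q, MxS A Q ∧ Mem c Q := by
  obtain ⟨Q, h1, h2⟩ := (Sp.pt hc).exists_MxS
  exact ⟨Q, h1, by unfold Sub Rc.pt at h2; unfold Mem; simp only at h2; omega⟩

/-- In a minimal spanning set, a spanned sub-rectangle contains only the sites that span it. -/
theorem Mn.mem_of (h : Mn A R) (hB : B ⊆ A) (hP : IS B P) (hc : c ∈ A) (hcP : Mem c P) :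
    c ∈ B := by
  by_contra hcB
  have hsub : B ⊆ A.erase c := fun d hd => Finset.mem_erase.mpr
    ⟨fun h => hcB (h ▸ hd), hB hd⟩
  have hspB : Sp (A.erase c) P := ⟨B, hsub, hP⟩
  obtain ⟨Q, hQ, hPQ⟩ := hspB.exists_MxS
  obtain ⟨Q', hQ', hRQ'⟩ := h.1.cover (MxS (A.erase c)) (fun _ _ h1 h2 h3 => h1.eq_of_near h2 h3)
    (fun d hd => by
      by_cases hdc : d = c
      · subst hdc; exact ⟨Q, hQ, hcP.sub hPQ⟩
      · exact exists_MxS_mem (Finset.mem_erase.mpr ⟨hdc, hd⟩))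
  obtain ⟨B', hB', hIS⟩ := hQ'.1
  have : Q' = R := (hIS.sub_of_mem fun d hd => h.1.mem d (Finset.erase_subset _ _ (hB' hd))).antisymm
    hRQ'
  subst this
  exact h.2 B' (Finset.ssubset_of_subset_of_ssubset hB' (Finset.erase_ssubset hc)) hIS

theorem Mn.sub (h : Mn A R) (hB : B ⊆ A) (hP : IS B P) : Mn B P := by
  refine ⟨hP, fun B' hB' hIS => ?_⟩
  obtain ⟨c, hc, hc'⟩ := Finset.exists_of_ssubset hB'
  exact hc' (h.mem_of (hB'.1.trans hB) hIS (hB hc) (hP.mem c hc))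

theorem Mn.eq_of_IS (h : Mn A R) (hB : B ⊆ A) (hC : C ⊆ A) (hP : IS B P) (hP' : IS C P) :
    B = C := by
  apply Finset.Subset.antisymm
  · intro c hc; exact h.mem_of hC hP' (hB hc) (hP.mem c hc)
  · intro c hc; exact h.mem_of hB hP (hC hc) (hP'.mem c hc)

theorem Mn.subset_of_sub (h : Mn A R) (hB : B ⊆ A) (hC : C ⊆ A) (hP : IS B P) (hQ : IS C Q)
    (hs : Sub P Q) : B ⊆ C := by
  intro c hc
  exact h.mem_of hC hQ (hB hc) ((hP.mem c hc).sub hs)

/-- If a subset of a minimal spanning set of `R` spans `R`, it is everything. -/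
theorem Mn.eq_of_IS_R (h : Mn A R) (hB : B ⊆ A) (hP : IS B R) : B = A :=
  h.eq_of_IS hB subset_rfl hP h.1

end Pool.Agent.H109
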