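import Pool.Agent.H109.Pot

/-!
Bounds for `V` of single type (PERC-12, helper969).
-/

set_option autoImplicit false

namespace Pool.Agent.H109

open Rc

variable {A B C D E B' B1 B2 : Finset (ℤ × ℤ)} {P Q R X Y P' M M1 M2 V W V' : Rc}
  {c z v : ℤ × ℤ} {n : ℕ} {a b : ℤ}

theorem sg_geom (h : Mn D V) (hv : v ∈ D) (hV' : IS (D.erase v) V') (hx : V'.x1 = V.x1)
    (hy : V'.y1 = V.y1) (h2w : 2 ≤ V'.w) (h2h : 2 ≤ V'.h) :
    0 ≤ V.x2 - V'.x2 ∧ 0 ≤ V.y2 - V'.y2 ∧ 1 ≤ (V.x2 - V'.x2) + (V.y2 - V'.y2) ∧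
    (V.x2 - V'.x2) + (V.y2 - V'.y2) ≤ 2 ∧
    V.w = V'.w + (V.x2 - V'.x2) ∧ V.h = V'.h + (V.y2 - V'.y2) ∧
    lam D V = lam (D.erase v) V' +
      2 * ((V.w + 3) * (V.h + 3) - (V'.w + 3) * (V'.h + 3)) - 15 := by
  have hsub : Sub V' V := hV'.mono h.1 (Finset.erase_subset _ _)
  have hne : V' ≠ V := fun e => h.2 _ (Finset.erase_ssubset hv) (e ▸ hV')
  have hnear : Near V' (Rc.pt v) := by
    by_contra hn
    obtain ⟨Z, hZ, hs⟩ := h.1.cover (fun Z => Z = V' ∨ Z = Rc.pt v) (by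
      rintro Z Z' (rfl | rfl) (rfl | rfl) hn'
      · rfl
      · exact (hn hn').elim
      · exact (hn (near_symm hn')).elim
      · rfl) (by
      intro c hc
      by_cases hcv : c = v
      · refine ⟨Rc.pt v, Or.inr rfl, ?_⟩
        rw [hcv]
        unfold Mem Rc.pt
        simp only
        omega
      · exact ⟨V', Or.inl rfl, hV'.mem c (Finset.mem_erase.2 ⟨hcv, hc⟩)⟩)
    rcases hZ with rfl | rfl
    · exact hne (hsub.antisymm hs)
    · have hs' := hsub.trans hs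
      unfold Sub Rc.pt at hs'
      unfold Rc.w at h2w
      simp only at hs'
      omega
  have hDu : D.erase v ∪ {v} = D := by
    rw [Finset.union_comm, ← Finset.insert_eq]
    exact Finset.insert_erase hv
  have hIS := IS.mg hV' (IS.pt v) hnear
  rw [hDu] at hIS
  have hbox := h.1.uniq hIS
  have hvn : ¬ Mem v V' := fun hm =>
    (Finset.notMem_erase v D) (h.mem_of (Finset.erase_subset _ _) hV' hv hm)
  have ex1 : V.x1 = min V'.x1 v.1 := by rw [hbox]; rfl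
  have ex2 : V.x2 = max V'.x2 v.1 := by rw [hbox]; rfl
  have ey1 : V.y1 = min V'.y1 v.2 := by rw [hbox]; rfl
  have ey2 : V.y2 = max V'.y2 v.2 := by rw [hbox]; rfl
  have hnear' : max 0 (max (v.1 - V'.x2) (V'.x1 - v.1)) +
      max 0 (max (v.2 - V'.y2) (V'.y1 - v.2)) ≤ 2 := hnear
  have hwf := hV'.wf
  unfold Mem at hvn
  have hw : V.w = V'.w + (V.x2 - V'.x2) := by unfold Rc.w; omega
  have hh : V.h = V'.h + (V.y2 - V'.y2) := by unfold Rc.h; omega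
  have hcard : D.card = (D.erase v).card + 1 := (Finset.card_erase_add_one hv).symm
  refine ⟨by omega, by omega, by omega, by omega, hw, hh, ?_⟩
  unfold lam
  rw [hcard]
  push_cast
  ring

/-- the integer inequalities in `ksg` -/
theorem ksg_arith969 {L L' w h w' h' k l al be : ℤ} (hk : 0 ≤ k) (hl : 0 ≤ l) (hkl : 1 ≤ k + l)
    (hkl2 : k + l ≤ 2) (hw : w = w' + k) (hh : h = h' + l) (hw' : 2 ≤ w') (hh' : 2 ≤ h')
    (hL : L = L' + 2 * ((w + 3) * (h + 3) - (w' + 3) * (h' + 3)) - 15) (nn : 0 ≤ L) (nn' : 0 ≤ L')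
    (a5 : w' < 3 ∨ h' < 3 ∨ (w' < 4 ∧ h' < 4) ∨ 5 ≤ L')
    (w3 : w ≠ 3 ∨ 2 * h - 4 ≤ L) (h3 : h ≠ 3 ∨ 2 * w - 4 ≤ L)
    (na : al ≤ 2) (nb : be ≤ 2) (nab : al + be ≤ 2) (ha : 2 - al ≤ w) (hb : 2 - be ≤ h)
    (hf : 3 ≤ al + k ∨ 3 ≤ be + l ∨ 3 ≤ al + k + (be + l)) : KSg L w h al be := by
  have hcase : (k = 1 ∧ l = 0) ∨ (k = 2 ∧ l = 0) ∨ (k = 0 ∧ l = 1) ∨ (k = 0 ∧ l = 2) ∨
      (k = 1 ∧ l = 1) := by omega
  rcases hcase with ⟨rfl, rfl⟩ | ⟨rfl, rfl⟩ | ⟨rfl, rfl⟩ | ⟨rfl, rfl⟩ | ⟨rfl, rfl⟩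
  · have e : L = L' + 2 * h - 9 := by rw [hL, hw, hh]; ring
    clear hL
    constructor <;> omega
  · have e : L = L' + 4 * h - 3 := by rw [hL, hw, hh]; ring
    clear hL
    constructor <;> omega
  · have e : L = L' + 2 * w - 9 := by rw [hL, hw, hh]; ring
    clear hL
    constructor <;> omega
  · have e : L = L' + 4 * w - 3 := by rw [hL, hw, hh]; ring
    clear hL
    constructor <;> omega
  · have e : L = L' + 2 * (w + h) - 5 := by rw [hL, hw, hh]; ring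
    clear hL
    constructor <;> omega

theorem ksg (ih : IH n) (h : Mn D V) (hn : D.card < n) (hv : v ∈ D) (hV' : IS (D.erase v) V')
    (hx : V'.x1 = V.x1) (hy : V'.y1 = V.y1) (h2w : 2 ≤ V'.w) (h2h : 2 ≤ V'.h) (ha : V.x1 < a)
    (hb : V.y1 < b) (na : a - V.x2 ≤ 2) (nb : b - V.y2 ≤ 2) (nab : (a - V.x2) + (b - V.y2) ≤ 2)
    (hf : FarQ V' a b) :
    KSg (lam D V) V.w V.h (a - V.x2) (b - V.y2) := by
  obtain ⟨g1, g2, g3, g4, g5, g6, g7⟩ := sg_geom h hv hV' hx hy h2w h2h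
  have hG := ih D V h hn
  have hM' : Mn (D.erase v) V' := h.sub (Finset.erase_subset _ _) hV'
  have hG' := ih _ _ hM' (lt_of_le_of_lt (Finset.card_le_card (Finset.erase_subset _ _)) hn)
  have hf' : 3 ≤ (a - V.x2) + (V.x2 - V'.x2) ∨ 3 ≤ (b - V.y2) + (V.y2 - V'.y2) ∨
      3 ≤ (a - V.x2) + (V.x2 - V'.x2) + ((b - V.y2) + (V.y2 - V'.y2)) := by
    unfold FarQ at hf
    omega
  refine ksg_arith969 g1 g2 g3 g4 g5 g6 h2w h2h g7 (hG.a0 (by omega) (by omega))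
    (hG'.a0 h2w h2h) ?_ ?_ ?_ na nb nab ?_ ?_ hf'
  · by_cases c1 : 3 ≤ V'.w
    · by_cases c2 : 3 ≤ V'.h
      · by_cases c3 : 4 ≤ V'.w ∨ 4 ≤ V'.h
        · exact Or.inr (Or.inr (Or.inr (hG'.a5 c1 c2 c3)))
        · omega
      · omega
    · omega
  · by_cases c : V.w = 3
    · exact Or.inr (lam_w3 h c)
    · exact Or.inl c
  · by_cases c : V.h = 3
    · exact Or.inr (lam_h3 h c)
    · exact Or.inl c
  · unfold Rc.w; omega
  · unfold Rc.h; omega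

end Pool.Agent.H109
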