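import Pool.Agent.H109.Pot

/-!
Bounds for a strict `V`.
-/

set_option autoImplicit false

namespace Pool.Agent.H109

open Rc

variable {A B C D E B' B1 B2 : Finset (ℤ × ℤ)} {P Q R X Y P' M M1 M2 V W V' : Rc}
  {c z v : ℤ × ℤ} {n : ℕ} {a b : ℤ}

theorem h686_tri (h : Mn D V) (hc : 2 ≤ D.card) (na : a - V.x2 ≤ 2) (nb : b - V.y2 ≤ 2)
    (nab : (a - V.x2) + (b - V.y2) ≤ 2)
    (hs : ∀ E, E ⊂ D → ∀ Y, IS E Y → FarQ Y a b) :
    (∃ z M, SgR D V z M ∧ FarQ M a b) ∨ (∃ z M, SgT D V z M ∧ FarQ M a b) ∨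
      (∃ B1 M1 B2 M2, TBm D V B1 M1 B2 M2 ∧ FarQ M1 a b ∧ FarQ M2 a b) := by
  rcases h.structure hc with ⟨z, M, hs1⟩ | ⟨B1, M1, B2, M2, ht⟩ | ⟨B1, M1, B2, M2, ht⟩
  · rcases hs1 with h1 | h1 | h1 | h1
    · exact Or.inl ⟨z, M, h1, hs _ (Finset.erase_ssubset h1.hz) _ h1.is⟩
    · exfalso
      have := hs _ (Finset.erase_ssubset h1.hz) _ h1.is
      have e1 := h1.r
      have e2 := h1.t
      unfold FarQ at this
      omega
    · exact Or.inr (Or.inl ⟨z, M, h1, hs _ (Finset.erase_ssubset h1.hz) _ h1.is⟩)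
    · exfalso
      have := hs _ (Finset.erase_ssubset h1.hz) _ h1.is
      have e1 := h1.r
      have e2 := h1.t
      unfold FarQ at this
      omega
  · exfalso
    have := hs _ (ht.m2.ssub h) _ ht.m2.is
    have e1 := ht.r2
    have e2 := ht.t2
    unfold FarQ at this
    omega
  · exact Or.inr (Or.inr ⟨B1, M1, B2, M2, ht, hs _ (ht.m1.ssub h) _ ht.m1.is,
      hs _ (ht.m2.ssub h) _ ht.m2.is⟩)

theorem h686_pt (hc : 2 ≤ D.card) (hs : ∀ E, E ⊂ D → ∀ Y, IS E Y → FarQ Y a b) (hcD : c ∈ D) :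
    3 ≤ a - c.1 ∨ 3 ≤ b - c.2 ∨ 3 ≤ (a - c.1) + (b - c.2) := by
  have h1 : ({c} : Finset (ℤ × ℤ)) ⊂ D := by
    refine Finset.ssubset_iff_subset_ne.mpr ⟨by simpa using hcD, fun e => ?_⟩
    rw [← e] at hc
    simp at hc
  exact hs _ h1 _ (IS.pt c)

theorem h686_dim (h : Mn D V) (hc : 2 ≤ D.card) (na : a - V.x2 ≤ 2) (nb : b - V.y2 ≤ 2)
    (nab : (a - V.x2) + (b - V.y2) ≤ 2)
    (hs : ∀ E, E ⊂ D → ∀ Y, IS E Y → FarQ Y a b) : 2 ≤ V.w ∧ 2 ≤ V.h := by
  obtain ⟨-, ⟨d, hd, hd1⟩, -, ⟨c, hc', hc1⟩⟩ := h.1.sides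
  have m1 := h.1.mem d hd
  have m2 := h.1.mem c hc'
  have f1 := h686_pt hc hs hd
  have f2 := h686_pt hc hs hc'
  unfold Mem at m1 m2
  unfold Rc.w Rc.h
  omega

/-- a proper full width rectangle -/
theorem h686_full (h : Mn D V) (hE : E ⊂ D) (hY : IS E Y) (e1 : Y.x1 = V.x1) (e2 : Y.x2 = V.x2)
    (hs : ∀ E, E ⊂ D → ∀ Y, IS E Y → FarQ Y a b)
    (hf : ∀ P, P.x2 = V.x2 → P.y2 = V.y2 → ¬ FarQ P a b) :
    ∃ C P, C ⊂ D ∧ IS C P ∧ P.x1 = V.x1 ∧ P.x2 = V.x2 ∧ P.y1 = V.y1 ∧ FarQ P a b ∧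
      (P.y2 + 1 = V.y2 ∨ P.y2 + 2 = V.y2) ∧ D.card = C.card + 1 := by
  have hne : Y ≠ V := by
    rintro rfl
    exact h.2 E hE hY
  obtain ⟨C, P, hm, hsub⟩ := h.exists_mxp hE.1 hY hne
  have hR := hm.subR h
  have f1 : P.x1 = V.x1 := by unfold Sub at hsub hR; omega
  have f2 : P.x2 = V.x2 := by unfold Sub at hsub hR; omega
  have hfar := hs C (hm.ssub h) P hm.is
  obtain ⟨z, hz, e3, e4, h3⟩ := hm.full_width h f1 f2
  have hcard : D.card = C.card + 1 := by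
    rw [← e3]; exact (Finset.card_erase_add_one hz).symm
  rcases h3 with ⟨g1, g2, g3⟩ | ⟨g1, g2, g3⟩
  · exact ⟨C, P, hm.ssub h, hm.is, f1, f2, g1, hfar, g3, hcard⟩
  · exact (hf P f2 g1 hfar).elim

theorem h686_lam (hR : P.w = V.w) (k : ℤ) (hh : V.h = P.h + k) (hcard : D.card = C.card + 1) :
    lam D V = lam C P + 2 * k * (V.w + 3) - 15 := by
  unfold lam
  rw [hh, hR, hcard]
  push_cast
  ring

/-- case `al = 2`, `w = 2` -/
theorem h686_two (h : Mn D V) (h0 : 0 ≤ lam D V)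
    (hb : V.y1 < b) (e : a - V.x2 = 2) (nab : (a - V.x2) + (b - V.y2) ≤ 2) (hw : V.w = 2)
    (hs : ∀ E, E ⊂ D → ∀ Y, IS E Y → FarQ Y a b) :
    -2 * (b - V.y2) ≤ lam D V ∧ (b - V.y2 ≤ -1 → 5 ≤ lam D V) := by
  have hw' : V.x2 = V.x1 + 1 := by unfold Rc.w at hw; omega
  obtain ⟨u, hu, v, hv, e1, e2, e3, e4⟩ := core2 h.1 hw'
  have hQ := IS_pair (u := u) (v := v) (by omega) e3 e4
  have hsub : ({u, v} : Finset (ℤ × ℤ)) ⊆ D := by
    intro x hx
    simp only [Finset.mem_insert, Finset.mem_singleton] at hx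
    rcases hx with rfl | rfl
    · exact hu
    · exact hv
  by_cases hD : ({u, v} : Finset (ℤ × ℤ)) = D
  · rw [hD] at hQ
    have := hQ.uniq h.1
    have g1 : min u.2 v.2 = V.y1 := by rw [← this]
    have g2 : max u.2 v.2 = V.y2 := by rw [← this]
    have : b - V.y2 = 0 := by omega
    rw [this]
    exact ⟨by omega, by omega⟩
  · have hss : ({u, v} : Finset (ℤ × ℤ)) ⊂ D := Finset.ssubset_iff_subset_ne.mpr ⟨hsub, hD⟩
    obtain ⟨C, P, hC, hP, f1, f2, f3, f4, f5, f6⟩ := h686_full h hss hQ (by simp only; omega)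
      (by simp only; omega) hs (by
        intro P g1 g2 g3
        unfold FarQ at g3
        omega)
    unfold FarQ at f4
    have hbe : b - V.y2 = 0 ∨ (b - V.y2 = -1 ∧ P.y2 + 2 = V.y2) := by omega
    rcases hbe with hbe | ⟨hbe, hy⟩
    · rw [hbe]
      exact ⟨by omega, by omega⟩
    · have hPw : P.w = V.w := by unfold Rc.w; omega
      have hl := h686_lam (D := D) (C := C) hPw 2 (by unfold Rc.h; omega) f6
      have h1 := lam_w2 (h.sub hC.1 hP) (by omega)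
      rw [hw] at hl
      omega

/-- case `al = 2` -/
theorem h686_al2 (ih : IH n) (h : Mn D V) (hn : D.card < n) (hc : 2 ≤ D.card)
    (hb : V.y1 < b) (e : a - V.x2 = 2) (nb : b - V.y2 ≤ 2) (nab : (a - V.x2) + (b - V.y2) ≤ 2)
    (hs : ∀ E, E ⊂ D → ∀ Y, IS E Y → FarQ Y a b) :
    -2 * (b - V.y2) ≤ lam D V ∧ (V.w = 2 → b - V.y2 ≤ -1 → 5 ≤ lam D V) := by
  obtain ⟨w2, h2⟩ := h686_dim h hc (by omega) nb nab hs
  have hg := ih D V h hn
  have h0 := hg.a0 w2 h2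
  by_cases hw : V.w = 2
  · obtain ⟨k1, k2⟩ := h686_two h h0 hb e nab hw hs
    exact ⟨k1, fun _ => k2⟩
  refine ⟨?_, fun k => absurd k hw⟩
  have hh : 2 - (b - V.y2) ≤ V.h := by unfold Rc.h; omega
  by_cases hw3 : V.w = 3
  · have := lam_w3 h hw3
    omega
  by_cases hh2 : V.h = 2
  · omega
  by_cases hh3 : V.h = 3
  · have := lam_h3 h hh3
    omega
  have h5 := hg.a5 (by omega) (by omega) (by omega)
  rcases h686_tri h hc (by omega) nb nab hs with ⟨z, M, hz, hf⟩ | ⟨z, M, hz, hf⟩ |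
    ⟨B1, M1, B2, M2, ht, hf1, hf2⟩
  · have hM : Mn (D.erase z) M := h.sub (Finset.erase_subset _ _) hz.is
    have hcM : (D.erase z).card < n := by
      have := Finset.card_erase_lt_of_mem hz.hz
      omega
    have hgM := ih _ _ hM hcM
    have hl := hz.lam_eq
    have l1 := hz.l
    have l2 := hz.b
    have l3 := hz.t
    have hMh : M.h = V.h := by unfold Rc.h; omega
    rcases hz.r with hr | hr
    · have hMw : M.w = V.w - 1 := by unfold Rc.w; omega
      have := hgM.a5 (by omega) (by omega) (by omega)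
      have e2 : V.x2 - M.x2 = 1 := by omega
      rw [e2] at hl
      omega
    · have hMw : M.w = V.w - 2 := by unfold Rc.w; omega
      have := hgM.a0 (by omega) (by omega)
      have e2 : V.x2 - M.x2 = 2 := by omega
      rw [e2] at hl
      omega
  · have l1 := hz.r
    have l2 := hz.t
    unfold FarQ at hf
    omega
  · have hgm : Good (Sy.fly.im D) (Sy.fly.g V) := ih _ _ (Sy.fly.Mn h) (by rw [Sy.card_im]; exact hn)
    have hnb := hgm.nbm ht
    have := hnb.n5.2.1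
    have l1 := ht.r2
    unfold FarQ at hf2
    omega

/-- case `al = 1`, `SgR`, `M` has width one -/
theorem h686_al1_col (ih : IH n) (h : Mn D V) (hn : D.card < n)
    (hb : V.y1 < b) (e : a - V.x2 = 1) (e0 : b - V.y2 ≤ 0) (hh : 3 - (b - V.y2) ≤ V.h)
    (hz : SgR D V z M) (hf : 2 ≤ b - z.2) (hMw : M.w = 1) (hVw : V.w = 3)
    (hs : ∀ E, E ⊂ D → ∀ Y, IS E Y → FarQ Y a b) :
    -4 * (b - V.y2) + 7 ≤ lam D V := by
  have l1 := hz.l
  have l2 := hz.b
  have l3 := hz.t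
  have l4 := hz.zz
  have x1 : M.x1 = M.x2 := by unfold Rc.w at hMw; omega
  have x2 : V.x2 = V.x1 + 2 := by unfold Rc.w at hVw; omega
  have zm := h.1.mem z hz.hz
  unfold Mem at zm
  have hnf : ∀ P : Rc, P.x2 = V.x2 → P.y2 = V.y2 → ¬ FarQ P a b := by
    intro P g1 g2 g3
    unfold FarQ at g3
    omega
  -- the conclusion from a proper full width rectangle
  have key : ∀ F Y, F ⊂ D → IS F Y → Y.x1 = V.x1 → Y.x2 = V.x2 →
      -4 * (b - V.y2) + 7 ≤ lam D V := by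
    intro F Y hF hY q1 q2
    obtain ⟨C, P, hC, hP, f1, f2, f3, f4, f5, f6⟩ := h686_full h hF hY q1 q2 hs hnf
    unfold FarQ at f4
    have hbe : b - V.y2 = 0 ∧ P.y2 + 2 = V.y2 := by omega
    have hPw : P.w = V.w := by unfold Rc.w; omega
    have hl := h686_lam (D := D) (C := C) hPw 2 (by unfold Rc.h; omega) f6
    rw [hVw] at hl
    have hPM := h.sub hC.1 hP
    have hwf := hP.wf
    have h0 : 0 ≤ lam C P := by
      by_cases hPh : P.h = 1
      · have := row_bound (Sy.swap.Mn hPM) (by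
          show P.y1 = P.y2
          unfold Rc.h at hPh; omega)
        rw [Sy.card_im] at this
        have e5 : (Sy.swap.g P).h = P.w := rfl
        rw [e5, hPw, hVw] at this
        unfold lam
        rw [hPh, hPw, hVw]
        omega
      · exact (ih C P hPM (by omega)).a0 (by omega) (by unfold Rc.h at *; omega)
    omega
  by_cases hrow : ∃ s ∈ D.erase z, s.2 = z.2
  · obtain ⟨s, hs1, hs2⟩ := hrow
    have sm := hz.is.mem s hs1
    unfold Mem at sm
    have hnear : Near (Rc.pt s) (Rc.pt z) := by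
      unfold Near Rc.pt
      simp only
      omega
    have hQ := IS.mg (IS.pt s) (IS.pt z) hnear
    have hsub : ({s} ∪ {z} : Finset (ℤ × ℤ)) ⊆ D := by
      intro x hx
      simp only [Finset.mem_union, Finset.mem_singleton] at hx
      rcases hx with rfl | rfl
      · exact Finset.mem_of_mem_erase hs1
      · exact hz.hz
    by_cases hD : ({s} ∪ {z} : Finset (ℤ × ℤ)) = D
    · exfalso
      rw [hD] at hQ
      have := hQ.uniq h.1
      have g1 : min s.2 z.2 = V.y1 := by rw [← this]; rfl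
      have g2 : max s.2 z.2 = V.y2 := by rw [← this]; rfl
      unfold Rc.h at hh
      omega
    · refine key _ _ (Finset.ssubset_iff_subset_ne.mpr ⟨hsub, hD⟩) hQ ?_ ?_
      · show min s.1 z.1 = V.x1
        omega
      · show max s.1 z.1 = V.x2
        omega
  · push Not at hrow
    obtain ⟨-, -, ⟨t, ht1, ht2⟩, -⟩ := hz.is.sides
    have z1 : V.y1 < z.2 := by
      have := hrow t ht1
      omega
    have z2 : z.2 < V.y2 := by omega
    obtain ⟨s, hs1, hs2⟩ : ∃ s ∈ D.erase z, s.2 = z.2 - 1 := by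
      rcases one_wide hz.is x1 (z.2 - 1) (by omega) (by omega) with ⟨s, hs1, hs2⟩ | ⟨s, hs1, hs2⟩
      · exact ⟨s, hs1, hs2⟩
      · exact absurd (by omega) (hrow s hs1)
    obtain ⟨s', hs1', hs2'⟩ : ∃ s ∈ D.erase z, s.2 = z.2 + 1 := by
      rcases one_wide hz.is x1 z.2 (by omega) (by omega) with ⟨s, hs1, hs2⟩ | ⟨s, hs1, hs2⟩
      · exact absurd hs2 (hrow s hs1)
      · exact ⟨s, hs1, hs2⟩
    have sm := hz.is.mem s hs1
    have sm' := hz.is.mem s' hs1'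
    unfold Mem at sm sm'
    have hnear : Near (Rc.pt s) (Rc.pt s') := by
      unfold Near Rc.pt
      simp only
      omega
    have hQ1 := IS.mg (IS.pt s) (IS.pt s') hnear
    have hnear2 : Near (box (Rc.pt s) (Rc.pt s')) (Rc.pt z) := by
      unfold Near box Rc.pt
      simp only
      omega
    have hQ := IS.mg hQ1 (IS.pt z) hnear2
    have hsub : (({s} ∪ {s'}) ∪ {z} : Finset (ℤ × ℤ)) ⊆ D := by
      intro x hx
      simp only [Finset.mem_union, Finset.mem_singleton] at hx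
      rcases hx with (rfl | rfl) | rfl
      · exact Finset.mem_of_mem_erase hs1
      · exact Finset.mem_of_mem_erase hs1'
      · exact hz.hz
    by_cases hD : (({s} ∪ {s'}) ∪ {z} : Finset (ℤ × ℤ)) = D
    · have hcard : D.card ≤ 3 := by
        rw [← hD]
        refine (Finset.card_union_le _ _).trans ?_
        have := Finset.card_union_le ({s} : Finset (ℤ × ℤ)) {s'}
        simp only [Finset.card_singleton] at *
        omega
      rw [hD] at hQ
      have := hQ.uniq h.1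
      have g1 : min (min s.2 s'.2) z.2 = V.y1 := by rw [← this]; rfl
      have g2 : max (max s.2 s'.2) z.2 = V.y2 := by rw [← this]; rfl
      have hVh : V.h = 3 := by unfold Rc.h; omega
      unfold lam
      rw [hVw, hVh]
      have : (D.card : ℤ) ≤ 3 := by exact_mod_cast hcard
      omega
    · refine key _ _ (Finset.ssubset_iff_subset_ne.mpr ⟨hsub, hD⟩) hQ ?_ ?_
      · show min (min s.1 s'.1) z.1 = V.x1
        omega
      · show max (max s.1 s'.1) z.1 = V.x2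
        omega

/-- case `al = 1` -/
theorem h686_al1 (ih : IH n) (h : Mn D V) (hn : D.card < n) (hc : 2 ≤ D.card)
    (hb : V.y1 < b) (e : a - V.x2 = 1) (e0 : b - V.y2 ≤ 0)
    (hs : ∀ E, E ⊂ D → ∀ Y, IS E Y → FarQ Y a b) :
    -4 * (b - V.y2) + 7 ≤ lam D V ∧ 3 ≤ V.w ∧ 2 ≤ V.h - 1 + (b - V.y2) := by
  obtain ⟨-, ⟨d, hd, hd1⟩, -, ⟨c, hc', hc1⟩⟩ := h.1.sides
  have m1 := h.1.mem d hd
  have m2 := h.1.mem c hc'
  have f1 := h686_pt hc hs hd
  have f2 := h686_pt hc hs hc'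
  unfold Mem at m1 m2
  have w3 : 3 ≤ V.w := by unfold Rc.w; omega
  have h2 : 2 ≤ V.h - 1 + (b - V.y2) := by unfold Rc.h; omega
  refine ⟨?_, w3, h2⟩
  rcases h686_tri h hc (by omega) (by omega) (by omega) hs with ⟨z, M, hz, hf⟩ | ⟨z, M, hz, hf⟩ |
    ⟨B1, M1, B2, M2, ht, hf1, hf2⟩
  · have hM : Mn (D.erase z) M := h.sub (Finset.erase_subset _ _) hz.is
    have hcM : (D.erase z).card < n := by
      have := Finset.card_erase_lt_of_mem hz.hz
      omega
    have hgM := ih _ _ hM hcM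
    have hl := hz.lam_eq
    have l1 := hz.l
    have l2 := hz.b
    have l3 := hz.t
    have l4 := hz.r
    have l5 := hz.zz
    have hMh : M.h = V.h := by unfold Rc.h; omega
    unfold FarQ at hf
    have e2 : V.x2 - M.x2 = 2 := by omega
    rw [e2] at hl
    have hMw : M.w = V.w - 2 := by unfold Rc.w; omega
    by_cases hw1 : M.w = 1
    · have f3 := h686_pt hc hs hz.hz
      exact h686_al1_col ih h hn hb e e0 (by omega) hz (by omega) hw1 (by omega) hs
    · have := hgM.a0 (by omega) (by omega)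
      omega
  · have hM : Mn (D.erase z) M := h.sub (Finset.erase_subset _ _) hz.is
    have hcM : (D.erase z).card < n := by
      have := Finset.card_erase_lt_of_mem hz.hz
      omega
    have hgM := ih _ _ hM hcM
    have hl := hz.lam_eq
    have l1 := hz.l
    have l2 := hz.b
    have l3 := hz.r
    have l4 := hz.t
    have hMw : M.w = V.w := by unfold Rc.w; omega
    unfold FarQ at hf
    have e2 : V.y2 - M.y2 = 2 := by omega
    have hbe : b - V.y2 = 0 := by omega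
    rw [e2] at hl
    have hwf := hM.1.wf
    by_cases hh1 : M.h = 1
    · have := lam_h1 hM hh1
      omega
    · have := hgM.a0 (by omega) (by unfold Rc.h at *; omega)
      omega
  · have hgm : Good (Sy.fly.im D) (Sy.fly.g V) := ih _ _ (Sy.fly.Mn h) (by rw [Sy.card_im]; exact hn)
    have hnb := hgm.nbm ht
    have l1 := ht.r2
    have l2 := ht.t1
    unfold FarQ at hf1 hf2
    have := (hnb.n3 (by omega) (by omega)).2
    omega

/-- case `al ≤ 0` -/
theorem h686_al0 (ih : IH n) (h : Mn D V) (hn : D.card < n) (hc : 2 ≤ D.card)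
    (e : a - V.x2 ≤ 0) (e0 : b - V.y2 ≤ 0)
    (hs : ∀ E, E ⊂ D → ∀ Y, IS E Y → FarQ Y a b) :
    2 * (3 - (a - V.x2)) * (3 - (b - V.y2)) - 1 ≤ lam D V ∧ 3 ≤ V.w - 1 + (a - V.x2) ∧
      3 ≤ V.h - 1 + (b - V.y2) := by
  obtain ⟨-, ⟨d, hd, hd1⟩, -, ⟨c, hc', hc1⟩⟩ := h.1.sides
  have m1 := h.1.mem d hd
  have m2 := h.1.mem c hc'
  have f1 := h686_pt hc hs hd
  have f2 := h686_pt hc hs hc'
  unfold Mem at m1 m2
  have w3 : 3 ≤ V.w - 1 + (a - V.x2) := by unfold Rc.w; omega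
  have h3 : 3 ≤ V.h - 1 + (b - V.y2) := by unfold Rc.h; omega
  refine ⟨?_, w3, h3⟩
  rcases h686_tri h hc (by omega) (by omega) (by omega) hs with ⟨z, M, hz, hf⟩ | ⟨z, M, hz, hf⟩ |
    ⟨B1, M1, B2, M2, ht, hf1, hf2⟩
  · exfalso
    have l1 := hz.t
    have l2 := hz.r
    unfold FarQ at hf
    omega
  · exfalso
    have l1 := hz.t
    have l2 := hz.r
    unfold FarQ at hf
    omega
  · have hgm : Good (Sy.fly.im D) (Sy.fly.g V) := ih _ _ (Sy.fly.Mn h) (by rw [Sy.card_im]; exact hn)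
    have hnb := hgm.nbm ht
    have l1 := ht.r2
    have l2 := ht.t1
    unfold FarQ at hf1 hf2
    have x3 : 3 - (a - V.x2) ≤ V.x2 - M1.x2 := by omega
    have y3 : 3 - (b - V.y2) ≤ V.y2 - M2.y2 := by omega
    have k1 : 3 ≤ 3 - (a - V.x2) := by omega
    have k2 : 3 ≤ 3 - (b - V.y2) := by omega
    have k3 := hnb.n4 (by omega) (by omega)
    have k4 : (3 - (a - V.x2)) * (3 - (b - V.y2)) ≤ (V.x2 - M1.x2) * (V.y2 - M2.y2) :=
      mul_le_mul x3 y3 (by omega) (by omega)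
    nlinarith [k3, k4]

/-- FIRST HALF of the strict bounds: `V` is spanned by `D`, `|D| ≥ 2`, `V` is near the quadrant with corner
`(a, b)`, and every rectangle spanned by a proper subset of `D` is far from it. Write
`al = a - V.x2`, `be = b - V.y2`, `L = lam D V`, `w = V.w`, `h = V.h`.

Preliminaries. `D` has a site `c` in the top row; it is proper (`|D| ≥ 2`), so `FarQ (Rc.pt c) a b`; if
`w = 1` it is in the right column and it would be near. So `w ≥ 2`, similarly `h ≥ 2`. `Good D V` holds (`ih`),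
`0 ≤ L` by `a0`. By `Mn.structure`: `Single` or `TB` or `TBm`. `SgL z M`, `SgB z M` are impossible:
`M` (spanned by `D.erase z ⊂ D`) has the same top right corner as `V`, so it is near. `TB` is impossible,
the same for `M2`. So: `SgR z M` (`M` touches the top side), `SgT z M` (`M` touches the right side), or
`TBm` (`M1` touches the top side, `M2` touches the right side). For `TBm` the bounds are `Good.nbm`
(applied to `ih _ _ (Sy.fly.Mn h)`) for the blocks `x = V.x2 - M1.x2`, `y = V.y2 - M2.y2`.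

CASE `al = 2` (so `be ≤ 0`), claim `-2 be ≤ L` and (`w = 2`, `be ≤ -1` imply `5 ≤ L`).
`h ≥ 2 - be` because `V.y1 < b`. A proper `Y` with `Y.x2 = V.x2` has `Y.y2 ≤ b - 1`.
* `w = 2`: `core2` gives sites `u, v` in the two columns, `|dy| ≤ 1`, spanning `Q` (`IS_pair`). If `{u, v} = D`
then `V = Q` has height at most `2`, so `be = 0`, fine. Else `Q` is proper, take a maximal `P ⊇ Q`
(`Mn.exists_mxp`), it has full width, `Mxp.full_width`: either `P.y2 = V.y2`, impossible (near), or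
`V.y2 - P.y2 ∈ {1, 2}` and `P.y2 ≤ b - 1`, so `be ≥ -1`. For `be = 0` fine. For `be = -1`:
`V.y2 - P.y2 = 2`, `L = lam C P + 2 * 2 * (2 + 3) - 15 = lam C P + 5 ≥ 5` by `lam_w2`.
* `w = 3`: `lam_w3` gives `L ≥ 2 h - 4 ≥ -2 be`.
* `h = 2`: `be = 0`. `h = 3`: `be ≥ -1`, `lam_h3`: `L ≥ 2 w - 4 ≥ 2` (`w ≥ 3`).
* `w, h ≥ 4`: `L ≥ 5` (`a5`). `SgR`, two columns: `L = lam M + 4 h - 3 ≥ 5 - 4 be` (`SgR.lam_eq`, `a0` for `M`).
`SgR`, one column: `a5` for `M` gives `5`, `L = lam M + 2 h - 9 ≥ 2 h - 4 ≥ -2 be`. `SgT`: `M.y2 ≤ b - 1`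
and `M.y2 ≥ V.y2 - 2` give `be ≥ -1`, `L ≥ 5`. `TBm`: `M2.y2 ≤ b - 1`, `y ≥ 1 - be`, `n5`: `2 y ≤ L`.

CASE `al = 1`, `be ≤ 0`, claim `-4 be + 7 ≤ L`, `3 ≤ w`, `2 ≤ h - 1 + be = b - V.y1`.
A proper `Y` with `Y.x2 = V.x2` has `Y.y2 ≤ b - 2`; a proper `Y` with `Y.y2 = V.y2` has
`Y.x2 ≤ V.x2 - 2`. Applied to single sites of the right column and of the top row: `b - V.y1 ≥ 2`,
`w ≥ 3`. So `h ≥ 3 - be ≥ 3`.
* `SgR z M`: `M` touches the top, so two columns, `L = lam M + 4 h - 3`. If `M.w ≥ 2`: `a0` for `M`,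
`L ≥ 4 h - 3 ≥ 9 - 4 be`. If `M.w = 1`: `w = 3`, `M` is the left column, `z` is in the right column with
`z.2 ≤ b - 2 < V.y2`. Claim: there is a full width rectangle `Q` spanned by a subset `F` of `D` consisting of `z`
and one or two sites of the column: if row `z.2` has a site `s` of the column, `{s, z}` (distance two);
otherwise `one_wide` gives sites `s, s'` of the column in rows `z.2 - 1`, `z.2 + 1` (`z.2` is strictly
between `M.y1` and `M.y2`), `{s, s'}` spans a `1 × 3` rectangle near `z`, and `{s, s', z}` spans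
a `3 × 3` rectangle. If `F = D`: the first is impossible (the top row site of `D` is neither `z` nor in row
`z.2`), in the second case `V` is `3 × 3` with three sites: `be = 0` (`h ≥ 3 - be`), `L = 17 ≥ 7`. If `F ≠ D`:
maximal `P ⊇ Q`, full width, `Mxp.full_width`, `P.y2 = V.y2` is impossible, so `P.y2 ≥ V.y2 - 2`,
`P.y2 ≤ b - 2` gives `be = 0` and `P.y2 = V.y2 - 2`, `L = lam C P + 4 (3 + 3) - 15 = lam C P + 9`, and
`lam C P ≥ 0` (`a0` from `ih` if `P.h ≥ 2`; `lam_h1` and integrality, or directly `t3_bound`-like `|C| ≤ 2`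
from `row_bound` after `Sy.swap`, if `P.h = 1`: `3 |C| ≤ 8`, `lam = 38 - 15 * 2 = 8`); so `L ≥ 9 ≥ 7`.
* `SgT z M`: `M.y2 ≤ b - 2` gives `be = 0` and two rows, `L = lam M + 4 w - 3`. If `M.h ≥ 2`: `L ≥ 9`. If
`M.h = 1`: `lam_h1`: `lam M ≥ 4 - 2 w`, `L ≥ 2 w + 1 ≥ 7`.
* `TBm`: `x ≥ 2` (`M1` touches the top), `y ≥ 2 - be ≥ 2` (`M2.y2 ≤ b - 2`), `n3`: `4 y - 1 ≤ L`.

CASE `al ≤ 0`, `be ≤ 0`, claim `2 (3 - al) (3 - be) - 1 ≤ L`, `3 ≤ w - 1 + al = a - V.x1`,
`3 ≤ h - 1 + be = b - V.y1`. A proper `Y` with `Y.x2 = V.x2` has `Y.y2 ≤ b - 3`; a proper `Y` with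
`Y.y2 = V.y2` has `Y.x2 ≤ a - 3`. Apply to single sites for the last two claims. `SgR` is impossible (`M`
touches the top, so `V.x2 - 2 ≤ M.x2 ≤ a - 3 ≤ V.x2 - 3`), `SgT` similarly. `TBm`: `x ≥ 3 - al`, `y ≥ 3 - be`,
`n4` and monotonicity of the product (`nlinarith`). -/
theorem kstr_half (ih : IH n) (h : Mn D V) (hn : D.card < n) (hc : 2 ≤ D.card) (ha : V.x1 < a)
    (hb : V.y1 < b) (na : a - V.x2 ≤ 2) (nb : b - V.y2 ≤ 2) (nab : (a - V.x2) + (b - V.y2) ≤ 2)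
    (hs : ∀ E, E ⊂ D → ∀ Y, IS E Y → FarQ Y a b) :
    2 ≤ V.w ∧ 2 ≤ V.h ∧ 0 ≤ lam D V ∧
    (a - V.x2 = 2 → -2 * (b - V.y2) ≤ lam D V ∧
      (V.w = 2 → b - V.y2 ≤ -1 → 5 ≤ lam D V)) ∧
    (a - V.x2 = 1 → b - V.y2 ≤ 0 → -4 * (b - V.y2) + 7 ≤ lam D V ∧ 3 ≤ V.w ∧
      2 ≤ V.h - 1 + (b - V.y2)) ∧
    (a - V.x2 ≤ 0 → b - V.y2 ≤ 0 →
      2 * (3 - (a - V.x2)) * (3 - (b - V.y2)) - 1 ≤ lam D V ∧ 3 ≤ V.w - 1 + (a - V.x2) ∧
      3 ≤ V.h - 1 + (b - V.y2)) := by
  obtain ⟨w2, h2⟩ := h686_dim h hc na nb nab hs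
  have hg := ih D V h hn
  have h0 := hg.a0 w2 h2
  refine ⟨w2, h2, h0, ?_, ?_, ?_⟩
  · intro e
    exact h686_al2 ih h hn hc hb e nb nab hs
  · intro e e0
    exact h686_al1 ih h hn hc hb e e0 hs
  · intro e e0
    exact h686_al0 ih h hn hc e e0 hs

/-- Strict bounds: `kstr_half` for `V` and for its image under `Sy.swap`. -/
theorem kstr (ih : IH n) (h : Mn D V) (hn : D.card < n) (hc : 2 ≤ D.card) (ha : V.x1 < a)
    (hb : V.y1 < b) (na : a - V.x2 ≤ 2) (nb : b - V.y2 ≤ 2) (nab : (a - V.x2) + (b - V.y2) ≤ 2)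
    (hs : ∀ E, E ⊂ D → ∀ Y, IS E Y → FarQ Y a b) :
    2 ≤ V.w ∧ 2 ≤ V.h ∧ KStr (lam D V) V.w V.h (a - V.x2) (b - V.y2) := by
  obtain ⟨w2, h2, h0, k1, k2, k3⟩ := kstr_half ih h hn hc ha hb na nb nab hs
  have hs' : ∀ E, E ⊂ Sy.swap.im D → ∀ Y, IS E Y → FarQ Y b a := by
    intro E hE Y hY
    have q1 := Sy.swap.im_ssub hE
    rw [Sy.im_im] at q1
    have q2 := hs _ q1 _ (Sy.swap.IS hY)
    have q3 : (Sy.swap.g Y).x2 = Y.y2 := rfl
    have q4 : (Sy.swap.g Y).y2 = Y.x2 := rfl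
    unfold FarQ at q2 ⊢
    rw [q3, q4] at q2
    omega
  have q5 : (Sy.swap.g V).x2 = V.y2 := rfl
  have q6 : (Sy.swap.g V).y2 = V.x2 := rfl
  have q7 : (Sy.swap.g V).w = V.h := rfl
  have q8 : (Sy.swap.g V).h = V.w := rfl
  have nab' : b - V.y2 + (a - V.x2) ≤ 2 := by omega
  obtain ⟨-, -, -, j1, j2, j3⟩ := kstr_half (a := b) (b := a) ih (Sy.swap.Mn h)
    (by rw [Sy.card_im]; exact hn) (by rw [Sy.card_im]; exact hc) hb ha nb na nab' hs'
  rw [lam_swap, q5, q6, q8] at j2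
  rw [lam_swap, q5, q6, q7] at j1
  refine ⟨w2, h2, ⟨k1, j1, k2, j2, k3, h0⟩⟩

end Pool.Agent.H109
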