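import Pool.Agent.H109.Base
import Pool.Graph.R_pool_sql_team_seeded_3997aac3.Results.MP_849d81_co.TwoFifteenths

/-!
Link between minimal percolating sets of the `m × n` grid and minimal spanning sets `Mn A R`.
-/

set_option autoImplicit false

namespace Pool.Agent.H109

open Rc

/-- Two sites of the `m × n` grid are adjacent when they differ by `1` in exactly one coordinate. -/
def GAdj {m n : ℕ} (u v : Fin m × Fin n) : Prop :=
  (u.1 = v.1 ∧ (u.2.val + 1 = v.2.val ∨ v.2.val + 1 = u.2.val)) ∨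
  (u.2 = v.2 ∧ (u.1.val + 1 = v.1.val ∨ v.1.val + 1 = u.1.val))

/-- One step: the infected sites stay infected, and a site with at least two infected neighbours
becomes infected. -/
def gstep {m n : ℕ} (A : Set (Fin m × Fin n)) : Set (Fin m × Fin n) :=
  {v | v ∈ A ∨ ∃ u w, u ≠ w ∧ GAdj u v ∧ GAdj w v ∧ u ∈ A ∧ w ∈ A}

/-- Every site is eventually infected. -/
def GPercolates {m n : ℕ} (A : Set (Fin m × Fin n)) : Prop := ∀ v, ∃ t : ℕ, v ∈ gstep^[t] A

/-- `A` percolates and no proper subset of `A` percolates. -/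
def GMinimal {m n : ℕ} (A : Finset (Fin m × Fin n)) : Prop :=
  GPercolates (A : Set (Fin m × Fin n)) ∧
    ∀ B : Finset (Fin m × Fin n), B ⊂ A → ¬ GPercolates (B : Set (Fin m × Fin n))

/-- `GE m n`: the largest cardinality of a minimal percolating set of the `m × n` grid. -/
noncomputable def GE (m n : ℕ) : ℕ :=
  sSup {k : ℕ | ∃ A : Finset (Fin m × Fin n), GMinimal A ∧ A.card = k}

/-- The embedding of the grid. -/
def emb {m n : ℕ} (v : Fin m × Fin n) : ℤ × ℤ := (((v.1 : ℕ) : ℤ), ((v.2 : ℕ) : ℤ))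

/-! ### Filling of rectangles -/

/-- all sites of the rectangle are in `S` -/
def h696In (P : Rc) (S : Set (ℤ × ℤ)) : Prop := ∀ c, Mem c P → c ∈ S

section fill

variable {S : Set (ℤ × ℤ)} {P Q : Rc}

open Pool.Agent.Q131.Perc (Closed Adj row_above row_below col_right col_left)

theorem h696_right (hS : Closed S) (hP : h696In P S) (hw : P.x1 ≤ P.x2) (r X : ℤ) (h1 : P.y1 ≤ r)
    (h2 : r ≤ P.y2) (hX : ∀ t, P.x2 < t → t ≤ X → (t, r) ∈ S) :
    h696In ⟨P.x1, max P.x2 X, P.y1, P.y2⟩ S := by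
  have key : ∀ k : ℕ, P.x2 + k ≤ max P.x2 X → ∀ t, P.y1 ≤ t → t ≤ P.y2 → (P.x2 + k, t) ∈ S := by
    intro k
    induction k with
    | zero =>
      intro _ t ht1 ht2
      apply hP
      unfold Mem
      simp only
      omega
    | succ k ih =>
      intro hk
      have h3 := row_above hS h1 h2 (x := P.x2 + k) (ih (by push_cast at hk; omega))
        (hX _ (by omega) (by push_cast at hk; omega))
      intro t ht1 ht2
      have h4 := h3 t ht1 ht2
      have e : P.x2 + ((k + 1 : ℕ) : ℤ) = P.x2 + k + 1 := by push_cast; ring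
      rw [e]
      exact h4
  rintro ⟨c1, c2⟩ hc
  unfold Mem at hc
  simp only at hc
  by_cases h : c1 ≤ P.x2
  · exact hP _ (by unfold Mem; simp only; omega)
  · have h5 := key (c1 - P.x2).toNat (by omega) c2 hc.2.2.1 hc.2.2.2
    have e : P.x2 + ((c1 - P.x2).toNat : ℤ) = c1 := by omega
    rw [e] at h5
    exact h5

theorem h696_left (hS : Closed S) (hP : h696In P S) (hw : P.x1 ≤ P.x2) (r X : ℤ) (h1 : P.y1 ≤ r)
    (h2 : r ≤ P.y2) (hX : ∀ t, t < P.x1 → X ≤ t → (t, r) ∈ S) :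
    h696In ⟨min P.x1 X, P.x2, P.y1, P.y2⟩ S := by
  have key : ∀ k : ℕ, min P.x1 X ≤ P.x1 - k → ∀ t, P.y1 ≤ t → t ≤ P.y2 → (P.x1 - k, t) ∈ S := by
    intro k
    induction k with
    | zero =>
      intro _ t ht1 ht2
      apply hP
      unfold Mem
      simp only
      omega
    | succ k ih =>
      intro hk
      have h3 := row_below hS h1 h2 (x := P.x1 - k) (ih (by push_cast at hk; omega))
        (hX _ (by omega) (by push_cast at hk; omega))
      intro t ht1 ht2
      have h4 := h3 t ht1 ht2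
      have e : P.x1 - ((k + 1 : ℕ) : ℤ) = P.x1 - k - 1 := by push_cast; ring
      rw [e]
      exact h4
  rintro ⟨c1, c2⟩ hc
  unfold Mem at hc
  simp only at hc
  by_cases h : P.x1 ≤ c1
  · exact hP _ (by unfold Mem; simp only; omega)
  · have h5 := key (P.x1 - c1).toNat (by omega) c2 hc.2.2.1 hc.2.2.2
    have e : P.x1 - ((P.x1 - c1).toNat : ℤ) = c1 := by omega
    rw [e] at h5
    exact h5

theorem h696_up (hS : Closed S) (hP : h696In P S) (hw : P.y1 ≤ P.y2) (r Y : ℤ) (h1 : P.x1 ≤ r)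
    (h2 : r ≤ P.x2) (hY : ∀ t, P.y2 < t → t ≤ Y → (r, t) ∈ S) :
    h696In ⟨P.x1, P.x2, P.y1, max P.y2 Y⟩ S := by
  have key : ∀ k : ℕ, P.y2 + k ≤ max P.y2 Y → ∀ t, P.x1 ≤ t → t ≤ P.x2 → (t, P.y2 + k) ∈ S := by
    intro k
    induction k with
    | zero =>
      intro _ t ht1 ht2
      apply hP
      unfold Mem
      simp only
      omega
    | succ k ih =>
      intro hk
      have h3 := col_right hS h1 h2 (x := P.y2 + k) (ih (by push_cast at hk; omega))
        (hY _ (by omega) (by push_cast at hk; omega))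
      intro t ht1 ht2
      have h4 := h3 t ht1 ht2
      have e : P.y2 + ((k + 1 : ℕ) : ℤ) = P.y2 + k + 1 := by push_cast; ring
      rw [e]
      exact h4
  rintro ⟨c1, c2⟩ hc
  unfold Mem at hc
  simp only at hc
  by_cases h : c2 ≤ P.y2
  · exact hP _ (by unfold Mem; simp only; omega)
  · have h5 := key (c2 - P.y2).toNat (by omega) c1 hc.1 hc.2.1
    have e : P.y2 + ((c2 - P.y2).toNat : ℤ) = c2 := by omega
    rw [e] at h5
    exact h5

theorem h696_down (hS : Closed S) (hP : h696In P S) (hw : P.y1 ≤ P.y2) (r Y : ℤ) (h1 : P.x1 ≤ r)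
    (h2 : r ≤ P.x2) (hY : ∀ t, t < P.y1 → Y ≤ t → (r, t) ∈ S) :
    h696In ⟨P.x1, P.x2, min P.y1 Y, P.y2⟩ S := by
  have key : ∀ k : ℕ, min P.y1 Y ≤ P.y1 - k → ∀ t, P.x1 ≤ t → t ≤ P.x2 → (t, P.y1 - k) ∈ S := by
    intro k
    induction k with
    | zero =>
      intro _ t ht1 ht2
      apply hP
      unfold Mem
      simp only
      omega
    | succ k ih =>
      intro hk
      have h3 := col_left hS h1 h2 (x := P.y1 - k) (ih (by push_cast at hk; omega))
        (hY _ (by omega) (by push_cast at hk; omega))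
      intro t ht1 ht2
      have h4 := h3 t ht1 ht2
      have e : P.y1 - ((k + 1 : ℕ) : ℤ) = P.y1 - k - 1 := by push_cast; ring
      rw [e]
      exact h4
  rintro ⟨c1, c2⟩ hc
  unfold Mem at hc
  simp only at hc
  by_cases h : P.y1 ≤ c2
  · exact hP _ (by unfold Mem; simp only; omega)
  · have h5 := key (P.y1 - c2).toNat (by omega) c1 hc.1 hc.2.1
    have e : P.y1 - ((P.y1 - c2).toNat : ℤ) = c2 := by omega
    rw [e] at h5
    exact h5

/-- two rectangles with a common site -/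
theorem h696_inter (hS : Closed S) (hP : h696In P S) (hQ : h696In Q S) (e : ℤ × ℤ) (h1 : Mem e P)
    (h2 : Mem e Q) : h696In (box P Q) S := by
  obtain ⟨a, b⟩ := e
  unfold Mem at h1 h2
  simp only at h1 h2
  have s1 := h696_right hS hP (by omega) b Q.x2 (by omega) (by omega) (fun t _ _ => hQ _ (by
    unfold Mem; simp only; omega))
  have s2 := h696_left hS s1 (by simp only; omega) b Q.x1 (by simp only; omega)
    (by simp only; omega) (fun t ht _ => hQ _ (by unfold Mem; simp only at ht ⊢; omega))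
  have s3 := h696_up hS s2 (by simp only; omega) a Q.y2 (by simp only; omega)
    (by simp only; omega) (fun t ht _ => hQ _ (by unfold Mem; simp only at ht ⊢; omega))
  have s4 := h696_down hS s3 (by simp only; omega) a Q.y1 (by simp only; omega)
    (by simp only; omega) (fun t ht _ => hQ _ (by unfold Mem; simp only at ht ⊢; omega))
  exact s4

theorem h696_via (hS : Closed S) {P' : Rc} (hP' : h696In P' S) (hQ : h696In Q S) (e : ℤ × ℤ)
    (h1 : Mem e P') (h2 : Mem e Q) (h3 : Sub P P') : h696In (box P Q) S := by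
  intro c hc
  apply h696_inter hS hP' hQ e h1 h2
  unfold Mem box at *
  unfold Sub at h3
  simp only at *
  omega

/-- the case that `Q` is to the right of `P` or above and not to the left -/
theorem h696_merge1 (hS : Closed S) (hP : h696In P S) (hQ : h696In Q S) (p1 : P.x1 ≤ P.x2)
    (p2 : P.y1 ≤ P.y2) (q1 : Q.x1 ≤ Q.x2) (q2 : Q.y1 ≤ Q.y2) (hn : Near P Q)
    (hpos : P.x2 < Q.x1 ∨ (P.x1 ≤ Q.x2 ∧ P.y1 ≤ Q.y2)) : h696In (box P Q) S := by
  unfold Near at hn
  by_cases hx : P.x2 < Q.x1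
  · by_cases hy : P.y2 < Q.y1
    · -- corner
      have c1 : (P.x2 + 1, P.y2) ∈ S := by
        refine hS (P.x2, P.y2) _ (P.x2 + 1, P.y2 + 1) (Or.inr ⟨rfl, Or.inl rfl⟩)
          (Or.inl ⟨rfl, Or.inr rfl⟩) (fun h => ?_) (hP _ ?_) (hQ _ ?_)
        · rw [Prod.mk.injEq] at h; omega
        · unfold Mem; simp only; omega
        · unfold Mem; simp only; omega
      have s1 := h696_right hS hP p1 P.y2 (P.x2 + 1) p2 le_rfl (fun t h1 h2 => by
        have : t = P.x2 + 1 := by omega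
        rw [this]
        exact c1)
      have s2 := h696_up hS s1 p2 (P.x2 + 1) (P.y2 + 1) (by simp only; omega)
        (by simp only; omega) (fun t h1 h2 => hQ _ (by unfold Mem; simp only at h1 ⊢; omega))
      refine h696_via hS s2 hQ (P.x2 + 1, P.y2 + 1) ?_ ?_ ?_
      · unfold Mem; simp only; omega
      · unfold Mem; simp only; omega
      · unfold Sub; simp only; omega
    · by_cases hy' : Q.y2 < P.y1
      · have c1 : (P.x2 + 1, P.y1) ∈ S := by
          refine hS (P.x2, P.y1) _ (P.x2 + 1, P.y1 - 1) (Or.inr ⟨rfl, Or.inl rfl⟩)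
            (Or.inl ⟨rfl, Or.inl (by simp)⟩) (fun h => ?_) (hP _ ?_) (hQ _ ?_)
          · rw [Prod.mk.injEq] at h; omega
          · unfold Mem; simp only; omega
          · unfold Mem; simp only; omega
        have s1 := h696_right hS hP p1 P.y1 (P.x2 + 1) le_rfl p2 (fun t h1 h2 => by
          have : t = P.x2 + 1 := by omega
          rw [this]
          exact c1)
        have s2 := h696_down hS s1 p2 (P.x2 + 1) (P.y1 - 1) (by simp only; omega)
          (by simp only; omega) (fun t h1 h2 => hQ _ (by unfold Mem; simp only at h1 ⊢; omega))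
        refine h696_via hS s2 hQ (P.x2 + 1, P.y1 - 1) ?_ ?_ ?_
        · unfold Mem; simp only; omega
        · unfold Mem; simp only; omega
        · unfold Sub; simp only; omega
      · -- common row
        obtain ⟨r, r1, r2, r3, r4⟩ : ∃ r, P.y1 ≤ r ∧ r ≤ P.y2 ∧ Q.y1 ≤ r ∧ r ≤ Q.y2 :=
          ⟨max P.y1 Q.y1, by omega, by omega, by omega, by omega⟩
        have s1 := h696_right hS hP p1 r Q.x1 r1 r2 (fun t h1 h2 => by
          rcases eq_or_lt_of_le h2 with h3 | h3
          · rw [h3]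
            exact hQ _ (by unfold Mem; simp only; omega)
          · refine hS (P.x2, r) _ (Q.x1, r) (Or.inr ⟨rfl, Or.inl ?_⟩) (Or.inr ⟨rfl, Or.inr ?_⟩)
              (fun h => ?_) (hP _ ?_) (hQ _ ?_)
            · simp only; omega
            · simp only; omega
            · rw [Prod.mk.injEq] at h; omega
            · unfold Mem; simp only; omega
            · unfold Mem; simp only; omega)
        refine h696_via hS s1 hQ (Q.x1, r) ?_ ?_ ?_
        · unfold Mem; simp only; omega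
        · unfold Mem; simp only; omega
        · unfold Sub; simp only; omega
  · -- common column
    have hpos' : P.x1 ≤ Q.x2 ∧ P.y1 ≤ Q.y2 := by
      rcases hpos with h | h
      · exact absurd h hx
      · exact h
    obtain ⟨r, r1, r2, r3, r4⟩ : ∃ r, P.x1 ≤ r ∧ r ≤ P.x2 ∧ Q.x1 ≤ r ∧ r ≤ Q.x2 :=
      ⟨max P.x1 Q.x1, by omega, by omega, by omega, by omega⟩
    by_cases hy : P.y2 < Q.y1
    · have s1 := h696_up hS hP p2 r Q.y1 r1 r2 (fun t h1 h2 => by
        rcases eq_or_lt_of_le h2 with h3 | h3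
        · rw [h3]
          exact hQ _ (by unfold Mem; simp only; omega)
        · refine hS (r, P.y2) _ (r, Q.y1) (Or.inl ⟨rfl, Or.inl ?_⟩) (Or.inl ⟨rfl, Or.inr ?_⟩)
            (fun h => ?_) (hP _ ?_) (hQ _ ?_)
          · simp only; omega
          · simp only; omega
          · rw [Prod.mk.injEq] at h; omega
          · unfold Mem; simp only; omega
          · unfold Mem; simp only; omega)
      refine h696_via hS s1 hQ (r, Q.y1) ?_ ?_ ?_
      · unfold Mem; simp only; omega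
      · unfold Mem; simp only; omega
      · unfold Sub; simp only; omega
    · refine h696_inter hS hP hQ (r, max P.y1 Q.y1) ?_ ?_
      · unfold Mem; simp only; omega
      · unfold Mem; simp only; omega

theorem h696_merge (hS : Closed S) (hP : h696In P S) (hQ : h696In Q S) (p1 : P.x1 ≤ P.x2)
    (p2 : P.y1 ≤ P.y2) (q1 : Q.x1 ≤ Q.x2) (q2 : Q.y1 ≤ Q.y2) (hn : Near P Q) :
    h696In (box P Q) S := by
  by_cases h : P.x2 < Q.x1 ∨ (P.x1 ≤ Q.x2 ∧ P.y1 ≤ Q.y2)
  · exact h696_merge1 hS hP hQ p1 p2 q1 q2 hn h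
  · rw [box_comm]
    exact h696_merge1 hS hQ hP q1 q2 p1 p2 (near_symm hn) (by omega)

end fill

/-- SOUNDNESS. -/
theorem IS.fill {S : Set (ℤ × ℤ)} (hS : Pool.Agent.Q131.Perc.Closed S) {A : Finset (ℤ × ℤ)} {P : Rc}
    (h : IS A P) (hA : ∀ c ∈ A, c ∈ S) : ∀ c, Mem c P → c ∈ S := by
  induction h with
  | pt c =>
    intro d hd
    have : d = c := by
      unfold Mem Rc.pt at hd
      simp only at hd
      exact Prod.ext (by omega) (by omega)
    rw [this]
    exact hA c (by simp)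
  | @mg A B P Q hP hQ hn ih1 ih2 =>
    exact h696_merge hS (ih1 fun c hc => hA c (Finset.mem_union_left _ hc))
      (ih2 fun c hc => hA c (Finset.mem_union_right _ hc)) hP.wf.1 hP.wf.2 hQ.wf.1 hQ.wf.2 hn

theorem h696_row (x y : ℤ) (k : ℕ) : ∃ G, IS G ⟨x, x + k, y, y⟩ ∧
    ∀ c, c ∈ G ↔ Mem c ⟨x, x + k, y, y⟩ := by
  induction k with
  | zero =>
    refine ⟨{(x, y)}, ?_, ?_⟩
    · have := IS.pt (x, y)
      have e : (⟨x, x + ((0 : ℕ) : ℤ), y, y⟩ : Rc) = Rc.pt (x, y) := by simp [Rc.pt]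
      rw [e]
      exact this
    · rintro ⟨a, b⟩
      simp only [Finset.mem_singleton, Prod.mk.injEq, Mem]
      omega
  | succ k ih =>
    obtain ⟨G, h1, h2⟩ := ih
    have h3 := IS.mg h1 (IS.pt (x + k + 1, y)) (by unfold Near Rc.pt; simp only; omega)
    have e : box ⟨x, x + (k : ℤ), y, y⟩ (Rc.pt (x + k + 1, y)) =
        ⟨x, x + ((k + 1 : ℕ) : ℤ), y, y⟩ := by
      unfold box Rc.pt
      apply rc_eq <;> (push_cast; omega)
    rw [e] at h3
    refine ⟨_, h3, ?_⟩
    rintro ⟨a, b⟩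
    rw [Finset.mem_union, h2, Finset.mem_singleton, Prod.mk.injEq]
    unfold Mem
    push_cast
    omega

/-- The full rectangle spans itself. Induction on the size, adding sites one by one or line by line. -/
theorem IS.full (P : Rc) (h1 : P.x1 ≤ P.x2) (h2 : P.y1 ≤ P.y2) :
    ∃ G, IS G P ∧ ∀ c, c ∈ G ↔ Mem c P := by
  have key : ∀ k : ℕ, ∃ G, IS G ⟨P.x1, P.x2, P.y1, P.y1 + k⟩ ∧
      ∀ c, c ∈ G ↔ Mem c ⟨P.x1, P.x2, P.y1, P.y1 + k⟩ := by
    have ex : P.x1 + ((P.x2 - P.x1).toNat : ℤ) = P.x2 := by omega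
    intro k
    induction k with
    | zero =>
      obtain ⟨G, h3, h4⟩ := h696_row P.x1 P.y1 (P.x2 - P.x1).toNat
      rw [ex] at h3 h4
      refine ⟨G, ?_, ?_⟩
      · have e : P.y1 + ((0 : ℕ) : ℤ) = P.y1 := by simp
        rw [e]
        exact h3
      · have e : P.y1 + ((0 : ℕ) : ℤ) = P.y1 := by simp
        rw [e]
        exact h4
    | succ k ih =>
      obtain ⟨G, h3, h4⟩ := ih
      obtain ⟨G', h5, h6⟩ := h696_row P.x1 (P.y1 + k + 1) (P.x2 - P.x1).toNat
      rw [ex] at h5 h6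
      have h7 := IS.mg h3 h5 (by unfold Near; simp only; omega)
      have e : box ⟨P.x1, P.x2, P.y1, P.y1 + (k : ℤ)⟩ ⟨P.x1, P.x2, P.y1 + k + 1, P.y1 + k + 1⟩ =
          ⟨P.x1, P.x2, P.y1, P.y1 + ((k + 1 : ℕ) : ℤ)⟩ := by
        unfold box
        apply rc_eq <;> (push_cast; omega)
      rw [e] at h7
      refine ⟨_, h7, ?_⟩
      rintro ⟨a, b⟩
      rw [Finset.mem_union, h4, h6]
      unfold Mem
      push_cast
      omega
  have e : (⟨P.x1, P.x2, P.y1, P.y1 + ((P.y2 - P.y1).toNat : ℤ)⟩ : Rc) = P := by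
    apply rc_eq <;> simp only <;> omega
  have := key (P.y2 - P.y1).toNat
  rw [e] at this
  exact this

section link

open Pool.Agent.Q131.Perc (Closed Adj)

theorem h696_emb_inj {m n : ℕ} : Function.Injective (emb : Fin m × Fin n → ℤ × ℤ) := by
  rintro ⟨a, b⟩ ⟨c, d⟩ h
  simp only [emb, Prod.mk.injEq] at h
  refine Prod.ext (Fin.ext ?_) (Fin.ext ?_) <;> simp only <;> omega

theorem h696_emb_mem {m n : ℕ} (v : Fin m × Fin n) :
    Mem (emb v) ⟨0, (m : ℤ) - 1, 0, (n : ℤ) - 1⟩ := by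
  have h1 := v.1.2
  have h2 := v.2.2
  unfold Mem emb
  simp only
  omega

theorem h696_emb_surj {m n : ℕ} (c : ℤ × ℤ) (h : Mem c ⟨0, (m : ℤ) - 1, 0, (n : ℤ) - 1⟩) :
    ∃ v : Fin m × Fin n, emb v = c := by
  obtain ⟨a, b⟩ := c
  unfold Mem at h
  simp only at h
  refine ⟨(⟨a.toNat, by omega⟩, ⟨b.toNat, by omega⟩), ?_⟩
  simp only [emb, Prod.mk.injEq]
  omega

theorem h696_adj {m n : ℕ} (u v : Fin m × Fin n) : GAdj u v ↔ Adj (emb u) (emb v) := by
  obtain ⟨a, b⟩ := u
  obtain ⟨c, d⟩ := v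
  simp only [GAdj, Adj, emb, Fin.ext_iff]
  omega

theorem h696_closed_mem {P : Rc} : Closed {c | Mem c P} := by
  rintro ⟨u1, u2⟩ ⟨v1, v2⟩ ⟨w1, w2⟩ h1 h2 hne hu hw
  simp only [Adj, ne_eq, Prod.mk.injEq, Mem, Set.mem_ofPred_eq] at *
  omega

/-- the union of the maximal spanned rectangles is closed -/
theorem h696_closed_max (A : Finset (ℤ × ℤ)) : Closed {c | ∃ P, MxS A P ∧ Mem c P} := by
  rintro u v w h1 h2 hne ⟨P, hP, hu⟩ ⟨Q, hQ, hw⟩
  have hn : Near P Q := by
    unfold Adj at h1 h2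
    unfold Mem at hu hw
    unfold Near
    omega
  have := hP.eq_of_near hQ hn
  subst this
  exact ⟨P, hP, h696_closed_mem u v w h1 h2 hne hu hw⟩

theorem h696_mono {m n : ℕ} (A : Set (Fin m × Fin n)) (t k : ℕ) :
    gstep^[t] A ⊆ gstep^[t + k] A := by
  induction k with
  | zero => exact subset_rfl
  | succ k ih =>
    refine ih.trans ?_
    rw [← add_assoc, Function.iterate_succ_apply']
    exact fun v hv => Or.inl hv

/-- percolation in the grid and closed sets -/
theorem h696_perc_closed {m n : ℕ} (A : Set (Fin m × Fin n)) {S : Set (ℤ × ℤ)} (hS : Closed S)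
    (hA : ∀ v ∈ A, emb v ∈ S) (t : ℕ) : ∀ v, v ∈ gstep^[t] A → emb v ∈ S := by
  induction t with
  | zero => exact hA
  | succ t ih =>
    intro v hv
    rw [Function.iterate_succ_apply'] at hv
    rcases hv with hv | ⟨u, w, hne, a1, a2, a3, a4⟩
    · exact ih v hv
    · exact hS _ _ _ ((h696_adj _ _).mp a1) ((h696_adj _ _).mp a2)
        (fun h => hne (h696_emb_inj h)) (ih u a3) (ih w a4)

theorem h696_closed_grid {m n : ℕ} (A : Set (Fin m × Fin n)) :
    Closed {c : ℤ × ℤ | ∃ v, emb v = c ∧ ∃ t : ℕ, v ∈ gstep^[t] A} := by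
  rintro u v w h1 h2 hne ⟨u', rfl, t1, hu⟩ ⟨w', rfl, t2, hw⟩
  have hv := h696_closed_mem _ _ _ h1 h2 hne (h696_emb_mem u') (h696_emb_mem w')
  obtain ⟨v', rfl⟩ := h696_emb_surj v hv
  refine ⟨v', rfl, t1 + t2 + 1, ?_⟩
  rw [Function.iterate_succ_apply']
  refine Or.inr ⟨u', w', fun h => hne (by rw [h]), (h696_adj _ _).mpr h1, (h696_adj _ _).mpr h2,
    h696_mono A t1 t2 hu, ?_⟩
  rw [add_comm t1 t2]
  exact h696_mono A t2 t1 hw

end link

/-- A minimal percolating set of the grid gives a minimal spanning set of the rectangle. -/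
theorem GMinimal.mn {m n : ℕ} (hm : 1 ≤ m) (hn : 1 ≤ n) {A : Finset (Fin m × Fin n)}
    (h : GMinimal A) : Mn (A.image emb) ⟨0, (m : ℤ) - 1, 0, (n : ℤ) - 1⟩ := by
  classical
  have hsub : ∀ B' ⊆ A.image emb, ∀ c ∈ B', Mem c ⟨0, (m : ℤ) - 1, 0, (n : ℤ) - 1⟩ := by
    intro B' hB' c hc
    obtain ⟨v, -, rfl⟩ := Finset.mem_image.1 (hB' hc)
    exact h696_emb_mem v
  -- (1)
  obtain ⟨B', hB', hIS⟩ : ∃ B' ⊆ A.image emb, IS B' ⟨0, (m : ℤ) - 1, 0, (n : ℤ) - 1⟩ := by
    obtain ⟨G, hG, hG'⟩ := IS.full ⟨0, (m : ℤ) - 1, 0, (n : ℤ) - 1⟩ (by simp only; omega)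
      (by simp only; omega)
    obtain ⟨P, hP, hRP⟩ := hG.cover (MxS (A.image emb)) (fun _ _ h1 h2 h3 => h1.eq_of_near h2 h3)
      (fun c hc => by
        obtain ⟨v, rfl⟩ := h696_emb_surj c ((hG' c).1 hc)
        obtain ⟨t, ht⟩ := h.1 v
        exact h696_perc_closed _ (h696_closed_max (A.image emb)) (fun u hu =>
          exists_MxS_mem (Finset.mem_image_of_mem _ hu)) t v ht)
    obtain ⟨B', hB', hIS⟩ := hP.1
    have : P = ⟨0, (m : ℤ) - 1, 0, (n : ℤ) - 1⟩ :=
      (hIS.sub_of_mem (hsub B' hB')).antisymm hRP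
    rw [this] at hIS
    exact ⟨B', hB', hIS⟩
  -- (2)
  have key : ∀ B, B ⊂ A.image emb → ¬ IS B ⟨0, (m : ℤ) - 1, 0, (n : ℤ) - 1⟩ := by
    intro B hB hIS
    have hBsub : A.filter (fun v => emb v ∈ B) ⊂ A := by
      refine ⟨Finset.filter_subset _ _, fun hle => ?_⟩
      obtain ⟨c, hc, hcB⟩ := Finset.exists_of_ssubset hB
      obtain ⟨v, hv, rfl⟩ := Finset.mem_image.1 hc
      exact hcB (Finset.mem_filter.1 (hle hv)).2
    refine h.2 _ hBsub fun v => ?_
    have h1 := hIS.fill (h696_closed_grid ((A.filter (fun v => emb v ∈ B) : Finset _) :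
      Set (Fin m × Fin n))) (fun c hc => by
        obtain ⟨v, hv, rfl⟩ := Finset.mem_image.1 (hB.1 hc)
        exact ⟨v, rfl, 0, Finset.mem_coe.2 (Finset.mem_filter.2 ⟨hv, hc⟩)⟩)
      (emb v) (h696_emb_mem v)
    obtain ⟨u, hu, t, ht⟩ := h1
    rw [← h696_emb_inj hu]
    exact ⟨t, ht⟩
  rcases hB'.eq_or_ssubset with h1 | h1
  · rw [h1] at hIS
    exact ⟨hIS, key⟩
  · exact absurd hIS (key _ h1)

theorem h696_R_w (m n : ℕ) : (⟨0, (m : ℤ) - 1, 0, (n : ℤ) - 1⟩ : Rc).w = m := by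
  unfold Rc.w; simp

theorem h696_R_h (m n : ℕ) : (⟨0, (m : ℤ) - 1, 0, (n : ℤ) - 1⟩ : Rc).h = n := by
  unfold Rc.h; simp

/-- Upper bound for the grid from the upper bound for `Mn`. -/
theorem GE_le (hmain : ∀ (A : Finset (ℤ × ℤ)) (R : Rc), Mn A R → 2 ≤ R.w → 2 ≤ R.h →
      15 * (A.card : ℤ) ≤ 2 * (R.w + 3) * (R.h + 3) - 10)
    (m n : ℕ) (hm : 2 ≤ m) (hn : 2 ≤ n) : 15 * GE m n + 10 ≤ 2 * (m + 3) * (n + 3) := by
  classical
  have hbdd : BddAbove {k : ℕ | ∃ A : Finset (Fin m × Fin n), GMinimal A ∧ A.card = k} := by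
    refine ⟨Fintype.card (Fin m × Fin n), ?_⟩
    rintro k ⟨B, -, rfl⟩
    exact Finset.card_le_univ B
  by_cases hne : {k : ℕ | ∃ A : Finset (Fin m × Fin n), GMinimal A ∧ A.card = k}.Nonempty
  · obtain ⟨A, hA, hc⟩ := Nat.sSup_mem hne hbdd
    have h1 := hmain _ _ (hA.mn (by omega) (by omega))
    rw [h696_R_w, h696_R_h, Finset.card_image_of_injective _ h696_emb_inj] at h1
    have h2 := h1 (by exact_mod_cast hm) (by exact_mod_cast hn)
    have h3 : GE m n = A.card := hc.symm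
    rw [h3]
    zify
    linarith
  · have h3 : GE m n = 0 := by
      unfold GE
      rw [Set.not_nonempty_iff_eq_empty.1 hne]
      simp
    rw [h3]
    nlinarith

/-- `GE n n` is the library's `E n` -/
theorem GE_eq (n : ℕ) : GE n n = Pool.Agent.Results.MP_849d81_co.TwoFifteenths.E n := rfl

/-- The limit. -/
theorem GE_tendsto (hmain : ∀ (A : Finset (ℤ × ℤ)) (R : Rc), Mn A R → 2 ≤ R.w → 2 ≤ R.h →
      15 * (A.card : ℤ) ≤ 2 * (R.w + 3) * (R.h + 3) - 10) :
    Filter.Tendsto (fun n : ℕ => (GE n n : ℝ) / (n : ℝ) ^ 2) Filter.atTop (nhds (2 / 15)) := by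
  have hlow := Pool.Agent.Results.MP_849d81_co.TwoFifteenths.result.2.1
  have hup : Filter.Tendsto (fun n : ℕ => 2 / 15 * (1 + 3 * (1 / (n : ℝ))) ^ 2) Filter.atTop
      (nhds (2 / 15)) := by
    have h1 : Filter.Tendsto (fun n : ℕ => (1 : ℝ) / (n : ℝ)) Filter.atTop (nhds 0) :=
      tendsto_one_div_atTop_nhds_zero_nat
    have h2 := (((h1.const_mul 3).const_add 1).pow 2).const_mul (2 / 15)
    have e : (2 / 15 : ℝ) * (1 + 3 * 0) ^ 2 = 2 / 15 := by norm_num
    rw [e] at h2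
    exact h2
  rw [Metric.tendsto_atTop]
  intro ε hε
  have ev1 := hlow (ε / 2) (by linarith)
  have ev2 := hup.eventually (gt_mem_nhds (show (2 / 15 : ℝ) < 2 / 15 + ε by linarith))
  obtain ⟨N, hN⟩ := Filter.eventually_atTop.1 (ev1.and (ev2.and (Filter.eventually_ge_atTop 2)))
  refine ⟨N, fun n hn => ?_⟩
  obtain ⟨h1, h2, h3⟩ := hN n hn
  rw [← GE_eq] at h1
  have hn0 : (0 : ℝ) < n := by
    have : (2 : ℝ) ≤ n := by exact_mod_cast h3
    linarith
  have h4 := GE_le hmain n n h3 h3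
  have h5 : 15 * (GE n n : ℝ) + 10 ≤ 2 * (n + 3) * (n + 3) := by exact_mod_cast h4
  have h6 : (GE n n : ℝ) / (n : ℝ) ^ 2 ≤ 2 / 15 * (1 + 3 * (1 / (n : ℝ))) ^ 2 := by
    rw [div_le_iff₀ (by positivity)]
    have e : 2 / 15 * (1 + 3 * (1 / (n : ℝ))) ^ 2 * (n : ℝ) ^ 2 = 2 / 15 * ((n : ℝ) + 3) ^ 2 := by
      field_simp
    rw [e]
    linarith
  rw [Real.dist_eq, abs_lt]
  constructor
  · linarith
  · linarith

end Pool.Agent.H109
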