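import Pool.Agent.H109.KStr
import Pool.Agent.H109.KSg
import Pool.Agent.H109.AFive

/-!
The main induction.
-/

set_option autoImplicit false

namespace Pool.Agent.H109

open Rc

variable {A B C D E B' B1 B2 DV DW E1 E2 : Finset (ℤ × ℤ)} {P Q R X Y P' M M1 M2 V W V' Y1 Y2 : Rc}
  {c z v : ℤ × ℤ} {n : ℕ} {a b : ℤ}

theorem NB.symm {L x y x' y' w h : ℤ} (hb : NB L x' y' x y w h) : NB L x y x' y' w h := by
  obtain ⟨⟨a1, a2, a3, a4⟩, b1, b2, c1, c2, d1, d2, d3, d4, e1, e2, f1, f2⟩ := hb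
  exact ⟨⟨a3, a4, a1, a2⟩, b2, b1, c2, c1, d3, d4, d1, d2, e2, e1, f1, f2⟩

/-- the bounds when one block pair is a corner -/
theorem NB.corner {L X Y w h : ℤ} (hL : 2 * (w + h) - 5 ≤ L) (hw : 3 ≤ w) (hh : 3 ≤ h) (hX : 1 ≤ X)
    (hY : 1 ≤ Y) (hX' : X ≤ w - 1) (hY' : Y ≤ h - 1) : NB L X 1 1 Y w h := by
  refine ⟨⟨?_, ?_, ?_, ?_⟩, ?_, ?_, ?_, ?_, ?_, ?_, ?_, ?_, ?_, ?_, ?_, ?_⟩ <;> intros <;> omega

theorem NB.corner' {L X Y w h : ℤ} (hL : 2 * (w + h) - 5 ≤ L) (hw : 3 ≤ w) (hh : 3 ≤ h)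
    (hX : 1 ≤ X) (hY : 1 ≤ Y) (hX' : X ≤ w - 1) (hY' : Y ≤ h - 1) : NB L 1 Y X 1 w h := by
  refine ⟨⟨?_, ?_, ?_, ?_⟩, ?_, ?_, ?_, ?_, ?_, ?_, ?_, ?_, ?_, ?_, ?_, ?_⟩ <;> intros <;> omega

/-- a two-wide type (b) set has two sites -/
theorem tb_two (h : Mn A R) (ht : TB A R B1 M1 B2 M2) (hw : R.w ≤ 2) :
    A.card = 2 ∧ R.h ≤ 2 := by
  have wf1 := ht.m1.is.wf
  have e1 := ht.l1
  have e2 := ht.r1
  have hw2 : R.x2 = R.x1 + 1 := by unfold Rc.w at hw; omega
  obtain ⟨u, hu, v, hv, hu1, hv1, k1, k2⟩ := core2 h.1 hw2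
  have hQ := IS_pair (u := u) (v := v) (by omega) k1 k2
  have hsub : ({u, v} : Finset (ℤ × ℤ)) ⊆ A := by
    intro x hx
    simp only [Finset.mem_insert, Finset.mem_singleton] at hx
    rcases hx with rfl | rfl <;> assumption
  have hQR : (⟨u.1, v.1, min u.2 v.2, max u.2 v.2⟩ : Rc) = R :=
    ht.eq_R h hsub hQ hu1 hv1
  rw [hQR] at hQ
  have hA := h.eq_of_IS_R hsub hQ
  refine ⟨?_, ?_⟩
  · rw [← hA, Finset.card_pair]
    intro e
    rw [e] at hu1
    omega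
  · rw [← hQR]; unfold Rc.h; simp only; omega

theorem tb_two' (h : Mn A R) (ht : TB A R B1 M1 B2 M2) (hw : R.h ≤ 2) :
    A.card = 2 ∧ R.w ≤ 2 := by
  have := tb_two (Sy.swap.Mn h) ht.swap hw
  rwa [Sy.card_im] at this

/-- `X2` has both dimensions at least two -/
theorem dims2 (h : Mn A R) (ht : TB A R B1 M1 B2 M2) (hX : IS (A \ B2) X)
    (hc : 2 ≤ (A \ B2).card) : 2 ≤ X.w ∧ 2 ≤ X.h := by
  obtain ⟨X', hX', hn, hR, hfar⟩ := ht.m2.compl h
  have e := hX.uniq hX'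
  subst e
  have sX : Sub X R := hX.mono h.1 Finset.sdiff_subset
  have sM := ht.m2.subR h
  have wfX := hX.wf
  have wfM := ht.m2.is.wf
  have key : ∀ c ∈ A \ B2, ¬ (c.1 = X.x2 ∧ c.2 = X.y2) := by
    rintro c hc' ⟨h1, h2⟩
    have hss : ({c} : Finset (ℤ × ℤ)) ⊂ A \ B2 := by
      refine Finset.ssubset_iff_subset_ne.mpr ⟨by simpa using hc', fun e => ?_⟩
      rw [← e, Finset.card_singleton] at hc
      omega
    have f := hfar _ hss _ (IS.pt c)
    apply f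
    have := near_symm hn
    have r2 := ht.r2
    have t2 := ht.t2
    unfold Sub at sX sM
    rw [near_bl (by omega) (by omega)] at this
    apply near_symm
    rw [near_bl (by unfold Rc.pt; simp only; omega) (by unfold Rc.pt; simp only; omega)]
    unfold Rc.pt
    simp only
    omega
  obtain ⟨-, ⟨p, hp, hp1⟩, -, ⟨q, hq, hq1⟩⟩ := hX.sides
  have mp := hX.mem p hp
  have mq := hX.mem q hq
  have kp := key p hp
  have kq := key q hq
  unfold Mem at mp mq
  unfold Rc.w Rc.h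
  omega

theorem dims1 (h : Mn A R) (ht : TB A R B1 M1 B2 M2) (hX : IS (A \ B1) X)
    (hc : 2 ≤ (A \ B1).card) : 2 ≤ X.w ∧ 2 ≤ X.h := by
  have := dims2 (Sy.neg.Mn h) ht.neg (X := Sy.neg.g X) (by rw [← Sy.im_sdiff]; exact Sy.neg.IS hX)
    (by rw [← Sy.im_sdiff, Sy.card_im]; exact hc)
  unfold Rc.w Rc.h Sy.neg at this
  simp only at this
  unfold Rc.w Rc.h
  omega

theorem sub_dims (hs : Sub X V) (h : 2 ≤ X.w ∧ 2 ≤ X.h) : 2 ≤ V.w ∧ 2 ≤ V.h := by
  unfold Sub at hs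
  unfold Rc.w Rc.h at *
  omega

/-- bounds for `W` of type (b) -/
theorem ktb (hg : Good D W) (ht : TB D W E1 Y1 E2 Y2) (hw3 : 3 ≤ W.w) (hh3 : 3 ≤ W.h)
    {p q : ℤ} (h1 : p ≤ Y2.x1) (h2 : q ≤ Y2.y1)
    (hfar : 3 ≤ (Y2.x1 - p) + (Y2.y1 - q)) (n1 : W.x1 - p ≤ 2) (n2 : W.y1 - q ≤ 2)
    (n3 : (W.x1 - p) + (W.y1 - q) ≤ 2) : KTb (lam D W) W.w W.h (W.x1 - p) (W.y1 - q) := by
  obtain ⟨hb, -, -, m1, m2⟩ := hg.nb _ _ _ _ ht
  have l2 := ht.l2
  have b2 := ht.b2
  have r2 := ht.r2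
  have t2 := ht.t2
  have n5 := hb.n5
  have n6c := hb.n6c
  have n6d := hb.n6d
  have n7' := hb.n7'
  have b6 := hb.b6
  unfold Rc.h at m1 ⊢ hh3
  unfold Rc.w at m2 ⊢ hw3
  refine ⟨by omega, by omega, fun _ => by omega, fun _ => by omega, fun e1 e2 => ?_,
    fun e1 e2 => ?_, fun e1 e2 => by omega, by omega⟩
  · by_cases hx : 2 ≤ Y2.x1 - W.x1
    · left; have := n6c hx; omega
    · rcases m1 with m1 | m1
      · left; omega
      · by_cases hy : 2 - (W.y1 - q) ≤ Y2.y1 - W.y1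
        · left; omega
        · right; omega
  · by_cases hx : 2 ≤ Y2.y1 - W.y1
    · left; have := n6d hx; omega
    · rcases m2 with m2 | m2
      · left; omega
      · by_cases hy : 2 - (W.x1 - p) ≤ Y2.x1 - W.x1
        · left; omega
        · right; omega

theorem farQ_of (h1 : Y.x1 ≤ W.x2) (h2 : Y.y1 ≤ W.y2) (hf : ¬ Near Y W) :
    FarQ Y W.x1 W.y1 := by
  unfold FarQ
  rw [near_bl h1 h2] at hf
  omega

theorem Pr.card (hp : Pr A R B1 M1 B2 M2 DV V DW W) : A.card = DV.card + DW.card := by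
  rw [← hp.un, Finset.card_union_of_disjoint hp.dj]

theorem Pr.neg (hp : Pr A R B1 M1 B2 M2 DV V DW W) :
    Pr (Sy.neg.im A) (Sy.neg.g R) (Sy.neg.im B2) (Sy.neg.g M2) (Sy.neg.im B1) (Sy.neg.g M1)
      (Sy.neg.im DW) (Sy.neg.g W) (Sy.neg.im DV) (Sy.neg.g V) := by
  refine ⟨?_, ?_, Sy.neg.IS hp.w, Sy.neg.IS hp.v, Sy.neg.hnear _ _ (near_symm hp.nr), ?_, ?_, ?_,
    ?_, ?_, ?_, Sy.neg.hsub _ _ hp.wm, Sy.neg.hsub _ _ hp.vm⟩
  · rw [← Sy.im_union, Finset.union_comm, hp.un]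
  · rw [Finset.disjoint_left]
    intro x hx hx'
    rw [Sy.mem_im] at hx hx'
    exact Finset.disjoint_left.mp hp.dj hx' hx
  · rw [← Sy.im_sdiff]; exact Sy.neg.im_sub hp.c1
  · rw [← Sy.im_sdiff]; exact Sy.neg.im_sub hp.c2
  · have := hp.wx; unfold Sy.neg; simp only; omega
  · have := hp.wy; unfold Sy.neg; simp only; omega
  · have := hp.vx; unfold Sy.neg; simp only; omega
  · have := hp.vy; unfold Sy.neg; simp only; omega

theorem Strict.neg (hs : Strict D W) : Strict (Sy.neg.im D) (Sy.neg.g W) := by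
  intro E hE Y hY hn
  have h1 := Sy.neg.im_ssub hE
  rw [Sy.im_im] at h1
  refine hs _ h1 _ (Sy.neg.IS hY) ?_
  have := Sy.neg.hnear _ _ hn
  rwa [Sy.gg] at this

theorem SgW.neg (hs : SgW C D W V) : SgV (Sy.neg.im C) (Sy.neg.im D) (Sy.neg.g W) (Sy.neg.g V) := by
  obtain ⟨w, hw, W', hW', hf, hx, hy, hC⟩ := hs
  refine ⟨Sy.neg.f w, by rw [Sy.mem_im, Sy.ff]; exact hw, Sy.neg.g W', ?_, ?_, ?_, ?_, ?_⟩
  · rw [← Sy.im_erase]; exact Sy.neg.IS hW'
  · rw [Sy.near_iff]; exact hf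
  · unfold Sy.neg; simp only; omega
  · unfold Sy.neg; simp only; omega
  · rw [← Sy.im_erase]; exact Sy.neg.im_sub hC

/-- data of `V` -/
theorem vdata (ih : IH n) (h : Mn A R) (hn : A.card = n) (ht : TB A R B1 M1 B2 M2)
    (hp : Pr A R B1 M1 B2 M2 DV V DW W) (hc : 2 ≤ (A \ B2).card)
    (hV : Strict DV W ∨ SgV (A \ B2) DV V W) :
    2 ≤ V.w ∧ 2 ≤ V.h ∧
    (KStr (lam DV V) V.w V.h (W.x1 - V.x2) (W.y1 - V.y2) ∨
      KSg (lam DV V) V.w V.h (W.x1 - V.x2) (W.y1 - V.y2)) := by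
  obtain ⟨X2, hX2, -, -, -⟩ := ht.m2.compl h
  have dX := dims2 h ht hX2 hc
  have sXV : Sub X2 V := hX2.mono hp.v hp.c2
  have dV := sub_dims sXV dX
  have hMV : Mn DV V := h.sub hp.dvA hp.v
  have hcard := hp.card
  have hDW := hp.w.nonempty.card_pos
  have hDVn : DV.card < n := by omega
  have hDV2 : 2 ≤ DV.card := le_trans hc (Finset.card_le_card hp.c2)
  have vx := hp.vx
  have vy := hp.vy
  have wx := hp.wx
  have wy := hp.wy
  have l2 := ht.l2
  have b2 := ht.b2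
  have wm := hp.wm
  have wfV := hp.v.wf
  have wfW := hp.w.wf
  have sVR := hp.v.mono h.1 hp.dvA
  have nr := hp.nr
  unfold Sub at wm sVR
  rw [near_bl (by omega) (by omega)] at nr
  refine ⟨dV.1, dV.2, ?_⟩
  rcases hV with hV | hV
  · left
    refine (kstr ih hMV hDVn hDV2 (by omega) (by omega) nr.1 nr.2.1 nr.2.2 ?_).2.2
    intro E hE Y hY
    have sY := hY.mono hp.v hE.1
    have wfY := hY.wf
    unfold Sub at sY
    exact farQ_of (by omega) (by omega) (hV E hE Y hY)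
  · right
    obtain ⟨v, hv, V', hV', hf, hx, hy, hC⟩ := hV
    have sXV' : Sub X2 V' := hX2.mono hV' hC
    have dV' := sub_dims sXV' dX
    have sY := hV'.mono hp.v (Finset.erase_subset _ _)
    have wfY := hV'.wf
    unfold Sub at sY
    exact ksg ih hMV hDVn hv hV' hx hy dV'.1 dV'.2 (by omega) (by omega) nr.1 nr.2.1 nr.2.2
      (farQ_of (by omega) (by omega) hf)

/-- data of `W` -/
theorem wdata (ih : IH n) (h : Mn A R) (hn : A.card = n) (ht : TB A R B1 M1 B2 M2)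
    (hp : Pr A R B1 M1 B2 M2 DV V DW W) (hc : 2 ≤ (A \ B1).card)
    (hW : Strict DW V ∨ SgW (A \ B1) DW W V) :
    KStr (lam DW W) W.w W.h (W.x1 - V.x2) (W.y1 - V.y2) ∨
      KSg (lam DW W) W.w W.h (W.x1 - V.x2) (W.y1 - V.y2) := by
  have h1 := vdata ih (Sy.neg.Mn h) (by rw [Sy.card_im]; exact hn) ht.neg hp.neg
    (by rw [← Sy.im_sdiff, Sy.card_im]; exact hc) (by
      rcases hW with hW | hW
      · exact Or.inl hW.neg
      · right; rw [← Sy.im_sdiff]; exact hW.neg)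
  have e1 : (Sy.neg.g W).w = W.w := by unfold Rc.w Sy.neg; simp only; ring
  have e2 : (Sy.neg.g W).h = W.h := by unfold Rc.h Sy.neg; simp only; ring
  have e3 : (Sy.neg.g V).x1 - (Sy.neg.g W).x2 = W.x1 - V.x2 := by
    unfold Sy.neg; simp only; ring
  have e4 : (Sy.neg.g V).y1 - (Sy.neg.g W).y2 = W.y1 - V.y2 := by
    unfold Sy.neg; simp only; ring
  rw [lam_neg, e1, e2, e3, e4] at h1
  exact h1.2.2

/-- The bounds for type (b) when both complements have at least two sites. -/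
theorem nb_big (ih : IH n) (h : Mn A R) (hn : A.card = n) (ht : TB A R B1 M1 B2 M2)
    (hc1 : 2 ≤ (A \ B1).card) (hc2 : 2 ≤ (A \ B2).card) :
    NB (lam A R) (R.x2 - M1.x2) (M2.y1 - R.y1) (M2.x1 - R.x1) (R.y2 - M1.y2) R.w R.h ∧
      2 ≤ M1.w ∧ 2 ≤ M1.h ∧ 2 ≤ M2.w ∧ 2 ≤ M2.h := by
  obtain ⟨X2, hX2, -, -, -⟩ := ht.m2.compl h
  obtain ⟨X1, hX1, -, -, -⟩ := ht.m1.compl h
  have dX2 := dims2 h ht hX2 hc2
  have dX1 := dims1 h ht hX1 hc1
  obtain ⟨DV, V, DW, W, hp, hV, hW⟩ := pair_exists h ht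
  have sXV : Sub X2 V := hX2.mono hp.v hp.c2
  have sXW : Sub X1 W := hX1.mono hp.w hp.c1
  have dV := sub_dims sXV dX2
  have dW := sub_dims sXW dX1
  have dM1 := sub_dims (sXV.trans hp.vm) dX2
  have dM2 := sub_dims (sXW.trans hp.wm) dX1
  refine ⟨?_, dM1.1, dM1.2, dM2.1, dM2.2⟩
  have vd := vdata ih h hn ht hp hc2 hV
  have hcard := hp.card
  have hDW := hp.w.nonempty.card_pos
  have hDV := hp.v.nonempty.card_pos
  have vx := hp.vx
  have vy := hp.vy
  have wx := hp.wx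
  have wy := hp.wy
  have l2 := ht.l2
  have b2 := ht.b2
  have r1 := ht.r1
  have t1 := ht.t1
  have wm := hp.wm
  have vm := hp.vm
  have wfV := hp.v.wf
  have wfW := hp.w.wf
  have sVR := hp.v.mono h.1 hp.dvA
  have sWR := hp.w.mono h.1 hp.dwA
  have nr := hp.nr
  unfold Sub at wm vm sVR sWR
  rw [near_bl (by omega) (by omega)] at nr
  -- dimensions of `R`
  have ew : R.w = V.w + W.w - 1 + (W.x1 - V.x2) := by unfold Rc.w; omega
  have eh : R.h = V.h + W.h - 1 + (W.y1 - V.y2) := by unfold Rc.h; omega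
  have el : lam A R = lam DV V + lam DW W + 10 - 2 * (4 - (W.x1 - V.x2)) * (4 - (W.y1 - V.y2)) +
      2 * ((W.w - 1 + (W.x1 - V.x2)) * (V.h - 1 + (W.y1 - V.y2)) +
        (V.w - 1 + (W.x1 - V.x2)) * (W.h - 1 + (W.y1 - V.y2))) := by
    unfold lam
    rw [hcard, ew, eh]
    push_cast
    ring
  have bx : W.w - 1 + (W.x1 - V.x2) = R.x2 - V.x2 := by unfold Rc.w; omega
  have by' : V.h - 1 + (W.y1 - V.y2) = W.y1 - R.y1 := by unfold Rc.h; omega
  have bx' : V.w - 1 + (W.x1 - V.x2) = W.x1 - R.x1 := by unfold Rc.w; omega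
  have by'' : W.h - 1 + (W.y1 - V.y2) = R.y2 - V.y2 := by unfold Rc.h; omega
  have fin : NB (lam A R) (R.x2 - V.x2) (W.y1 - R.y1) (W.x1 - R.x1) (R.y2 - V.y2) R.w R.h := by
    by_cases hW2 : Strict DW V ∨ SgW (A \ B1) DW W V
    · have wd := wdata ih h hn ht hp hc1 hW2
      have c := combine (LV := lam DV V) (LW := lam DW W) (vw := V.w) (vh := V.h) (ww := W.w)
        (wh := W.h) nr.1 nr.2.1 nr.2.2 dV.1 dV.2 dW.1 dW.2 (by omega) (by omega) (by omega)
        (by omega) (by rcases vd.2.2 with h1 | h1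
                       · exact Or.inl h1
                       · exact Or.inr (Or.inl h1)) wd
      rw [← el, ← ew, ← eh, bx, by', bx', by''] at c
      exact c.nb (by omega) (by omega) (by omega) (by omega)
    · have hW3 : TbW (A \ B1) DW W V := by
        rcases hW with h1 | h1 | h1
        · exact (hW2 (Or.inl h1)).elim
        · exact (hW2 (Or.inr h1)).elim
        · exact h1
      obtain ⟨E1, Y1, E2, Y2, htW, hf, q1, q2, hC⟩ := hW3
      have hMW : Mn DW W := h.sub hp.dwA hp.w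
      have hE2 := Finset.card_lt_card (htW.m2.ssub hMW)
      have hE3 := Finset.card_le_card hC
      have w3 : 3 ≤ W.w := by
        by_contra hcon
        have := (tb_two hMW htW (by omega)).1
        omega
      have h3 : 3 ≤ W.h := by
        by_contra hcon
        have := (tb_two' hMW htW (by omega)).1
        omega
      have wfY := htW.m2.is.wf
      have sYW := htW.m2.subR hMW
      unfold Sub at sYW
      have hf' : ¬ Near V Y2 := fun h' => hf (near_symm h')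
      rw [near_bl (by omega) (by omega)] at hf'
      have kt := ktb (ih DW W hMW (by omega)) htW w3 h3 q1 q2 (by omega) nr.1 nr.2.1 nr.2.2
      have c := combine (LV := lam DW W) (LW := lam DV V) (vw := W.w) (vh := W.h) (ww := V.w)
        (wh := V.h) nr.1 nr.2.1 nr.2.2 dW.1 dW.2 dV.1 dV.2 (by omega) (by omega) (by omega)
        (by omega) (Or.inr (Or.inr kt)) vd.2.2
      have c2 := c.nb (by omega) (by omega) (by omega) (by omega)
      rw [bx, by', bx', by''] at c2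
      have e1 : lam DW W + lam DV V + 10 - 2 * (4 - (W.x1 - V.x2)) * (4 - (W.y1 - V.y2)) +
          2 * ((W.x1 - R.x1) * (R.y2 - V.y2) + (R.x2 - V.x2) * (W.y1 - R.y1)) = lam A R := by
        rw [el, bx, by', bx', by'']
        ring
      have e2 : W.w + V.w - 1 + (W.x1 - V.x2) = R.w := by rw [ew]; ring
      have e3 : W.h + V.h - 1 + (W.y1 - V.y2) = R.h := by rw [eh]; ring
      rw [e1, e2, e3] at c2
      exact c2.symm
  exact fin.mono (by omega) (by omega) (by omega) (by omega) (by omega) (by omega) (by omega)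
    (by omega)

/-- corner case -/
theorem corner2 (ih : IH n) (h : Mn A R) (hn : A.card = n) (ht : TB A R B1 M1 B2 M2)
    (hw : 3 ≤ R.w) (hh : 3 ≤ R.h) (hc : (A \ B2).card = 1) :
    M2.x1 - R.x1 = 1 ∧ M2.y1 - R.y1 = 1 ∧ 2 * (R.w + R.h) - 5 ≤ lam A R := by
  obtain ⟨X2, hX2, hn2, hR2, -⟩ := ht.m2.compl h
  obtain ⟨c, hc'⟩ := Finset.card_eq_one.mp hc
  have eX : X2 = Rc.pt c := by
    rw [hc'] at hX2
    exact hX2.uniq (IS.pt c)
  subst eX
  have sX : Sub (Rc.pt c) R := hX2.mono h.1 Finset.sdiff_subset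
  have sM := ht.m2.subR h
  have wfM := ht.m2.is.wf
  have l2 := ht.l2
  have b2 := ht.b2
  have r2 := ht.r2
  have t2 := ht.t2
  have e1 : min M2.x1 c.1 = R.x1 := by rw [hR2]; rfl
  have e2 : min M2.y1 c.2 = R.y1 := by rw [hR2]; rfl
  have hn3 := near_symm hn2
  unfold Sub Rc.pt at sX
  unfold Sub at sM
  simp only at sX
  rw [near_bl (by unfold Rc.pt; simp only; omega) (by unfold Rc.pt; simp only; omega)] at hn3
  unfold Rc.pt at hn3
  simp only at hn3
  have f1 : M2.x1 = R.x1 + 1 := by omega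
  have f2 : M2.y1 = R.y1 + 1 := by omega
  refine ⟨by omega, by omega, ?_⟩
  have hlt := Finset.card_lt_card (ht.m2.ssub h)
  have hg := ih B2 M2 (h.sub ht.m2.sub ht.m2.is) (by omega)
  have w2 : M2.w = R.w - 1 := by unfold Rc.w; omega
  have h2 : M2.h = R.h - 1 := by unfold Rc.h; omega
  have hl := hg.a0 (by omega) (by omega)
  have hcard : A.card = B2.card + 1 := by
    have := Finset.card_sdiff_add_card_eq_card ht.m2.sub
    omega
  unfold lam at hl ⊢
  rw [w2, h2] at hl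
  rw [hcard]
  push_cast
  linarith

theorem corner1 (ih : IH n) (h : Mn A R) (hn : A.card = n) (ht : TB A R B1 M1 B2 M2)
    (hw : 3 ≤ R.w) (hh : 3 ≤ R.h) (hc : (A \ B1).card = 1) :
    R.x2 - M1.x2 = 1 ∧ R.y2 - M1.y2 = 1 ∧ 2 * (R.w + R.h) - 5 ≤ lam A R := by
  have e1 : (Sy.neg.g R).w = R.w := by unfold Rc.w Sy.neg; simp only; ring
  have e2 : (Sy.neg.g R).h = R.h := by unfold Rc.h Sy.neg; simp only; ring
  have h1 := corner2 ih (Sy.neg.Mn h) (by rw [Sy.card_im]; exact hn) ht.neg (by rw [e1]; exact hw)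
    (by rw [e2]; exact hh) (by rw [← Sy.im_sdiff, Sy.card_im]; exact hc)
  rw [lam_neg, e1, e2] at h1
  obtain ⟨a1, a2, a3⟩ := h1
  unfold Sy.neg at a1 a2
  simp only at a1 a2
  exact ⟨by omega, by omega, a3⟩

/-- all type (b) bounds -/
theorem nb_all (ih : IH n) (h : Mn A R) (hn : A.card = n) (ht : TB A R B1 M1 B2 M2) :
    NB (lam A R) (R.x2 - M1.x2) (M2.y1 - R.y1) (M2.x1 - R.x1) (R.y2 - M1.y2) R.w R.h ∧
    (2 * (R.y2 - M1.y2) + 1 ≤ lam A R ∨ 2 ≤ M1.h) ∧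
    (2 * (R.x2 - M1.x2) + 1 ≤ lam A R ∨ 2 ≤ M1.w) ∧
    (2 * (M2.y1 - R.y1) + 1 ≤ lam A R ∨ 2 ≤ M2.h) ∧
    (2 * (M2.x1 - R.x1) + 1 ≤ lam A R ∨ 2 ≤ M2.w) := by
  have l1 := ht.l1
  have b1 := ht.b1
  have r1 := ht.r1
  have t1 := ht.t1
  have l2 := ht.l2
  have b2 := ht.b2
  have r2 := ht.r2
  have t2 := ht.t2
  have wf1 := ht.m1.is.wf
  have wf2 := ht.m2.is.wf
  have small : A.card = 2 → R.w ≤ 2 → R.h ≤ 2 →
      NB (lam A R) (R.x2 - M1.x2) (M2.y1 - R.y1) (M2.x1 - R.x1) (R.y2 - M1.y2) R.w R.h ∧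
      (2 * (R.y2 - M1.y2) + 1 ≤ lam A R ∨ 2 ≤ M1.h) ∧
      (2 * (R.x2 - M1.x2) + 1 ≤ lam A R ∨ 2 ≤ M1.w) ∧
      (2 * (M2.y1 - R.y1) + 1 ≤ lam A R ∨ 2 ≤ M2.h) ∧
      (2 * (M2.x1 - R.x1) + 1 ≤ lam A R ∨ 2 ≤ M2.w) := by
    intro hc hw hh
    have ew : R.w = 2 := by unfold Rc.w at *; omega
    have eh : R.h = 2 := by unfold Rc.h at *; omega
    have el : lam A R = 10 := by unfold lam; rw [ew, eh, hc]; norm_num
    have x1 : R.x2 - M1.x2 = 1 := by unfold Rc.w at *; omega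
    have x2 : M2.x1 - R.x1 = 1 := by unfold Rc.w at *; omega
    have y1 : R.y2 - M1.y2 = 1 := by unfold Rc.h at *; omega
    have y2 : M2.y1 - R.y1 = 1 := by unfold Rc.h at *; omega
    rw [el, x1, x2, y1, y2, ew, eh]
    refine ⟨⟨?_, ?_, ?_, ?_, ?_, ?_, ?_, ?_, ?_, ?_, ?_, ?_, ?_⟩, by omega, by omega, by omega,
      by omega⟩ <;> intros <;> omega
  by_cases hw : R.w ≤ 2
  · have := tb_two h ht hw
    exact small this.1 hw this.2
  by_cases hh : R.h ≤ 2
  · have := tb_two' h ht hh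
    exact small this.1 this.2 hh
  obtain ⟨X2, hX2, -, -, -⟩ := ht.m2.compl h
  obtain ⟨X1, hX1, -, -, -⟩ := ht.m1.compl h
  have p2 := hX2.nonempty.card_pos
  have p1 := hX1.nonempty.card_pos
  by_cases hc2 : (A \ B2).card = 1
  · obtain ⟨e1, e2, e3⟩ := corner2 ih h hn ht (by omega) (by omega) hc2
    have bX : R.x2 - M1.x2 ≤ R.w - 1 := by unfold Rc.w; omega
    have bY : R.y2 - M1.y2 ≤ R.h - 1 := by unfold Rc.h; omega
    rw [e1, e2]
    refine ⟨NB.corner e3 (by omega) (by omega) (by omega) (by omega) bX bY, Or.inl ?_, Or.inl ?_,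
      Or.inl ?_, Or.inl ?_⟩ <;> omega
  by_cases hc1 : (A \ B1).card = 1
  · obtain ⟨e1, e2, e3⟩ := corner1 ih h hn ht (by omega) (by omega) hc1
    have bX : M2.x1 - R.x1 ≤ R.w - 1 := by unfold Rc.w; omega
    have bY : M2.y1 - R.y1 ≤ R.h - 1 := by unfold Rc.h; omega
    rw [e1, e2]
    refine ⟨(NB.corner' e3 (by omega) (by omega) (by omega) (by omega) bX bY), Or.inl ?_,
      Or.inl ?_, Or.inl ?_, Or.inl ?_⟩ <;> omega
  obtain ⟨q1, q2, q3, q4, q5⟩ := nb_big ih h hn ht (by omega) (by omega)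
  exact ⟨q1, Or.inr q3, Or.inr q2, Or.inr q5, Or.inr q4⟩

/-- The induction step. -/
theorem good_step (ih : IH n) (h : Mn A R) (hn : A.card = n) : Good A R := by
  have a5 : 3 ≤ R.w → 3 ≤ R.h → 4 ≤ R.w ∨ 4 ≤ R.h → 5 ≤ lam A R := by
    intro h1 h2 h3
    by_cases hw3 : R.w = 3
    · have h4 := t3_bound h (by unfold Rc.w at hw3; omega)
      have h5 := lam_w3 h hw3
      by_cases h6 : 5 ≤ R.h
      · omega
      · have h7 : R.h = 4 := by omega
        unfold lam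
        rw [hw3, h7]
        rw [h7] at h4
        omega
    by_cases hh3 : R.h = 3
    · have h4 := t3_bound (Sy.swap.Mn h) (by unfold Rc.h at hh3; unfold Sy.swap; simp only; omega)
      rw [Sy.card_im] at h4
      have e1 : (Sy.swap.g R).h = R.w := rfl
      rw [e1] at h4
      have h5 := lam_h3 h hh3
      by_cases h6 : 5 ≤ R.w
      · omega
      · have h7 : R.w = 4 := by omega
        unfold lam
        rw [hh3, h7]
        rw [h7] at h4
        omega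
    have hc : 2 ≤ A.card := by
      by_contra hcon
      have hpos := h.1.nonempty.card_pos
      obtain ⟨x, hx⟩ := Finset.card_eq_one.mp (show A.card = 1 by omega)
      have e : R = Rc.pt x := by
        have := h.1
        rw [hx] at this
        exact this.uniq (IS.pt x)
      rw [e] at h1
      unfold Rc.w Rc.pt at h1
      simp only at h1
      omega
    rcases h.structure hc with ⟨z, M, hs⟩ | ⟨B1, M1, B2, M2, ht⟩ | ⟨B1, M1, B2, M2, ht⟩
    · exact a5_single ih h hn (by omega) (by omega) hs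
    · have := (nb_all ih h hn ht).1.b6
      omega
    · have := (nb_all ih (Sy.fly.Mn h) (by rw [Sy.card_im]; exact hn) ht.fly).1.b6
      rw [lam_fly] at this
      omega
  refine ⟨fun h1 h2 => ?_, a5, fun B1 M1 B2 M2 ht => nb_all ih h hn ht⟩
  by_cases hw2 : R.w = 2
  · exact lam_w2 h hw2
  by_cases hh2 : R.h = 2
  · exact lam_h2 h hh2
  by_cases hw3 : R.w = 3
  · have := lam_w3 h hw3
    omega
  have := a5 (by omega) (by omega) (by omega)
  omega

theorem good_all (h : Mn A R) : Good A R := by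
  have key : ∀ n : ℕ, IH n := by
    intro n
    induction n with
    | zero => intro A R _ hn; omega
    | succ n ihn =>
      intro A R h hn
      by_cases h1 : A.card < n
      · exact ihn A R h h1
      · exact good_step ihn h (by omega)
  exact key (A.card + 1) A R h (by omega)

/-- MAIN BOUND. A minimal spanning set of a `w × h` rectangle, `w, h ≥ 2`, has at most
`(2 (w + 3) (h + 3) - 10) / 15` sites. -/
theorem main_bound (h : Mn A R) (hw : 2 ≤ R.w) (hh : 2 ≤ R.h) :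
    15 * (A.card : ℤ) ≤ 2 * (R.w + 3) * (R.h + 3) - 10 := by
  have := (good_all h).a0 hw hh
  unfold lam at this
  linarith

end Pool.Agent.H109
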