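import Pool.Agent.H465.OC.StmC

/-!
# Project OC, task C3: Hecke sums preserve the transformation law
-/

set_option autoImplicit false

noncomputable section

open UpperHalfPlane hiding I
open ModularForm MatrixGroups EisensteinSeries

namespace Pool.Agent.H109.OCHInv

open Pool.Agent.Q237.SX Pool.Agent.H465.OC

variable {p : ℕ} [hp : Fact p.Prime]

/-- the Möbius map on indices -/
def sg (p : ℕ) [Fact p.Prime] (a b c d : ℤ) : Option (ZMod p) → Option (ZMod p)
  | none => if (c : ZMod p) = 0 then none else some ((d : ZMod p) / c)
  | some j => if (a : ZMod p) + j * c = 0 then none else some ((b + j * d) / (a + j * c))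

lemma det_cast {a b c d : ℤ} (h : a * d - b * c = 1) :
    (a : ZMod p) * d - b * c = 1 := by
  have := congrArg (fun n : ℤ => (n : ZMod p)) h
  push_cast at this
  exact this

lemma sg_inj {a b c d : ℤ} (h : a * d - b * c = 1) : Function.Injective (sg p a b c d) := by
  have hd := det_cast (p := p) h
  intro x y hxy
  rcases x with _ | j <;> rcases y with _ | j'
  · rfl
  · exfalso
    unfold sg at hxy
    dsimp only at hxy
    split_ifs at hxy with h1 h2 h2
    · rw [h1, mul_zero, add_zero] at h2
      rw [h1, h2] at hd
      simp at hd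
    · rw [Option.some.injEq, div_eq_div_iff h1 h2] at hxy
      apply one_ne_zero (α := ZMod p)
      rw [← hd]
      linear_combination hxy
  · exfalso
    unfold sg at hxy
    dsimp only at hxy
    split_ifs at hxy with h1 h2 h2
    · rw [h2, mul_zero, add_zero] at h1
      rw [h1, h2] at hd
      simp at hd
    · rw [Option.some.injEq, div_eq_div_iff h1 h2] at hxy
      apply one_ne_zero (α := ZMod p)
      rw [← hd]
      linear_combination -hxy
  · congr 1
    unfold sg at hxy
    dsimp only at hxy
    split_ifs at hxy with h1 h2 h2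
    · have h3 : (j - j') * (c : ZMod p) = 0 := by linear_combination h1 - h2
      rcases mul_eq_zero.1 h3 with h4 | h4
      · exact sub_eq_zero.1 h4
      · rw [h4, mul_zero, add_zero] at h1
        rw [h1, h4] at hd
        simp at hd
    · rw [Option.some.injEq, div_eq_div_iff h1 h2] at hxy
      have h3 : (j - j') * ((a : ZMod p) * d - b * c) = 0 := by linear_combination hxy
      rw [hd, mul_one] at h3
      exact sub_eq_zero.1 h3

/-- the terms -/
def Ph (p : ℕ) [Fact p.Prime] (w : ℤ) (F : ℍ → ℂ) (z : ℍ) : Option (ZMod p) → ℂ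
  | none => F (mulP p z)
  | some j => (p : ℂ) ^ (-w) * F (divP p j.val z)

lemma Ph_sum (w : ℤ) (F : ℍ → ℂ) (z : ℍ) :
    ∑ v, Ph p w F z v =
      F (mulP p z) + (p : ℂ) ^ (-w) * ∑ b ∈ Finset.range p, F (divP p b z) := by
  rw [Fintype.sum_option]
  unfold Ph
  dsimp only
  rw [← Finset.mul_sum]
  congr 2
  have hp0 : NeZero p := ⟨hp.out.ne_zero⟩
  refine Finset.sum_bij (fun (j : ZMod p) _ => j.val) ?_ ?_ ?_ ?_
  · intro j _
    exact Finset.mem_range.2 (ZMod.val_lt j)
  · intro i _ j _ hij
    exact ZMod.val_injective p hij
  · intro b hb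
    exact ⟨(b : ZMod p), Finset.mem_univ _, ZMod.val_natCast_of_lt (Finset.mem_range.1 hb)⟩
  · intro j _
    rfl

lemma den_ne {a b c d : ℤ} (h : a * d - b * c = 1) (z : ℍ) : (c : ℂ) * z + d ≠ 0 := by
  intro h0
  have him : (c : ℝ) * z.im = 0 := by
    have := congrArg Complex.im h0
    simpa using this
  have hc : (c : ℝ) = 0 := by
    rcases mul_eq_zero.1 him with h1 | h1
    · exact h1
    · exact absurd h1 z.im_pos.ne'
  have hc' : c = 0 := by exact_mod_cast hc
  subst hc'
  have hd : (d : ℂ) = 0 := by simpa using h0
  have hd' : d = 0 := by exact_mod_cast hd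
  subst hd'
  simp at h

lemma pne : (p : ℂ) ≠ 0 := by exact_mod_cast hp.out.ne_zero

lemma val_cast (k : ZMod p) : (((k.val : ℕ) : ℤ) : ZMod p) = k := by
  have hp0 : NeZero p := ⟨hp.out.ne_zero⟩
  rw [Int.cast_natCast, ZMod.natCast_zmod_val]

lemma dvd_of {n : ℤ} (h : (n : ZMod p) = 0) : ∃ m : ℤ, n = p * m := by
  rw [ZMod.intCast_zmod_eq_zero_iff_dvd] at h
  exact h

lemma step {w : ℤ} {F : ℍ → ℂ} (hF : Inv w F) {a b c d : ℤ} (h : a * d - b * c = 1) {z z' : ℍ}
    (hz : (z' : ℂ) * (c * z + d) = a * z + b) (v : Option (ZMod p)) :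
    Ph p w F z' v = ((c : ℂ) * z + d) ^ w * Ph p w F z (sg p a b c d v) := by
  have hpc : (p : ℂ) ≠ 0 := pne
  rcases v with _ | j
  · unfold sg
    dsimp only
    split_ifs with h1
    · -- p ∣ c
      obtain ⟨m, hm⟩ := dvd_of h1
      unfold Ph
      dsimp only
      have := hF a (p * b) m d (by rw [← h, hm]; ring) (mulP p z) (mulP p z') (by
        rw [coe_mulP, coe_mulP]
        have hm' : (c : ℂ) = p * m := by rw [hm]; push_cast; ring
        rw [hm'] at hz
        push_cast
        linear_combination (p : ℂ) * hz)
      rw [this, coe_mulP]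
      have hm' : (c : ℂ) = p * m := by rw [hm]; push_cast; ring
      rw [hm']
      congr 2
      ring
    · set k : ZMod p := (d : ZMod p) / c with hk
      have hk1 : ((d - (k.val : ℕ) * c : ℤ) : ZMod p) = 0 := by
        push_cast
        rw [ZMod.natCast_zmod_val, hk]
        field_simp
        ring
      obtain ⟨m, hm⟩ := dvd_of hk1
      unfold Ph
      dsimp only
      have hm' : (d : ℂ) - k.val * c = p * m := by
        have := congrArg (fun n : ℤ => (n : ℂ)) hm
        push_cast at this
        exact this
      have e1 : ((c : ℂ) * (divP p k.val z) + m) = (c * z + d) / p := by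
        rw [coe_divP]
        field_simp
        linear_combination -hm'
      have := hF (p * a) (b - k.val * a) c m (by
        rw [← h]
        linear_combination (-a) * hm) (divP p k.val z) (mulP p z') (by
        rw [e1, coe_mulP, coe_divP]
        push_cast
        field_simp
        linear_combination hz)
      rw [this, e1, div_zpow, zpow_neg]
      field_simp
  · unfold sg
    dsimp only
    split_ifs with h1
    · have h2 : ((a + (j.val : ℕ) * c : ℤ) : ZMod p) = 0 := by
        push_cast
        rw [ZMod.natCast_zmod_val]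
        exact h1
      obtain ⟨m, hm⟩ := dvd_of h2
      unfold Ph
      dsimp only
      have hm' : (a : ℂ) + j.val * c = p * m := by
        have := congrArg (fun n : ℤ => (n : ℂ)) hm
        push_cast at this
        exact this
      have e1 : ((c : ℂ) * (mulP p z) + (p * d : ℤ)) = p * (c * z + d) := by
        rw [coe_mulP]
        push_cast
        ring
      have := hF m (b + j.val * d) c (p * d) (by
        rw [← h]
        linear_combination (-d) * hm) (mulP p z) (divP p j.val z') (by
        rw [e1, coe_mulP, coe_divP]
        push_cast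
        field_simp
        linear_combination hz + (z : ℂ) * hm')
      rw [this, e1, mul_zpow, zpow_neg]
      have hpw : (p : ℂ) ^ w ≠ 0 := zpow_ne_zero _ hpc
      field_simp
    · set k : ZMod p := ((b : ZMod p) + j * d) / (a + j * c) with hk
      have hkk : k * (a + j * c) = b + j * d := by
        rw [hk]
        field_simp
      have hk1 : ((b + (j.val : ℕ) * d - (k.val : ℕ) * (a + (j.val : ℕ) * c) : ℤ) : ZMod p) = 0 := by
        push_cast
        rw [ZMod.natCast_zmod_val, ZMod.natCast_zmod_val, hkk, sub_self]
      obtain ⟨m, hm⟩ := dvd_of hk1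
      unfold Ph
      dsimp only
      have hm' : (b : ℂ) + j.val * d - k.val * (a + j.val * c) = p * m := by
        have := congrArg (fun n : ℤ => (n : ℂ)) hm
        push_cast at this
        exact this
      have e1 : (((p * c : ℤ) : ℂ) * (divP p k.val z) + (d - k.val * c : ℤ)) = c * z + d := by
        rw [coe_divP]
        push_cast
        field_simp
        ring
      have := hF (a + j.val * c) m (p * c) (d - k.val * c) (by
        rw [← h]
        linear_combination c * hm) (divP p k.val z) (divP p j.val z') (by
        rw [e1, coe_divP, coe_divP]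
        push_cast
        field_simp
        linear_combination hz + hm')
      rw [this, e1]
      ring

theorem main : HInv := by
  intro p hp w F hF a b c d h z z' hz
  have h1 := Ph_sum (p := p) w F z'
  have h2 := Ph_sum (p := p) w F z
  show F (mulP p z') + (p : ℂ) ^ (-w) * ∑ b ∈ Finset.range p, F (divP p b z') =
    ((c : ℂ) * z + d) ^ w * (F (mulP p z) + (p : ℂ) ^ (-w) * ∑ b ∈ Finset.range p, F (divP p b z))
  rw [← h1, ← h2, Finset.mul_sum]
  have hb : Function.Bijective (sg p a b c d) := by
    have hp0 : NeZero p := ⟨hp.out.ne_zero⟩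
    exact Finite.injective_iff_bijective.1 (sg_inj h)
  rw [Finset.sum_congr rfl fun v _ => step hF h hz v]
  exact hb.sum_comp (fun v => ((c : ℂ) * z + d) ^ w * Ph p w F z v)

end Pool.Agent.H109.OCHInv
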