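import Pool.Agent.H109.Types

/-!
The pair theorem: in type (b) there is a good decomposition into two spanned rectangles.
-/

set_option autoImplicit false

namespace Pool.Agent.H109

open Rc

variable {A B C D B' B1 B2 DV DW : Finset (ℤ × ℤ)} {P Q R X Y P' M M1 M2 V W : Rc} {c z : ℤ × ℤ}

theorem near_iff' : Near P Q ↔
    (Q.x1 - P.x2 ≤ 2 ∧ P.x1 - Q.x2 ≤ 2 ∧ Q.y1 - P.y2 ≤ 2 ∧ P.y1 - Q.y2 ≤ 2 ∧
      (Q.x1 - P.x2) + (Q.y1 - P.y2) ≤ 2 ∧ (Q.x1 - P.x2) + (P.y1 - Q.y2) ≤ 2 ∧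
      (P.x1 - Q.x2) + (Q.y1 - P.y2) ≤ 2 ∧ (P.x1 - Q.x2) + (P.y1 - Q.y2) ≤ 2) := by
  unfold Near
  omega

theorem near_bl (h1 : P.x1 ≤ Q.x2) (h2 : P.y1 ≤ Q.y2) :
    Near P Q ↔ (Q.x1 - P.x2 ≤ 2 ∧ Q.y1 - P.y2 ≤ 2 ∧ (Q.x1 - P.x2) + (Q.y1 - P.y2) ≤ 2) := by
  rw [near_iff']
  omega

theorem near_tr (h1 : Q.x1 ≤ P.x2) (h2 : Q.y1 ≤ P.y2) :
    Near P Q ↔ (P.x1 - Q.x2 ≤ 2 ∧ P.y1 - Q.y2 ≤ 2 ∧ (P.x1 - Q.x2) + (P.y1 - Q.y2) ≤ 2) := by
  rw [near_iff']
  omega

/-- A decomposition of a type (b) set into two spanned rectangles. -/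
structure Pr (A : Finset (ℤ × ℤ)) (R : Rc) (B1 : Finset (ℤ × ℤ)) (M1 : Rc) (B2 : Finset (ℤ × ℤ))
    (M2 : Rc) (DV : Finset (ℤ × ℤ)) (V : Rc) (DW : Finset (ℤ × ℤ)) (W : Rc) : Prop where
  un : DV ∪ DW = A
  dj : Disjoint DV DW
  v : IS DV V
  w : IS DW W
  nr : Near V W
  c2 : A \ B2 ⊆ DV
  c1 : A \ B1 ⊆ DW
  vx : V.x1 = R.x1
  vy : V.y1 = R.y1
  wx : W.x2 = R.x2
  wy : W.y2 = R.y2
  vm : Sub V M1
  wm : Sub W M2

/-- all rectangles spanned by proper subsets of `D` are far from `W` -/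
def Strict (D : Finset (ℤ × ℤ)) (W : Rc) : Prop := ∀ E, E ⊂ D → ∀ Y, IS E Y → ¬ Near Y W

/-- removing one site leaves a rectangle with the same bottom left corner, far from `W` -/
def SgV (C D : Finset (ℤ × ℤ)) (V W : Rc) : Prop :=
  ∃ v ∈ D, ∃ V', IS (D.erase v) V' ∧ ¬ Near V' W ∧ V'.x1 = V.x1 ∧ V'.y1 = V.y1 ∧ C ⊆ D.erase v

/-- removing one site leaves a rectangle with the same top right corner, far from `V` -/
def SgW (C D : Finset (ℤ × ℤ)) (W V : Rc) : Prop :=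
  ∃ w ∈ D, ∃ W', IS (D.erase w) W' ∧ ¬ Near W' V ∧ W'.x2 = W.x2 ∧ W'.y2 = W.y2 ∧ C ⊆ D.erase w

/-- `W` is of type (b) and its top right rectangle is far from `V` and meets at most one column and
one row of `V` -/
def TbW (C D : Finset (ℤ × ℤ)) (W V : Rc) : Prop :=
  ∃ E1 Y1 E2 Y2, TB D W E1 Y1 E2 Y2 ∧ ¬ Near Y2 V ∧ V.x2 ≤ Y2.x1 ∧ V.y2 ≤ Y2.y1 ∧ C ⊆ E2

theorem twowall {b p s q k1 k2 l1 l2 m1 m2 n1 n2 : ℤ}
    (f : 3 ≤ b - p ∨ 3 ≤ s - q ∨ 3 ≤ (b - p) + (s - q))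
    (f1 : 3 ≤ k1 - p ∨ 3 ≤ l1 - q ∨ 3 ≤ (k1 - p) + (l1 - q))
    (f2 : 3 ≤ m1 - p ∨ 3 ≤ n1 - q ∨ 3 ≤ (m1 - p) + (n1 - q))
    (g1 : 3 ≤ b - k2 ∨ 3 ≤ s - l2 ∨ 3 ≤ (b - k2) + (s - l2))
    (g2 : 3 ≤ b - m2 ∨ 3 ≤ s - n2 ∨ 3 ≤ (b - m2) + (s - n2))
    (hk : k1 ≤ k2) (hl : l1 ≤ l2) (hm : m1 ≤ m2) (hn : n1 ≤ n2)
    (nr1 : m1 - k2 ≤ 2) (nr2 : k1 - m2 ≤ 2)
    (nv1 : min k1 m1 - p ≤ 2) (nv2 : min l1 n1 - q ≤ 2)
    (nv3 : (min k1 m1 - p) + (min l1 n1 - q) ≤ 2)
    (ny : s - max q (max l2 n2) ≤ 2) :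
    p ≤ b := by
  by_contra hc
  have h1 : q + 3 ≤ s := by clear f1 f2 g1 g2 nv1 nv2 nv3 ny; omega
  have h2 : s ≤ max l2 n2 + 2 := by clear f1 f2 g1 g2 nv1 nv2 nv3; omega
  rcases le_total l2 n2 with h | h
  · have h3 : s ≤ n2 + 2 := by clear f1 f2 g1 g2 nv1 nv2 nv3; omega
    have h4 : m2 + 1 ≤ b := by clear f1 f2 g1 nv1 nv2 nv3; omega
    have h5 : q + 3 ≤ n1 := by clear f1 g1 nv1 nv2 nv3; omega
    have h6 : p < k1 := by clear f2 g1; omega
    omega
  · have h3 : s ≤ l2 + 2 := by clear f1 f2 g1 g2 nv1 nv2 nv3; omega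
    have h4 : k2 + 1 ≤ b := by clear f1 f2 g2 nv1 nv2 nv3; omega
    have h5 : q + 3 ≤ l1 := by clear f2 g2 nv1 nv2 nv3; omega
    have h6 : p < m1 := by clear f1 g2; omega
    omega

/-- a spanned rectangle containing sites outside `B1` and touching the left side is `R` -/
theorem TB.eq_R (h : Mn A R) (ht : TB A R B1 M1 B2 M2) (hC : C ⊆ A) (hQ : IS C Q)
    (h1 : Q.x1 = R.x1) (h2 : Q.x2 = R.x2) : Q = R := by
  by_contra hne
  have e1 := ht.r1
  have e2 := ht.l2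
  rcases ht.only h hC hQ hne with hs | hs <;> unfold Sub at hs <;> omega

theorem Pr.dvA (hp : Pr A R B1 M1 B2 M2 DV V DW W) : DV ⊆ A := by
  rw [← hp.un]; exact Finset.subset_union_left

theorem Pr.dwA (hp : Pr A R B1 M1 B2 M2 DV V DW W) : DW ⊆ A := by
  rw [← hp.un]; exact Finset.subset_union_right

/-- constructor of `Pr` -/
theorem Pr.mk' (h : Mn A R) (ht : TB A R B1 M1 B2 M2) (un : DV ∪ DW = A) (dj : Disjoint DV DW)
    (v : IS DV V) (w : IS DW W) (nr : Near V W) (c2 : A \ B2 ⊆ DV) (c1 : A \ B1 ⊆ DW) :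
    Pr A R B1 M1 B2 M2 DV V DW W := by
  have hVA : DV ⊆ A := by rw [← un]; exact Finset.subset_union_left
  have hWA : DW ⊆ A := by rw [← un]; exact Finset.subset_union_right
  have hV1 : DV ⊆ B1 := by
    intro x hx
    by_contra hx'
    exact (Finset.disjoint_left.mp dj hx) (c1 (Finset.mem_sdiff.mpr ⟨hVA hx, hx'⟩))
  have hW2 : DW ⊆ B2 := by
    intro x hx
    by_contra hx'
    exact (Finset.disjoint_left.mp dj (c2 (Finset.mem_sdiff.mpr ⟨hWA hx, hx'⟩))) hx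
  have vm := v.mono ht.m1.is hV1
  have wm := w.mono ht.m2.is hW2
  obtain ⟨X2, hX2, -, hR2, -⟩ := ht.m2.compl h
  obtain ⟨X1, hX1, -, hR1, -⟩ := ht.m1.compl h
  have s2 := hX2.mono v c2
  have s1 := hX1.mono w c1
  have vR := v.mono h.1 hVA
  have wR := w.mono h.1 hWA
  have e1 : min M2.x1 X2.x1 = R.x1 := by rw [hR2]; rfl
  have e2 : min M2.y1 X2.y1 = R.y1 := by rw [hR2]; rfl
  have e3 : max M1.x2 X1.x2 = R.x2 := by rw [hR1]; rfl
  have e4 : max M1.y2 X1.y2 = R.y2 := by rw [hR1]; rfl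
  have := ht.l2
  have := ht.b2
  have := ht.r1
  have := ht.t1
  unfold Sub at s1 s2 vR wR
  exact ⟨un, dj, v, w, nr, c2, c1, by omega, by omega, by omega, by omega, vm, wm⟩

theorem pair_start (h : Mn A R) (ht : TB A R B1 M1 B2 M2) :
    ∃ DV V DW W, Pr A R B1 M1 B2 M2 DV V DW W ∧ (Strict DV W ∨ SgV (A \ B2) DV V W) := by
  obtain ⟨X2, hX2, hn, hR2, hfar⟩ := ht.m2.compl h
  refine ⟨A \ B2, X2, B2, M2, Pr.mk' h ht ?_ ?_ hX2 ht.m2.is (near_symm hn) subset_rfl ?_, Or.inl ?_⟩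
  · exact Finset.sdiff_union_of_subset ht.m2.sub
  · exact Finset.sdiff_disjoint
  · intro x hx
    rw [Finset.mem_sdiff] at hx
    have := hx.1
    rw [← ht.cover h, Finset.mem_union] at this
    exact this.resolve_left hx.2
  · intro E hE Y hY hnr
    exact hfar E hE Y hY (near_symm hnr)

/-- First part of the step: the structure of `W`. -/
theorem pair_step1 (h : Mn A R) (ht : TB A R B1 M1 B2 M2) (hp : Pr A R B1 M1 B2 M2 DV V DW W)
    (hns : ¬ Strict DW V) (hnsg : ¬ SgW (A \ B1) DW W V) :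
    ∃ E1 Y1 E2 Y2, TB DW W E1 Y1 E2 Y2 ∧ ¬ Near Y2 V ∧ A \ B1 ⊆ E2 := by
  have hMW : Mn DW W := h.sub hp.dwA hp.w
  unfold Strict at hns
  push Not at hns
  obtain ⟨D, hD, Y, hY, hnYV⟩ := hns
  have hYW : Y ≠ W := by
    rintro rfl
    exact hMW.2 D hD hY
  obtain ⟨Eb, Yb, hmb, hsb⟩ := hMW.exists_mxp hD.1 hY hYW
  have hnb : Near Yb V := near_mono hnYV hsb (Sub.refl _)
  have hEbA : Eb ⊆ A := hmb.sub.trans hp.dwA
  have wfV := hp.v.wf
  have wfW := hp.w.wf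
  have wfR := h.1.wf
  have hVR : Sub V R := hp.v.mono h.1 hp.dvA
  -- `Yb` is inside `M1`
  have hYb1 : Sub Yb M1 := by
    have his := IS.mg hp.v hmb.is (near_symm hnb)
    have hsub : DV ∪ Eb ⊆ A := Finset.union_subset hp.dvA hEbA
    have hne : box V Yb ≠ R := by
      intro e
      rw [e] at his
      have e2 := h.eq_of_IS_R hsub his
      apply hmb.ne
      have : Eb = DW := by
        apply Finset.Subset.antisymm hmb.sub
        intro x hx
        have hxA := hp.dwA hx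
        rw [← e2, Finset.mem_union] at hxA
        rcases hxA with hx' | hx'
        · exact (Finset.disjoint_left.mp hp.dj hx' hx).elim
        · exact hx'
      rw [this] at hmb
      exact hmb.is.uniq hp.w
    have hs1 := sub_box_left V Yb
    have hs2 := sub_box_right V Yb
    rcases ht.only h hsub his hne with hs | hs
    · exact hs2.trans hs
    · exfalso
      have := hs1.trans hs
      have e1 := hp.vx
      have e2 := ht.l2
      unfold Sub at this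
      omega
  have hEb1 : Eb ⊆ B1 := h.subset_of_sub hEbA ht.m1.sub hmb.is ht.m1.is hYb1
  obtain ⟨X, hX, hnX, hWX, hfarX⟩ := hmb.compl hMW
  have hXW : X ≠ W := by
    intro e
    rw [e] at hX
    have e2 := hMW.eq_of_IS_R Finset.sdiff_subset hX
    obtain ⟨b, hb⟩ := hmb.is.nonempty
    have hb' := hmb.sub hb
    rw [← e2] at hb'
    exact (Finset.mem_sdiff.mp hb').2 hb
  obtain ⟨Ea, Ya, hma, hsa⟩ := hMW.exists_mxp Finset.sdiff_subset hX hXW
  have hEaA : Ea ⊆ A := hma.sub.trans hp.dwA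
  have hXa : DW \ Eb ⊆ Ea := hMW.subset_of_sub Finset.sdiff_subset hma.sub hX hma.is hsa
  have hne : Yb ≠ Ya := by
    rintro rfl
    obtain ⟨x, hx⟩ := hX.nonempty
    exact (Finset.mem_sdiff.mp hx).2 (hMW.mem_of hmb.sub hmb.is (Finset.mem_sdiff.mp hx).1
      ((hX.mem x hx).sub hsa))
  have hc1 : A \ B1 ⊆ Ea := by
    intro x hx
    apply hXa
    refine Finset.mem_sdiff.mpr ⟨hp.c1 hx, fun hx' => ?_⟩
    exact (Finset.mem_sdiff.mp hx).2 (hEb1 hx')
  obtain ⟨X1, hX1, -, hR1, -⟩ := ht.m1.compl h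
  have s1 : Sub X1 Ya := hX1.mono hma.is hc1
  have e3 : max M1.x2 X1.x2 = R.x2 := by rw [hR1]; rfl
  have e4 : max M1.y2 X1.y2 = R.y2 := by rw [hR1]; rfl
  have r1 := ht.r1
  have t1 := ht.t1
  have sW := hma.subR hMW
  have sWR : Sub W R := hp.w.mono h.1 hp.dwA
  have ax : Ya.x2 = W.x2 := by unfold Sub at s1 sW sWR; have := hp.wx; omega
  have ay : Ya.y2 = W.y2 := by unfold Sub at s1 sW sWR; have := hp.wy; omega
  -- `Ya` is far from `V`
  have hfar : ¬ Near Ya V := by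
    intro hn
    have his := IS.mg hp.v hma.is (near_symm hn)
    have hsub : DV ∪ Ea ⊆ A := Finset.union_subset hp.dvA hEaA
    have e : box V Ya = R := by
      refine ht.eq_R h hsub his ?_ ?_
      · have := hp.vx
        have := hp.wx
        unfold Sub at sW sWR
        unfold box; simp only; omega
      · have := hp.wx
        unfold Sub at hVR
        unfold box; simp only; omega
    rw [e] at his
    have e2 := h.eq_of_IS_R hsub his
    apply hma.ne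
    have : Ea = DW := by
      apply Finset.Subset.antisymm hma.sub
      intro x hx
      have hxA := hp.dwA hx
      rw [← e2, Finset.mem_union] at hxA
      rcases hxA with hx' | hx'
      · exact (Finset.disjoint_left.mp hp.dj hx' hx).elim
      · exact hx'
    rw [this] at hma
    exact hma.is.uniq hp.w
  -- `Ya` misses the left and the bottom side of `W`
  have ny : Ya.y1 ≠ W.y1 := by
    intro e
    obtain ⟨z, hz, e1, e2, -⟩ := hma.full_height hMW e ay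
    exact hnsg ⟨z, hz, Ya, by rw [e1]; exact hma.is, hfar, ax, ay, by rw [e1]; exact hc1⟩
  have nx : Ya.x1 ≠ W.x1 := by
    intro e
    obtain ⟨z, hz, e1, e2, -⟩ := hma.full_width hMW e ax
    exact hnsg ⟨z, hz, Ya, by rw [e1]; exact hma.is, hfar, ax, ay, by rw [e1]; exact hc1⟩
  obtain ⟨-, hbox⟩ := hmb.near hMW hma hne
  have b1 : min Yb.x1 Ya.x1 = W.x1 := by rw [← hbox]; rfl
  have b2 : min Yb.y1 Ya.y1 = W.y1 := by rw [← hbox]; rfl
  have wx := hp.wx
  have wy := hp.wy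
  refine ⟨Eb, Yb, Ea, Ya, ⟨hmb, hma, ?_, ?_, ?_, ?_, ?_, ?_, ax, ay⟩, hfar, hc1⟩
  · omega
  · omega
  · unfold Sub at hYb1; omega
  · unfold Sub at hYb1; omega
  · unfold Sub at sW; omega
  · unfold Sub at sW; omega

/-- Second part of the step. -/
theorem pair_step2 (h : Mn A R) (ht : TB A R B1 M1 B2 M2) (hp : Pr A R B1 M1 B2 M2 DV V DW W)
    {Eb Ea : Finset (ℤ × ℤ)} {Yb Ya : Rc} (htW : TB DW W Eb Yb Ea Ya) (hfar : ¬ Near Ya V)
    (hc1 : A \ B1 ⊆ Ea) :
    (V.x2 ≤ Ya.x1 ∧ V.y2 ≤ Ya.y1) ∨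
    ∃ DV' V' DW' W', Pr A R B1 M1 B2 M2 DV' V' DW' W' ∧ SgV (A \ B2) DV' V' W' ∧
      DW'.card < DW.card := by
  have hMW : Mn DW W := h.sub hp.dwA hp.w
  have hEaA : Ea ⊆ A := htW.m2.sub.trans hp.dwA
  have wfV := hp.v.wf
  have wfW := hp.w.wf
  have wfR := h.1.wf
  have wfYa := htW.m2.is.wf
  have sWR : Sub W R := hp.w.mono h.1 hp.dwA
  have sYW : Sub Ya W := htW.m2.subR hMW
  have hZA : DW \ Ea ⊆ A := Finset.sdiff_subset.trans hp.dwA
  have hVZ : DV ∪ (DW \ Ea) ⊆ A := Finset.union_subset hp.dvA hZA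
  have dvEa : Disjoint DV Ea := Finset.disjoint_of_subset_right htW.m2.sub hp.dj
  -- the maximal rectangle `S` far from `Ya`
  obtain ⟨S, ⟨DS, hDS, hS⟩, ⟨hSfar, hVS⟩, -, hSmax⟩ := exists_max (DV ∪ (DW \ Ea))
    (fun Q => ¬ Near Ya Q ∧ Sub V Q) ⟨DV, Finset.subset_union_left, hp.v⟩ ⟨hfar, Sub.refl V⟩
  have hDSA : DS ⊆ A := hDS.trans hVZ
  have hDVS : DV ⊆ DS := h.subset_of_sub hp.dvA hDSA hp.v hS hVS
  have sSR : Sub S R := hS.mono h.1 hDSA
  have Sx : S.x1 = R.x1 := by have := hp.vx; unfold Sub at hVS sSR; omega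
  have Sy' : S.y1 = R.y1 := by have := hp.vy; unfold Sub at hVS sSR; omega
  have wfS := hS.wf
  set Z1 := (DW \ Ea) \ DS with hZ1
  have hZ1Z : Z1 ⊆ DW \ Ea := Finset.sdiff_subset
  have hZ1A : Z1 ⊆ A := hZ1Z.trans hZA
  have hUnion : DS ∪ Z1 = DV ∪ (DW \ Ea) := by
    ext x
    simp only [hZ1, Finset.mem_union, Finset.mem_sdiff]
    constructor
    · rintro (hx | ⟨hx, -⟩)
      · have := hDS hx
        simpa only [Finset.mem_union, Finset.mem_sdiff] using this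
      · exact Or.inr hx
    · rintro (hx | hx)
      · exact Or.inl (hDVS hx)
      · by_cases hxS : x ∈ DS
        · exact Or.inl hxS
        · exact Or.inr ⟨hx, hxS⟩
  have hAll : DS ∪ Z1 ∪ Ea = A := by
    rw [hUnion, ← hp.un]
    ext x
    simp only [Finset.mem_union, Finset.mem_sdiff]
    constructor
    · rintro ((hx | hx) | hx)
      · exact Or.inl hx
      · exact Or.inr hx.1
      · exact Or.inr (htW.m2.sub hx)
    · rintro (hx | hx)
      · exact Or.inl (Or.inl hx)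
      · by_cases hxE : x ∈ Ea
        · exact Or.inr hxE
        · exact Or.inl (Or.inr ⟨hx, hxE⟩)
  have dSEa : Disjoint DS Ea := by
    rw [Finset.disjoint_left]
    intro x hx hxE
    have := hDS hx
    rw [Finset.mem_union, Finset.mem_sdiff] at this
    rcases this with h1 | h1
    · exact (Finset.disjoint_left.mp dvEa h1) hxE
    · exact h1.2 hxE
  -- rectangles containing `S` and `Ya`
  have big : ∀ C Q, C ⊆ A → IS C Q → Sub S Q → Sub Ya Q → Q = R := by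
    intro C Q hC hQ h1 h2
    have hQR := hQ.mono h.1 hC
    refine ht.eq_R h hC hQ ?_ ?_
    · unfold Sub at h1 hQR; omega
    · have := htW.r2
      have := hp.wx
      unfold Sub at h2 hQR; omega
  -- Fact (a)
  have facta : ∀ E K, E ⊆ Z1 → IS E K → Near S K → E = Z1 ∧ Near Ya (box S K) := by
    intro E K hE hK hn
    have hEA : E ⊆ A := hE.trans hZ1A
    have his := IS.mg hS hK hn
    have hsub : DS ∪ E ⊆ DV ∪ (DW \ Ea) := by
      rw [← hUnion]
      exact Finset.union_subset_union_right hE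
    have hnY : Near Ya (box S K) := by
      by_contra hnY
      have e := hSmax (box S K) ⟨_, hsub, his⟩ ⟨hnY, hVS.trans (sub_box_left _ _)⟩
        (sub_box_left _ _)
      obtain ⟨x, hx⟩ := hK.nonempty
      have h1 : Mem x S := by
        have := (hK.mem x hx).sub (sub_box_right S K)
        rwa [e] at this
      have h2 := h.mem_of hDSA hS (hEA hx) h1
      exact (Finset.mem_sdiff.mp (hE hx)).2 h2
    refine ⟨?_, hnY⟩
    have his2 := IS.mg his htW.m2.is (near_symm hnY)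
    have hsub2 : DS ∪ E ∪ Ea ⊆ A := Finset.union_subset (hsub.trans hVZ) hEaA
    have e := big _ _ hsub2 his2 ((sub_box_left _ _).trans (sub_box_left _ _)) (sub_box_right _ _)
    rw [e] at his2
    have e2 := h.eq_of_IS_R hsub2 his2
    apply Finset.Subset.antisymm hE
    intro x hx
    have hxA := hZ1A hx
    rw [← e2, Finset.mem_union, Finset.mem_union] at hxA
    rw [hZ1, Finset.mem_sdiff, Finset.mem_sdiff] at hx
    rcases hxA with (h1 | h1) | h1
    · exact (hx.2 h1).elim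
    · exact h1
    · exact (hx.1.2 h1).elim
  -- there is a rectangle near `S` spanned by `Z1`
  have hK1 : ∃ K1, IS Z1 K1 ∧ Near S K1 ∧ Near Ya (box S K1) := by
    by_contra hcon
    have hno : ∀ E K, E ⊆ Z1 → IS E K → ¬ Near S K := by
      intro E K hE hK hn
      obtain ⟨e, hnY⟩ := facta E K hE hK hn
      rw [e] at hK
      exact hcon ⟨K, hK, hn, hnY⟩
    by_cases hYK : ∃ E K, E ⊆ Z1 ∧ IS E K ∧ Near Ya K
    · obtain ⟨E, K, hE, hK, hn⟩ := hYK
      obtain ⟨e1, e2⟩ := htW.m2.eq_compl hMW (hE.trans hZ1Z) hK hn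
      have f1 : min Ya.x1 K.x1 = W.x1 := by rw [← e2]; rfl
      have f2 : min Ya.y1 K.y1 = W.y1 := by rw [← e2]; rfl
      have l2 := htW.l2
      have b2 := htW.b2
      have wfK := hK.wf
      have sKR : Sub K R := hK.mono h.1 (hE.trans hZ1A)
      have nVW := hp.nr
      have vx := hp.vx
      have vy := hp.vy
      refine hno E K hE hK (near_mono (P := V) (Q := K) ?_ hVS (Sub.refl _))
      unfold Sub at sKR sWR
      rw [near_bl (by omega) (by omega)] at nVW ⊢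
      omega
    · have hYK' : ∀ E K, E ⊆ Z1 → IS E K → ¬ Near Ya K := fun E K h1 h2 h3 =>
        hYK ⟨E, K, h1, h2, h3⟩
      obtain ⟨Z, hZ, hRZ⟩ := h.1.cover (fun Z => Z = S ∨ Z = Ya ∨ MxS Z1 Z) (by
        rintro Z Z' (rfl | rfl | h1) (rfl | rfl | h2) hn
        · rfl
        · exact (hSfar (near_symm hn)).elim
        · obtain ⟨E, hE, hZ'⟩ := h2.1
          exact (hno E Z' hE hZ' hn).elim
        · exact (hSfar hn).elim
        · rfl
        · obtain ⟨E, hE, hZ'⟩ := h2.1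
          exact (hYK' E Z' hE hZ' hn).elim
        · obtain ⟨E, hE, hZ'⟩ := h1.1
          exact (hno E Z hE hZ' (near_symm hn)).elim
        · obtain ⟨E, hE, hZ'⟩ := h1.1
          exact (hYK' E Z hE hZ' (near_symm hn)).elim
        · exact h1.eq_of_near h2 hn) (by
        intro c hc
        rw [← hAll, Finset.mem_union, Finset.mem_union] at hc
        rcases hc with (hc | hc) | hc
        · exact ⟨S, Or.inl rfl, hS.mem c hc⟩
        · obtain ⟨Q, hQ, hcQ⟩ := exists_MxS_mem hc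
          exact ⟨Q, Or.inr (Or.inr hQ), hcQ⟩
        · exact ⟨Ya, Or.inr (Or.inl rfl), htW.m2.is.mem c hc⟩)
      have key : ∀ C Q, C ⊆ A → IS C Q → Sub R Q → C = A := by
        intro C Q hC hQ hs
        have : Q = R := (hQ.mono h.1 hC).antisymm hs
        rw [this] at hQ
        exact h.eq_of_IS_R hC hQ
      obtain ⟨a, ha⟩ := htW.m2.is.nonempty
      obtain ⟨v, hv⟩ := hp.v.nonempty
      rcases hZ with rfl | rfl | hZ
      · have := key _ _ hDSA hS hRZ
        exact (Finset.disjoint_left.mp dSEa (this ▸ hEaA ha)) ha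
      · have := key _ _ hEaA htW.m2.is hRZ
        exact (Finset.disjoint_left.mp dvEa hv) (this ▸ hp.dvA hv)
      · obtain ⟨E, hE, hZ'⟩ := hZ.1
        have := key _ _ (hE.trans hZ1A) hZ' hRZ
        have hv' := hE (this ▸ hp.dvA hv)
        exact (Finset.mem_sdiff.mp hv').2 (hDVS hv)
  obtain ⟨K1, hK1, hnSK, hnYK⟩ := hK1
  have sK1R : Sub K1 R := hK1.mono h.1 hZ1A
  have wfK1 := hK1.wf
  by_cases hcard : 2 ≤ Z1.card
  · left
    have hMK : Mn Z1 K1 := h.sub hZ1A hK1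
    obtain ⟨D, E, K, L, hD, hE, -, -, hK, hL, hn, hKe⟩ := hMK.split hcard
    have far1 : ¬ Near S K := fun hn' => hD.ne (facta D K hD.1 hK hn').1
    have far2 : ¬ Near S L := fun hn' => hE.ne (facta E L hE.1 hL hn').1
    have far3 : ¬ Near K Ya := fun hn' => by
      have := (htW.m2.eq_compl hMW (hD.1.trans hZ1Z) hK (near_symm hn')).1
      exact hD.2 (by rw [this]; exact hZ1Z)
    have far4 : ¬ Near L Ya := fun hn' => by
      have := (htW.m2.eq_compl hMW (hE.1.trans hZ1Z) hL (near_symm hn')).1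
      exact hE.2 (by rw [this]; exact hZ1Z)
    have far5 : ¬ Near S Ya := fun hn' => hSfar (near_symm hn')
    have near6 : Near (box S K1) Ya := near_symm hnYK
    have wfK := hK.wf
    have wfL := hL.wf
    have sKR : Sub K R := hK.mono h.1 (hD.1.trans hZ1A)
    have sLR : Sub L R := hL.mono h.1 (hE.1.trans hZ1A)
    have vx := hp.wx
    have vy := hp.wy
    have r2 := htW.r2
    have t2 := htW.t2
    have e1 : K1.x1 = min K.x1 L.x1 := by rw [hKe]; rfl
    have e2 : K1.x2 = max K.x2 L.x2 := by rw [hKe]; rfl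
    have e3 : K1.y1 = min K.y1 L.y1 := by rw [hKe]; rfl
    have e4 : K1.y2 = max K.y2 L.y2 := by rw [hKe]; rfl
    have g1 : (box S K1).x1 = min S.x1 K1.x1 := rfl
    have g2 : (box S K1).x2 = max S.x2 K1.x2 := rfl
    have g3 : (box S K1).y1 = min S.y1 K1.y1 := rfl
    have g4 : (box S K1).y2 = max S.y2 K1.y2 := rfl
    unfold Sub at sKR sLR sYW sWR sK1R
    rw [near_bl (by omega) (by omega)] at far1 far2 far3 far4 far5 near6 hnSK
    rw [near_iff'] at hn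
    rw [g2, g4, e2, e4] at near6
    rw [e1, e3] at hnSK
    have a1 : ¬ (Ya.x1 - S.x2 ≤ 2 ∧ Ya.y1 - S.y2 ≤ 2 ∧ (Ya.x1 - S.x2) + (Ya.y1 - S.y2) ≤ 2) := far5
    have res1 : S.x2 ≤ Ya.x1 := by
      refine twowall (b := Ya.x1) (p := S.x2) (s := Ya.y1) (q := S.y2) (k1 := K.x1) (k2 := K.x2)
        (l1 := K.y1) (l2 := K.y2) (m1 := L.x1) (m2 := L.x2) (n1 := L.y1) (n2 := L.y2)
        ?_ ?_ ?_ ?_ ?_ wfK.1 wfK.2 wfL.1 wfL.2 hn.1 hn.2.1 hnSK.1 hnSK.2.1 hnSK.2.2 near6.2.1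
      · clear far1 far2 far3 far4 near6 hnSK; omega
      · clear far5 far2 far3 far4 near6 hnSK; omega
      · clear far1 far5 far3 far4 near6 hnSK; omega
      · clear far1 far2 far5 far4 near6 hnSK; omega
      · clear far1 far2 far3 far5 near6 hnSK; omega
    have res2 : S.y2 ≤ Ya.y1 := by
      refine twowall (b := Ya.y1) (p := S.y2) (s := Ya.x1) (q := S.x2) (k1 := K.y1) (k2 := K.y2)
        (l1 := K.x1) (l2 := K.x2) (m1 := L.y1) (m2 := L.y2) (n1 := L.x1) (n2 := L.x2)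
        ?_ ?_ ?_ ?_ ?_ wfK.2 wfK.1 wfL.2 wfL.1 hn.2.2.1 hn.2.2.2.1 hnSK.2.1 hnSK.1
        (by rw [add_comm]; exact hnSK.2.2) near6.1
      · clear far1 far2 far3 far4 near6 hnSK; omega
      · clear far5 far2 far3 far4 near6 hnSK; omega
      · clear far1 far5 far3 far4 near6 hnSK; omega
      · clear far1 far2 far5 far4 near6 hnSK; omega
      · clear far1 far2 far3 far5 near6 hnSK; omega
    unfold Sub at hVS
    exact ⟨by omega, by omega⟩
  · right
    have hc1' : Z1.card = 1 := by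
      have := hK1.nonempty.card_pos
      omega
    obtain ⟨z, hz⟩ := Finset.card_eq_one.mp hc1'
    have hzS : z ∉ DS := by
      have : z ∈ Z1 := by rw [hz]; simp
      exact (Finset.mem_sdiff.mp this).2
    have hDV' : DS ∪ Z1 ⊆ A := Finset.union_subset hDSA hZ1A
    have dj : Disjoint (DS ∪ Z1) Ea := by
      rw [Finset.disjoint_union_left]
      refine ⟨dSEa, ?_⟩
      rw [Finset.disjoint_left]
      intro x hx hxE
      exact (Finset.mem_sdiff.mp (hZ1Z hx)).2 hxE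
    have hpr : Pr A R B1 M1 B2 M2 (DS ∪ Z1) (box S K1) Ea Ya :=
      Pr.mk' h ht hAll dj (IS.mg hS hK1 hnSK) htW.m2.is (near_symm hnYK)
        (hp.c2.trans (hDVS.trans Finset.subset_union_left)) hc1
    refine ⟨DS ∪ Z1, box S K1, Ea, Ya, hpr, ?_, Finset.card_lt_card (htW.m2.ssub hMW)⟩
    have hers : (DS ∪ Z1).erase z = DS := by
      rw [hz]
      ext x
      simp only [Finset.mem_erase, Finset.mem_union, Finset.mem_singleton]
      constructor
      · rintro ⟨h1, h2 | h2⟩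
        · exact h2
        · exact (h1 h2).elim
      · intro hx
        exact ⟨fun e => hzS (e ▸ hx), Or.inl hx⟩
    refine ⟨z, ?_, S, ?_, fun hn => hSfar (near_symm hn), ?_, ?_, ?_⟩
    · rw [hz]; simp
    · rw [hers]; exact hS
    · rw [hpr.vx]; exact Sx
    · rw [hpr.vy]; exact Sy'
    · rw [hers]; exact hp.c2.trans hDVS

theorem pair_exists_aux (h : Mn A R) (ht : TB A R B1 M1 B2 M2) (n : ℕ) :
    ∀ DV V DW W, Pr A R B1 M1 B2 M2 DV V DW W → (Strict DV W ∨ SgV (A \ B2) DV V W) → DW.card = n →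
    ∃ DV V DW W, Pr A R B1 M1 B2 M2 DV V DW W ∧ (Strict DV W ∨ SgV (A \ B2) DV V W) ∧
      (Strict DW V ∨ SgW (A \ B1) DW W V ∨ TbW (A \ B1) DW W V) := by
  induction n using Nat.strong_induction_on with
  | _ n ih =>
    intro DV V DW W hp hV hn
    by_cases h1 : Strict DW V
    · exact ⟨DV, V, DW, W, hp, hV, Or.inl h1⟩
    by_cases h2 : SgW (A \ B1) DW W V
    · exact ⟨DV, V, DW, W, hp, hV, Or.inr (Or.inl h2)⟩
    obtain ⟨E1, Y1, E2, Y2, htW, hfar, hc1⟩ := pair_step1 h ht hp h1 h2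
    rcases pair_step2 h ht hp htW hfar hc1 with h3 | ⟨DV', V', DW', W', hp', hV', hlt⟩
    · exact ⟨DV, V, DW, W, hp, hV, Or.inr (Or.inr ⟨E1, Y1, E2, Y2, htW, hfar, h3.1, h3.2, hc1⟩)⟩
    · exact ih DW'.card (by omega) DV' V' DW' W' hp' (Or.inr hV') rfl

/-- PAIR THEOREM -/
theorem pair_exists (h : Mn A R) (ht : TB A R B1 M1 B2 M2) :
    ∃ DV V DW W, Pr A R B1 M1 B2 M2 DV V DW W ∧ (Strict DV W ∨ SgV (A \ B2) DV V W) ∧
      (Strict DW V ∨ SgW (A \ B1) DW W V ∨ TbW (A \ B1) DW W V) := by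
  obtain ⟨DV, V, DW, W, hp, hV⟩ := pair_start h ht
  exact pair_exists_aux h ht DW.card DV V DW W hp hV rfl

end Pool.Agent.H109
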