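import Pool.Agent.H109.Thin3

set_option autoImplicit false

namespace Pool.Agent.H109

open Rc

variable {A B C D : Finset (ℤ × ℤ)} {P Q R W : Rc} {c : ℤ × ℤ}

/-- two near sites -/
theorem h358_pair {a b : ℤ × ℤ} (h : Near (Rc.pt a) (Rc.pt b)) :
    IS {a, b} (box (Rc.pt a) (Rc.pt b)) := by
  have := IS.mg (IS.pt a) (IS.pt b) h
  rwa [← Finset.insert_eq] at this

theorem h358_triple {a b c : ℤ × ℤ} (h : Near (Rc.pt a) (Rc.pt b))
    (h' : Near (box (Rc.pt a) (Rc.pt b)) (Rc.pt c)) :
    IS {a, b, c} (box (box (Rc.pt a) (Rc.pt b)) (Rc.pt c)) := by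
  have := IS.mg (h358_pair h) (IS.pt c) h'
  have e : ({a, b} ∪ {c} : Finset (ℤ × ℤ)) = {a, b, c} := by
    ext x
    simp only [Finset.mem_union, Finset.mem_insert, Finset.mem_singleton]
    tauto
  rwa [e] at this

/-- the sites next to two adjacent sites of a row -/
theorem h358_adj (h : Mn A R) {m r e d i : ℤ} (he : e = 1 ∨ e = -1) (hd : d = 1 ∨ d = -1)
    (hq : (m, r) ∈ A) (hp : (m + e, r) ∈ A) (hs : (i, r + d) ∈ A) : i ≠ m + e ∧ i ≠ m := by
  constructor
  · rintro rfl
    have hn : Near (Rc.pt (m + e, r + d)) (Rc.pt (m, r)) := by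
      unfold Near Rc.pt; simp only
      rcases he with rfl | rfl <;> rcases hd with rfl | rfl <;> omega
    have hm := h.mem_of (B := {(m + e, r + d), (m, r)}) (by
      intro x hx
      simp only [Finset.mem_insert, Finset.mem_singleton] at hx
      rcases hx with rfl | rfl <;> assumption) (h358_pair hn) hp (by
      unfold Mem box Rc.pt; simp only
      rcases he with rfl | rfl <;> rcases hd with rfl | rfl <;> omega)
    simp only [Finset.mem_insert, Finset.mem_singleton, Prod.mk.injEq] at hm
    rcases he with rfl | rfl <;> rcases hd with rfl | rfl <;> omega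
  · rintro rfl
    have hn : Near (Rc.pt (i, r + d)) (Rc.pt (i + e, r)) := by
      unfold Near Rc.pt; simp only
      rcases he with rfl | rfl <;> rcases hd with rfl | rfl <;> omega
    have hm := h.mem_of (B := {(i, r + d), (i + e, r)}) (by
      intro x hx
      simp only [Finset.mem_insert, Finset.mem_singleton] at hx
      rcases hx with rfl | rfl <;> assumption) (h358_pair hn) hq (by
      unfold Mem box Rc.pt; simp only
      rcases he with rfl | rfl <;> rcases hd with rfl | rfl <;> omega)
    simp only [Finset.mem_insert, Finset.mem_singleton, Prod.mk.injEq] at hm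
    rcases he with rfl | rfl <;> rcases hd with rfl | rfl <;> omega

/-- in the presence of a site in the third column on the other side, the row is empty -/
theorem h358_three (h : Mn A R) {m r e d : ℤ} (he : e = 1 ∨ e = -1) (hd : d = 1 ∨ d = -1)
    (hq : (m, r) ∈ A) (hp : (m + e, r) ∈ A) (hz : (m - e, r - d) ∈ A) :
    (m - e, r + d) ∉ A := by
  intro hs
  have hn : Near (Rc.pt (m - e, r + d)) (Rc.pt (m - e, r - d)) := by
    unfold Near Rc.pt; simp only
    rcases he with rfl | rfl <;> rcases hd with rfl | rfl <;> omega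
  have hn' : Near (box (Rc.pt (m - e, r + d)) (Rc.pt (m - e, r - d))) (Rc.pt (m + e, r)) := by
    unfold Near box Rc.pt; simp only
    rcases he with rfl | rfl <;> rcases hd with rfl | rfl <;> omega
  have hm := h.mem_of (B := {(m - e, r + d), (m - e, r - d), (m + e, r)}) (by
      intro x hx
      simp only [Finset.mem_insert, Finset.mem_singleton] at hx
      rcases hx with rfl | rfl | rfl <;> assumption) (h358_triple hn hn') hq (by
      unfold Mem box Rc.pt; simp only
      rcases he with rfl | rfl <;> rcases hd with rfl | rfl <;> omega)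
  simp only [Finset.mem_insert, Finset.mem_singleton, Prod.mk.injEq] at hm
  rcases he with rfl | rfl <;> rcases hd with rfl | rfl <;> omega

/-- a wall with two sites -/
theorem h358_two (hw : R.x2 = R.x1 + 2) {a b : ℤ × ℤ} (ha : a ∈ A) (hb : b ∈ A)
    (h1 : a.1 = R.x1) (h2 : b.1 = R.x2) (h3 : a.2 = b.2) :
    ∃ W, Wall A R {a, b} W := by
  have hn : Near (Rc.pt a) (Rc.pt b) := by
    unfold Near Rc.pt; simp only; omega
  refine ⟨_, ?_, h358_pair hn, ?_, ?_⟩
  · intro x hx
    simp only [Finset.mem_insert, Finset.mem_singleton] at hx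
    rcases hx with rfl | rfl <;> assumption
  · unfold box Rc.pt; simp only; omega
  · unfold box Rc.pt; simp only; omega

/-- a wall with three sites -/
theorem h358_wall3 {m r e d : ℤ} (he : e = 1 ∨ e = -1) (hd : d = 1 ∨ d = -1)
    (h1 : R.x1 = m - 1) (h2 : R.x2 = m + 1)
    (hq : (m, r) ∈ A) (hp : (m + e, r) ∈ A) (hs : (m - e, r + d) ∈ A) :
    ∃ W, Wall A R {(m - e, r + d), (m, r), (m + e, r)} W := by
  have hn : Near (Rc.pt (m - e, r + d)) (Rc.pt (m, r)) := by
    unfold Near Rc.pt; simp only
    rcases he with rfl | rfl <;> rcases hd with rfl | rfl <;> omega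
  have hn' : Near (box (Rc.pt (m - e, r + d)) (Rc.pt (m, r))) (Rc.pt (m + e, r)) := by
    unfold Near box Rc.pt; simp only
    rcases he with rfl | rfl <;> rcases hd with rfl | rfl <;> omega
  refine ⟨_, ?_, h358_triple hn hn', ?_, ?_⟩
  · intro x hx
    simp only [Finset.mem_insert, Finset.mem_singleton] at hx
    rcases hx with rfl | rfl | rfl <;> assumption
  · unfold box Rc.pt; simp only
    rcases he with rfl | rfl <;> omega
  · unfold box Rc.pt; simp only
    rcases he with rfl | rfl <;> omega

theorem h358_min (h : Mn A R) : ∃ B W, Wall A R B W ∧ ∀ B' W', Wall A R B' W' →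
    B.card ≤ B'.card := by
  classical
  have hex : ∃ n, ∃ B W, Wall A R B W ∧ B.card = n :=
    ⟨A.card, A, R, ⟨subset_rfl, h.1, rfl, rfl⟩, rfl⟩
  obtain ⟨B, W, hW, hc⟩ := Nat.find_spec hex
  refine ⟨B, W, hW, fun B' W' hW' => ?_⟩
  rw [hc]
  exact Nat.find_min' hex ⟨B', W', hW', rfl⟩

/-- two sites in a common row of a wall of a minimal wall with at least four sites: the
neighbouring row outside is empty -/
theorem h358_row (h : Mn A R) (hw : R.x2 = R.x1 + 2)
    (hmin : ∀ B' W', Wall A R B' W' → 4 ≤ B'.card) {a b : ℤ × ℤ} (ha : a ∈ A) (hb : b ∈ A)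
    (hab : a ≠ b) (hr : a.2 = b.2) {d : ℤ} (hd : d = 1 ∨ d = -1) :
    ∀ c ∈ A, c.2 ≠ a.2 + d := by
  -- general position: `a` left of `b`
  have key : ∀ a b : ℤ × ℤ, a ∈ A → b ∈ A → a.1 < b.1 → a.2 = b.2 → ∀ c ∈ A, c.2 ≠ a.2 + d := by
    intro a b ha hb hlt hr c hc hc2
    have h1 := h.1.mem a ha
    have h2 := h.1.mem b hb
    have h3 := h.1.mem c hc
    unfold Mem at h1 h2 h3
    obtain ⟨a1, a2⟩ := a
    obtain ⟨b1, b2⟩ := b
    obtain ⟨c1, c2⟩ := c
    simp only at *
    subst hr
    subst hc2
    rcases lt_or_eq_of_le (show b1 ≤ a1 + 2 by omega) with h4 | h4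
    · have hb1 : b1 = a1 + 1 := by omega
      subst hb1
      rcases (show a1 = R.x1 ∨ a1 = R.x1 + 1 by omega) with h5 | h5
      · -- the middle one is `b`
        have k1 := h358_adj h (m := a1 + 1) (r := a2) (e := -1) (d := d) (i := c1) (Or.inr rfl) hd hb
          (by simpa using ha) hc
        have hc1 : c1 = a1 + 1 - (-1) := by omega
        subst hc1
        obtain ⟨W', hW'⟩ := h358_wall3 (A := A) (R := R) (m := a1 + 1) (r := a2) (e := -1) (d := d)
          (Or.inr rfl) hd (by omega) (by omega) hb (by simpa using ha) hc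
        have := hmin _ _ hW'
        have h6 := Finset.card_le_three (a := (a1 + 1 - (-1), a2 + d)) (b := (a1 + 1, a2))
          (c := (a1 + 1 + (-1), a2))
        omega
      · have k1 := h358_adj h (m := a1) (r := a2) (e := 1) (d := d) (i := c1) (Or.inl rfl) hd ha
          hb hc
        have hc1 : c1 = a1 - 1 := by omega
        subst hc1
        obtain ⟨W', hW'⟩ := h358_wall3 (A := A) (R := R) (m := a1) (r := a2) (e := 1) (d := d)
          (Or.inl rfl) hd (by omega) (by omega) ha hb hc
        have := hmin _ _ hW'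
        have h6 := Finset.card_le_three (a := (a1 - 1, a2 + d)) (b := (a1, a2))
          (c := (a1 + 1, a2))
        omega
    · obtain ⟨W', hW'⟩ := h358_two (A := A) hw (a := (a1, a2)) (b := (b1, a2)) ha hb
        (by simp only; omega) (by simp only; omega) rfl
      have := hmin _ _ hW'
      have h6 := Finset.card_le_two (a := (a1, a2)) (b := (b1, a2))
      omega
  rcases lt_trichotomy a.1 b.1 with h1 | h1 | h1
  · exact key a b ha hb h1 hr
  · exact absurd (Prod.ext h1 hr) hab
  · have := key b a hb ha h1 hr.symm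
    rwa [← hr] at this

theorem h358_card (h : Mn A R) (hw : Wall A R B W) :
    (A.card : ℤ) = B.card + (A.filter fun c => W.y2 < c.2).card +
      (A.filter fun c => c.2 < W.y1).card := by
  classical
  have hwf := hw.is.wf
  have hA : A = B ∪ (A.filter fun c => W.y2 < c.2) ∪ (A.filter fun c => c.2 < W.y1) := by
    ext c
    simp only [Finset.mem_union, Finset.mem_filter]
    constructor
    · intro hc
      by_cases h1 : W.y2 < c.2
      · exact Or.inl (Or.inr ⟨hc, h1⟩)
      by_cases h2 : c.2 < W.y1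
      · exact Or.inr ⟨hc, h2⟩
      refine Or.inl (Or.inl (h.mem_of hw.sub hw.is hc ?_))
      have h3 := h.1.mem c hc
      have h4 := hw.x1
      have h5 := hw.x2
      unfold Mem at *
      omega
    · rintro ((hc | hc) | hc)
      · exact hw.sub hc
      · exact hc.1
      · exact hc.1
  have hd1 : Disjoint B (A.filter fun c => W.y2 < c.2) := by
    rw [Finset.disjoint_left]
    intro c hc hc'
    rw [Finset.mem_filter] at hc'
    have := hw.is.mem c hc
    unfold Mem at this
    omega
  have hd2 : Disjoint (B ∪ (A.filter fun c => W.y2 < c.2)) (A.filter fun c => c.2 < W.y1) := by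
    rw [Finset.disjoint_left]
    intro c hc hc'
    rw [Finset.mem_filter] at hc'
    rw [Finset.mem_union, Finset.mem_filter] at hc
    rcases hc with hc | hc
    · have := hw.is.mem c hc
      unfold Mem at this
      omega
    · omega
  have h1 := congrArg Finset.card hA
  rw [Finset.card_union_of_disjoint hd2, Finset.card_union_of_disjoint hd1] at h1
  exact_mod_cast h1

theorem h358_case3 (h : Mn A R) (hw : R.x2 = R.x1 + 2) (hW : Wall A R B W)
    (hmin : ∀ B' W', Wall A R B' W' → 3 ≤ B'.card) (hB : B.card = 3) (hh : W.y2 = W.y1 + 1) :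
    (∀ c ∈ A, c.2 ≠ W.y2 + 1) ∨ (∀ c ∈ A, c.2 ≠ W.y1 - 1) := by
  classical
  have hx1 := hW.x1
  have hx2 := hW.x2
  obtain ⟨⟨a, ha, ha1⟩, ⟨b, hb, hb1⟩, -, -⟩ := hW.is.sides
  have htwo : ∀ a b, a ∈ B → b ∈ B → a.1 = R.x1 → b.1 = R.x2 → a.2 ≠ b.2 := by
    intro a b ha hb h1 h2 h3
    obtain ⟨W', hW'⟩ := h358_two (A := A) hw (hW.sub ha) (hW.sub hb) h1 h2 h3
    have := hmin _ _ hW'
    have h6 := Finset.card_le_two (a := a) (b := b)
    omega
  have hab : a ≠ b := by
    intro h1
    rw [h1] at ha1
    omega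
  obtain ⟨e, he, hea, heb⟩ : ∃ e ∈ B, e ≠ a ∧ e ≠ b := by
    have h1 : ({a, b} : Finset (ℤ × ℤ)).card < B.card := by
      rw [hB]
      have := Finset.card_le_two (a := a) (b := b)
      omega
    obtain ⟨e, he, he'⟩ := Finset.exists_mem_notMem_of_card_lt_card h1
    simp only [Finset.mem_insert, Finset.mem_singleton, not_or] at he'
    exact ⟨e, he, he'.1, he'.2⟩
  have hne := htwo a b ha hb (by omega) (by omega)
  have ma := hW.is.mem a ha
  have mb := hW.is.mem b hb
  have me := hW.is.mem e he
  unfold Mem at ma mb me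
  -- the column of `e`
  have hcol : e.1 = R.x1 + 1 := by
    by_contra hcon
    rcases (show e.1 = R.x1 ∨ e.1 = R.x2 by omega) with h1 | h1
    · have h2 := htwo e b he hb h1 (by omega)
      have h3 : e.2 ≠ a.2 := fun h3 => hea (Prod.ext (by omega) h3)
      omega
    · have h2 := htwo a e ha he (by omega) h1
      have h3 : e.2 ≠ b.2 := fun h3 => heb (Prod.ext (by omega) h3)
      omega
  have haA := hW.sub ha
  have hbA := hW.sub hb
  have heA := hW.sub he
  obtain ⟨a1, a2⟩ := a
  obtain ⟨b1, b2⟩ := b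
  obtain ⟨e1, e2⟩ := e
  simp only at *
  -- the general claim
  have claim : ∀ (ε d : ℤ), (ε = 1 ∨ ε = -1) → (d = 1 ∨ d = -1) → (e1 + ε, e2) ∈ A →
      (e1 - ε, e2 - d) ∈ A → ∀ c ∈ A, c.2 ≠ e2 + d := by
    intro ε d hε hd hp hz c hc hc2
    have h3 := h.1.mem c hc
    unfold Mem at h3
    obtain ⟨c1, c2⟩ := c
    simp only at *
    subst hc2
    have k1 := h358_adj h hε hd heA hp hc
    have hc1 : c1 = e1 - ε := by omega
    subst hc1
    exact h358_three h hε hd heA hp hz hc
  rcases (show e2 = a2 ∨ e2 = b2 by omega) with h1 | h1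
  · -- `p = a`, `ε = -1`
    have hp : (e1 + (-1), e2) ∈ A := by
      have : ((e1 + (-1), e2) : ℤ × ℤ) = (a1, a2) := by ext <;> simp only <;> omega
      rwa [this]
    rcases (show b2 = e2 - 1 ∨ b2 = e2 + 1 by omega) with h2 | h2
    · left
      have hz : (e1 - (-1), e2 - 1) ∈ A := by
        have : ((e1 - (-1), e2 - 1) : ℤ × ℤ) = (b1, b2) := by ext <;> simp only <;> omega
        rwa [this]
      have := claim (-1) 1 (Or.inr rfl) (Or.inl rfl) hp hz
      intro c hc hc2
      exact this c hc (by omega)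
    · right
      have hz : (e1 - (-1), e2 - (-1)) ∈ A := by
        have : ((e1 - (-1), e2 - (-1)) : ℤ × ℤ) = (b1, b2) := by ext <;> simp only <;> omega
        rwa [this]
      have := claim (-1) (-1) (Or.inr rfl) (Or.inr rfl) hp hz
      intro c hc hc2
      exact this c hc (by omega)
  · have hp : (e1 + 1, e2) ∈ A := by
      have : ((e1 + 1, e2) : ℤ × ℤ) = (b1, b2) := by ext <;> simp only <;> omega
      rwa [this]
    rcases (show a2 = e2 - 1 ∨ a2 = e2 + 1 by omega) with h2 | h2
    · left
      have hz : (e1 - 1, e2 - 1) ∈ A := by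
        have : ((e1 - 1, e2 - 1) : ℤ × ℤ) = (a1, a2) := by ext <;> simp only <;> omega
        rwa [this]
      have := claim 1 1 (Or.inl rfl) (Or.inl rfl) hp hz
      intro c hc hc2
      exact this c hc (by omega)
    · right
      have hz : (e1 - 1, e2 - (-1)) ∈ A := by
        have : ((e1 - 1, e2 - (-1)) : ℤ × ℤ) = (a1, a2) := by ext <;> simp only <;> omega
        rwa [this]
      have := claim 1 (-1) (Or.inl rfl) (Or.inr rfl) hp hz
      intro c hc hc2
      exact this c hc (by omega)

theorem t3_bound (h : Mn A R) (hw : R.x2 = R.x1 + 2) : 3 * (A.card : ℤ) ≤ 2 * R.h + 6 := by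
  classical
  obtain ⟨B, W, hW, hmin⟩ := h358_min h
  have hcard := h358_card h hW
  obtain ⟨u1, u2, -, -⟩ := wall_up h hW
  obtain ⟨d1, d2⟩ := wall_down h hW
  have hx1 := hW.x1
  have hx2 := hW.x2
  have hwf := hW.is.wf
  have hh : R.h = R.y2 - R.y1 + 1 := rfl
  have hBpos : 1 ≤ B.card := Finset.card_pos.mpr hW.is.nonempty
  rcases Nat.lt_or_ge B.card 3 with h2 | h3
  · -- at most two sites
    have : (B.card : ℤ) ≤ 2 := by exact_mod_cast Nat.lt_succ_iff.mp h2
    omega
  rcases Nat.lt_or_ge B.card 4 with h4 | h4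
  · have hB3 : B.card = 3 := by omega
    have hB3' : (B.card : ℤ) = 3 := by exact_mod_cast hB3
    rcases (show W.y2 = W.y1 ∨ W.y2 = W.y1 + 1 ∨ W.y1 + 2 ≤ W.y2 by omega) with h5 | h5 | h5
    · exfalso
      obtain ⟨⟨a, ha, ha1⟩, ⟨b, hb, hb1⟩, -, -⟩ := hW.is.sides
      have ma := hW.is.mem a ha
      have mb := hW.is.mem b hb
      unfold Mem at ma mb
      obtain ⟨W', hW'⟩ := h358_two (A := A) hw (hW.sub ha) (hW.sub hb) (by omega) (by omega)
        (by omega)
      have := hmin _ _ hW'
      have h6 := Finset.card_le_two (a := a) (b := b)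
      omega
    · rcases h358_case3 h hw hW (fun B' W' hW' => by have := hmin B' W' hW'; omega) hB3 h5 with
        h6 | h6
      · have := u2 h6
        omega
      · have := d2 h6
        omega
    · omega
  · obtain ⟨t, t', ht0, ht1, ht0', ht1', hta, htb, hb⟩ := min_wall_bound (h.sub hW.sub hW.is)
      (by omega) (fun D Q hD hQ hcon => by
        have hlt := Finset.card_lt_card hD
        have := hmin D Q ⟨hD.1.trans hW.sub, hQ, by omega, by omega⟩
        omega) h4
    have hWh : W.h = W.y2 - W.y1 + 1 := rfl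
    have hU : 3 * ((A.filter fun c => W.y2 < c.2).card : ℤ) ≤ 2 * (R.y2 - W.y2) + (1 - t) := by
      rcases (show t = 0 ∨ t = 1 by omega) with h5 | h5
      · rw [h5]; omega
      · obtain ⟨a, ha, b, hb, hab, h6, h7⟩ := hta h5
        have := h358_row h hw (fun B' W' hW' => by have := hmin B' W' hW'; omega) (hW.sub ha)
          (hW.sub hb) hab (by omega) (d := 1) (Or.inl rfl)
        have := u2 (fun c hc hc2 => this c hc (by omega))
        omega
    have hD : 3 * ((A.filter fun c => c.2 < W.y1).card : ℤ) ≤ 2 * (W.y1 - R.y1) + (1 - t') := by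
      rcases (show t' = 0 ∨ t' = 1 by omega) with h5 | h5
      · rw [h5]; omega
      · obtain ⟨a, ha, b, hb, hab, h6, h7⟩ := htb h5
        have := h358_row h hw (fun B' W' hW' => by have := hmin B' W' hW'; omega) (hW.sub ha)
          (hW.sub hb) hab (by omega) (d := -1) (Or.inr rfl)
        have := d2 (fun c hc hc2 => this c hc (by omega))
        omega
    omega

end Pool.Agent.H109
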