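import Pool.Agent.H109.Pair
import Pool.Agent.H109.T3
import Pool.Agent.H109.Arith

/-!
The potential `lam` and the inductive statement `Good`.
-/

set_option autoImplicit false

namespace Pool.Agent.H109

open Rc

/-- the potential -/
def lam (A : Finset (ℤ × ℤ)) (R : Rc) : ℤ := 2 * (R.w + 3) * (R.h + 3) - 10 - 15 * (A.card : ℤ)

/-- the inductive statement -/
structure Good (A : Finset (ℤ × ℤ)) (R : Rc) : Prop where
  a0 : 2 ≤ R.w → 2 ≤ R.h → 0 ≤ lam A R
  a5 : 3 ≤ R.w → 3 ≤ R.h → 4 ≤ R.w ∨ 4 ≤ R.h → 5 ≤ lam A R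
  nb : ∀ B1 M1 B2 M2, TB A R B1 M1 B2 M2 →
    NB (lam A R) (R.x2 - M1.x2) (M2.y1 - R.y1) (M2.x1 - R.x1) (R.y2 - M1.y2) R.w R.h ∧
    (2 * (R.y2 - M1.y2) + 1 ≤ lam A R ∨ 2 ≤ M1.h) ∧
    (2 * (R.x2 - M1.x2) + 1 ≤ lam A R ∨ 2 ≤ M1.w) ∧
    (2 * (M2.y1 - R.y1) + 1 ≤ lam A R ∨ 2 ≤ M2.h) ∧
    (2 * (M2.x1 - R.x1) + 1 ≤ lam A R ∨ 2 ≤ M2.w)

/-- induction hypothesis -/
def IH (n : ℕ) : Prop := ∀ A R, Mn A R → A.card < n → Good A R

/-- far from the quadrant with corner `(a, b)` -/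
def FarQ (Y : Rc) (a b : ℤ) : Prop := 3 ≤ a - Y.x2 ∨ 3 ≤ b - Y.y2 ∨ 3 ≤ (a - Y.x2) + (b - Y.y2)

variable {A B C D E B' B1 B2 DV DW E1 E2 : Finset (ℤ × ℤ)} {P Q R X Y P' M M1 M2 V W V' Y1 Y2 : Rc}
  {c z v : ℤ × ℤ} {n : ℕ} {a b : ℤ}

theorem lam_swap : lam (Sy.swap.im A) (Sy.swap.g R) = lam A R := by
  unfold lam
  rw [Sy.card_im]
  have h1 : (Sy.swap.g R).w = R.h := rfl
  have h2 : (Sy.swap.g R).h = R.w := rfl
  rw [h1, h2]; ring

theorem lam_flx : lam (Sy.flx.im A) (Sy.flx.g R) = lam A R := by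
  unfold lam
  rw [Sy.card_im]
  have h1 : (Sy.flx.g R).w = R.w := by unfold Rc.w Sy.flx; simp only; ring
  have h2 : (Sy.flx.g R).h = R.h := rfl
  rw [h1, h2]

theorem lam_fly : lam (Sy.fly.im A) (Sy.fly.g R) = lam A R := by
  unfold lam
  rw [Sy.card_im]
  have h1 : (Sy.fly.g R).w = R.w := rfl
  have h2 : (Sy.fly.g R).h = R.h := by unfold Rc.h Sy.fly; simp only; ring
  rw [h1, h2]

theorem lam_neg : lam (Sy.neg.im A) (Sy.neg.g R) = lam A R := by
  unfold lam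
  rw [Sy.card_im]
  have h1 : (Sy.neg.g R).w = R.w := by unfold Rc.w Sy.neg; simp only; ring
  have h2 : (Sy.neg.g R).h = R.h := by unfold Rc.h Sy.neg; simp only; ring
  rw [h1, h2]

/-- `t2_bound` in terms of the potential -/
theorem lam_w2 (h : Mn A R) (hw : R.w = 2) : 0 ≤ lam A R := by
  have h1 := t2_bound h (by unfold Rc.w at hw; omega)
  unfold lam
  rw [hw]
  linarith

/-- `t3_bound` in terms of the potential -/
theorem lam_w3 (h : Mn A R) (hw : R.w = 3) : 2 * R.h - 4 ≤ lam A R := by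
  have h1 := t3_bound h (by unfold Rc.w at hw; omega)
  unfold lam
  rw [hw]
  linarith

theorem lam_w1 (h : Mn A R) (hw : R.w = 1) : 4 - 2 * R.h ≤ lam A R := by
  have h1 := row_bound h (by unfold Rc.w at hw; omega)
  unfold lam
  rw [hw]
  linarith

theorem lam_h2 (h : Mn A R) (hw : R.h = 2) : 0 ≤ lam A R := by
  rw [← lam_swap]; exact lam_w2 (Sy.swap.Mn h) hw

theorem lam_h3 (h : Mn A R) (hw : R.h = 3) : 2 * R.w - 4 ≤ lam A R := by
  rw [← lam_swap]; exact lam_w3 (Sy.swap.Mn h) hw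

theorem lam_h1 (h : Mn A R) (hw : R.h = 1) : 4 - 2 * R.w ≤ lam A R := by
  rw [← lam_swap]; exact lam_w1 (Sy.swap.Mn h) hw

/-- the potential of a single type rectangle, `c` columns on the right -/
theorem SgR.lam_eq (hs : SgR A R z M) :
    lam A R = lam (A.erase z) M + 2 * (R.x2 - M.x2) * (R.h + 3) - 15 := by
  have h1 : A.card = (A.erase z).card + 1 := (Finset.card_erase_add_one hs.hz).symm
  have h2 : R.w = M.w + (R.x2 - M.x2) := by unfold Rc.w; have := hs.l; omega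
  have h3 : R.h = M.h := by unfold Rc.h; have := hs.b; have := hs.t; omega
  unfold lam
  rw [h1, h2, h3]
  push_cast
  ring

theorem SgT.lam_eq (hs : SgT A R z M) :
    lam A R = lam (A.erase z) M + 2 * (R.y2 - M.y2) * (R.w + 3) - 15 := by
  have h1 : A.card = (A.erase z).card + 1 := (Finset.card_erase_add_one hs.hz).symm
  have h2 : R.h = M.h + (R.y2 - M.y2) := by unfold Rc.h; have := hs.b; omega
  have h3 : R.w = M.w := by unfold Rc.w; have := hs.l; have := hs.r; omega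
  unfold lam
  rw [h1, h2, h3]
  push_cast
  ring

theorem SgL.lam_eq (hs : SgL A R z M) :
    lam A R = lam (A.erase z) M + 2 * (M.x1 - R.x1) * (R.h + 3) - 15 := by
  have h1 : A.card = (A.erase z).card + 1 := (Finset.card_erase_add_one hs.hz).symm
  have h2 : R.w = M.w + (M.x1 - R.x1) := by unfold Rc.w; have := hs.r; omega
  have h3 : R.h = M.h := by unfold Rc.h; have := hs.b; have := hs.t; omega
  unfold lam
  rw [h1, h2, h3]
  push_cast
  ring

theorem SgB.lam_eq (hs : SgB A R z M) :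
    lam A R = lam (A.erase z) M + 2 * (M.y1 - R.y1) * (R.w + 3) - 15 := by
  have h1 : A.card = (A.erase z).card + 1 := (Finset.card_erase_add_one hs.hz).symm
  have h2 : R.h = M.h + (M.y1 - R.y1) := by unfold Rc.h; have := hs.t; omega
  have h3 : R.w = M.w := by unfold Rc.w; have := hs.l; have := hs.r; omega
  unfold lam
  rw [h1, h2, h3]
  push_cast
  ring

/-- the bounds for the mirrored type (b), through the reflection `fly` -/
theorem Good.nbm (hg : Good (Sy.fly.im A) (Sy.fly.g R)) (ht : TBm A R B1 M1 B2 M2) :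
    NB (lam A R) (R.x2 - M1.x2) (R.y2 - M2.y2) (M2.x1 - R.x1) (M1.y1 - R.y1) R.w R.h := by
  have h1 := (hg.nb _ _ _ _ ht.fly).1
  rw [lam_fly] at h1
  have e1 : (Sy.fly.g R).w = R.w := rfl
  have e2 : (Sy.fly.g R).h = R.h := by unfold Rc.h Sy.fly; simp only; ring
  have e3 : (Sy.fly.g M2).y1 - (Sy.fly.g R).y1 = R.y2 - M2.y2 := by
    show -M2.y2 - -R.y2 = _; ring
  have e4 : (Sy.fly.g R).y2 - (Sy.fly.g M1).y2 = M1.y1 - R.y1 := by
    show -R.y1 - -M1.y1 = _; ring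
  rw [e1, e2, e3, e4] at h1
  exact h1

end Pool.Agent.H109
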