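import Pool.Agent.H109.Sym

/-!
The structure of the maximal proper spanned rectangles of a minimal spanning set.
-/

set_option autoImplicit false

namespace Pool.Agent.H109

open Rc

variable {A B C D B' : Finset (ℤ × ℤ)} {P Q R X Y P' : Rc} {c : ℤ × ℤ}

/-- `P`, spanned by `B`, is a maximal proper spanned rectangle of `(A, R)`. -/
structure Mxp (A : Finset (ℤ × ℤ)) (R : Rc) (B : Finset (ℤ × ℤ)) (P : Rc) : Prop where
  sub : B ⊆ A
  is : IS B P
  ne : P ≠ R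
  mx : ∀ C Q, C ⊆ A → IS C Q → Sub P Q → Q = P ∨ Q = R

theorem Mn.exists_mxp (h : Mn A R) (hB : B ⊆ A) (hP : IS B P) (hne : P ≠ R) :
    ∃ C Q, Mxp A R C Q ∧ Sub P Q := by
  obtain ⟨Q, ⟨C, hC, hQ⟩, h2, h3, h4⟩ := exists_max A (fun Q => Q ≠ R) ⟨B, hB, hP⟩ hne
  refine ⟨C, Q, ⟨hC, hQ, h2, fun D Z hD hZ hs => ?_⟩, h3⟩
  by_cases hZR : Z = R
  · exact Or.inr hZR
  · exact Or.inl (h4 Z ⟨D, hD, hZ⟩ hZR hs)

theorem Mxp.subR (h : Mn A R) (hm : Mxp A R B P) : Sub P R := hm.is.mono h.1 hm.sub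

theorem Mxp.ssub (h : Mn A R) (hm : Mxp A R B P) : B ⊂ A := by
  refine Finset.ssubset_iff_subset_ne.mpr ⟨hm.sub, ?_⟩
  rintro rfl
  exact hm.ne (hm.is.uniq h.1)

/-- ST1, second half. -/
theorem Mxp.eq_compl (h : Mn A R) (hm : Mxp A R B P) {D : Finset (ℤ × ℤ)} {Y : Rc} (hD : D ⊆ A \ B)
    (hY : IS D Y) (hn : Near P Y) : D = A \ B ∧ box P Y = R := by
  have hDA : D ⊆ A := hD.trans Finset.sdiff_subset
  have hIS := IS.mg hm.is hY hn
  rcases hm.mx _ _ (Finset.union_subset hm.sub hDA) hIS (sub_box_left _ _) with e | e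
  · exfalso
    obtain ⟨d, hd⟩ := hY.nonempty
    have h1 : Mem d P := by
      have := (hY.mem d hd).sub (sub_box_right P Y)
      rwa [e] at this
    exact (Finset.mem_sdiff.mp (hD hd)).2 (h.mem_of hm.sub hm.is (hDA hd) h1)
  · refine ⟨?_, e⟩
    rw [e] at hIS
    have := h.eq_of_IS_R (Finset.union_subset hm.sub hDA) hIS
    rw [← this]
    ext x
    simp only [Finset.mem_sdiff, Finset.mem_union]
    constructor
    · intro hx; exact ⟨Or.inr hx, (Finset.mem_sdiff.mp (hD hx)).2⟩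
    · rintro ⟨hx | hx, h2⟩
      · exact (h2 hx).elim
      · exact hx

/-- ST1 -/
theorem Mxp.compl (h : Mn A R) (hm : Mxp A R B P) :
    ∃ X, IS (A \ B) X ∧ Near P X ∧ R = box P X ∧
      ∀ D, D ⊂ A \ B → ∀ Y, IS D Y → ¬ Near P Y := by
  have hfar : ∀ D, D ⊂ A \ B → ∀ Y, IS D Y → ¬ Near P Y := by
    intro D hD Y hY hn
    exact hD.ne (hm.eq_compl h hD.1 hY hn).1
  by_contra hcon
  have hall : ∀ D Y, D ⊆ A \ B → IS D Y → ¬ Near P Y := by
    intro D Y hD hY hn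
    obtain ⟨rfl, e⟩ := hm.eq_compl h hD hY hn
    exact hcon ⟨Y, hY, hn, e.symm, hfar⟩
  obtain ⟨Z, hZ, hRZ⟩ := h.1.cover (fun Z => Z = P ∨ MxS (A \ B) Z) (by
    rintro Z Z' (rfl | h1) (rfl | h2) hn
    · rfl
    · obtain ⟨E, hE, hZ'⟩ := h2.1
      exact (hall E Z' hE hZ' hn).elim
    · obtain ⟨E, hE, hZ'⟩ := h1.1
      exact (hall E Z hE hZ' (near_symm hn)).elim
    · exact h1.eq_of_near h2 hn) (by
    intro c hc
    by_cases hcB : c ∈ B
    · exact ⟨P, Or.inl rfl, hm.is.mem c hcB⟩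
    · obtain ⟨Q, hQ, hcQ⟩ := exists_MxS_mem (Finset.mem_sdiff.mpr ⟨hc, hcB⟩)
      exact ⟨Q, Or.inr hQ, hcQ⟩)
  rcases hZ with rfl | hZ
  · exact hm.ne ((hm.subR h).antisymm hRZ)
  · obtain ⟨E, hE, hZ'⟩ := hZ.1
    have hEA : E ⊆ A := hE.trans Finset.sdiff_subset
    have : Z = R := (hZ'.mono h.1 hEA).antisymm hRZ
    subst this
    have := h.eq_of_IS_R hEA hZ'
    subst this
    obtain ⟨b, hb⟩ := hm.is.nonempty
    exact (Finset.mem_sdiff.mp (hE (hm.sub hb))).2 hb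

/-- ST2: two distinct maximal rectangles cover all sites. -/
theorem Mxp.cover (h : Mn A R) (hm : Mxp A R B P) (hm' : Mxp A R B' P') (hne : P ≠ P') :
    B ∪ B' = A := by
  by_contra hcon
  have hsub : B ∪ B' ⊆ A := Finset.union_subset hm.sub hm'.sub
  obtain ⟨a, ha, ha'⟩ := Finset.exists_of_ssubset (Finset.ssubset_iff_subset_ne.mpr ⟨hsub, hcon⟩)
  rw [Finset.mem_union, not_or] at ha'
  obtain ⟨X, hX, hnX, hRX, hfar⟩ := hm.compl h
  have hD : B' \ B ⊂ A \ B := by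
    refine Finset.ssubset_iff_of_subset (Finset.sdiff_subset_sdiff hm'.sub subset_rfl) |>.mpr
      ⟨a, Finset.mem_sdiff.mpr ⟨ha, ha'.1⟩, fun h => ha'.2 (Finset.mem_sdiff.mp h).1⟩
  have hfar' : ∀ E Y, E ⊆ B' \ B → IS E Y → ¬ Near P Y := fun E Y hE hY =>
    hfar E (Finset.ssubset_of_subset_of_ssubset hE hD) Y hY
  obtain ⟨Z, hZ, hRZ⟩ := hm'.is.cover (fun Z => Z = P ∨ MxS (B' \ B) Z) (by
    rintro Z Z' (rfl | h1) (rfl | h2) hn
    · rfl
    · obtain ⟨E, hE, hZ'⟩ := h2.1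
      exact (hfar' E Z' hE hZ' hn).elim
    · obtain ⟨E, hE, hZ'⟩ := h1.1
      exact (hfar' E Z hE hZ' (near_symm hn)).elim
    · exact h1.eq_of_near h2 hn) (by
    intro c hc
    by_cases hcB : c ∈ B
    · exact ⟨P, Or.inl rfl, hm.is.mem c hcB⟩
    · obtain ⟨Q, hQ, hcQ⟩ := exists_MxS_mem (Finset.mem_sdiff.mpr ⟨hc, hcB⟩)
      exact ⟨Q, Or.inr hQ, hcQ⟩)
  rcases hZ with rfl | hZ
  · rcases hm'.mx _ _ hm.sub hm.is hRZ with e | e
    · exact hne e
    · exact hm.ne e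
  · obtain ⟨E, hE, hZ'⟩ := hZ.1
    have hEA : E ⊆ A := (hE.trans Finset.sdiff_subset).trans hm'.sub
    have h1 : B' ⊆ E := h.subset_of_sub hm'.sub hEA hm'.is hZ' hRZ
    have h2 : B' ⊆ A \ B := (h1.trans hE).trans hD.1
    have hs : Sub P' X := hm'.is.mono hX h2
    rcases hm'.mx _ _ Finset.sdiff_subset hX hs with e | e
    · rw [e] at hX
      have := h.eq_of_IS Finset.sdiff_subset hm'.sub hX hm'.is
      exact ha'.2 (this ▸ Finset.mem_sdiff.mpr ⟨ha, ha'.1⟩)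
    · rw [e] at hX
      have := h.eq_of_IS_R Finset.sdiff_subset hX
      obtain ⟨b, hb⟩ := hm.is.nonempty
      have hb' := hm.sub hb
      rw [← this] at hb'
      exact (Finset.mem_sdiff.mp hb').2 hb

/-- ST3: there are two distinct maximal rectangles. -/
theorem Mn.two_max (h : Mn A R) (h2 : 2 ≤ A.card) :
    ∃ B P B' P', Mxp A R B P ∧ Mxp A R B' P' ∧ P ≠ P' := by
  obtain ⟨a, ha⟩ := h.1.nonempty
  have hne : Rc.pt a ≠ R := by
    intro e
    have hall : ∀ c ∈ A, c = a := by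
      intro c hc
      have := h.1.mem c hc
      rw [← e] at this
      unfold Mem Rc.pt at this
      simp only at this
      exact Prod.ext (by omega) (by omega)
    have : A.card ≤ 1 := Finset.card_le_one.mpr fun x hx y hy => (hall x hx).trans (hall y hy).symm
    omega
  obtain ⟨B, P, hm, -⟩ := h.exists_mxp (B := {a}) (by simpa using ha) (IS.pt a) hne
  obtain ⟨X, hX, hnX, hRX, hfar⟩ := hm.compl h
  have hXR : X ≠ R := by
    intro e
    rw [e] at hX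
    have := h.eq_of_IS_R Finset.sdiff_subset hX
    obtain ⟨b, hb⟩ := hm.is.nonempty
    have hb' := hm.sub hb
    rw [← this] at hb'
    exact (Finset.mem_sdiff.mp hb').2 hb
  obtain ⟨B', P', hm', hs⟩ := h.exists_mxp Finset.sdiff_subset hX hXR
  refine ⟨B, P, B', P', hm, hm', ?_⟩
  rintro rfl
  obtain ⟨x, hx⟩ := hX.nonempty
  exact (Finset.mem_sdiff.mp hx).2 (h.mem_of hm.sub hm.is (Finset.mem_sdiff.mp hx).1
    ((hX.mem x hx).sub hs))

/-- ST5: distinct maximal rectangles are near, and together they give `R`. -/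
theorem Mxp.near (h : Mn A R) (hm : Mxp A R B P) (hm' : Mxp A R B' P') (hne : P ≠ P') :
    Near P P' ∧ box P P' = R := by
  have hcov := hm.cover h hm' hne
  have hn : Near P P' := by
    by_contra hn
    obtain ⟨Z, hZ, hRZ⟩ := h.1.cover (fun Z => Z = P ∨ Z = P') (by
      rintro Z Z' (rfl | rfl) (rfl | rfl) hn'
      · rfl
      · exact (hn hn').elim
      · exact (hn (near_symm hn')).elim
      · rfl) (by
      intro c hc
      rw [← hcov, Finset.mem_union] at hc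
      rcases hc with hc | hc
      · exact ⟨P, Or.inl rfl, hm.is.mem c hc⟩
      · exact ⟨P', Or.inr rfl, hm'.is.mem c hc⟩)
    rcases hZ with rfl | rfl
    · exact hm.ne ((hm.subR h).antisymm hRZ)
    · exact hm'.ne ((hm'.subR h).antisymm hRZ)
  refine ⟨hn, ?_⟩
  rcases hm.mx _ _ (Finset.union_subset hm.sub hm'.sub) (IS.mg hm.is hm'.is hn)
    (sub_box_left _ _) with e | e
  · exfalso
    have hs : Sub P' P := by
      have := sub_box_right P P'
      rwa [e] at this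
    rcases hm'.mx _ _ hm.sub hm.is hs with e' | e'
    · exact hne e'
    · exact hm.ne e'
  · exact e

/-- Last merge of a minimal spanning set with at least two sites. -/
theorem Mn.split (h : Mn A R) (h2 : 2 ≤ A.card) :
    ∃ B C P Q, B ⊂ A ∧ C ⊂ A ∧ Disjoint B C ∧ B ∪ C = A ∧ IS B P ∧ IS C Q ∧ Near P Q ∧
      R = box P Q := by
  obtain ⟨B, P, -, -, hm, -, -⟩ := h.two_max h2
  obtain ⟨X, hX, hnX, hRX, hfar⟩ := hm.compl h
  refine ⟨B, A \ B, P, X, hm.ssub h, ?_, Finset.disjoint_sdiff, ?_, hm.is, hX, hnX, hRX⟩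
  · refine Finset.ssubset_iff_subset_ne.mpr ⟨Finset.sdiff_subset, fun e => ?_⟩
    obtain ⟨b, hb⟩ := hm.is.nonempty
    have hb' := hm.sub hb
    rw [← e] at hb'
    exact (Finset.mem_sdiff.mp hb').2 hb
  · exact Finset.union_sdiff_of_subset hm.sub

theorem far_rows (hw : Y.x1 ≤ Y.x2) (h1 : P.x1 ≤ Y.x1) (h2 : Y.x2 ≤ P.x2) :
    ¬ Near P Y ↔ (P.y2 + 3 ≤ Y.y1 ∨ Y.y2 + 3 ≤ P.y1) := by
  have e : max 0 (max (Y.x1 - P.x2) (P.x1 - Y.x2)) = 0 := by omega
  unfold Near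
  rw [e]
  omega

/-- ST4: a maximal rectangle of full width misses exactly one site, in a row just above or below. -/
theorem Mxp.full_width (h : Mn A R) (hm : Mxp A R B P) (h1 : P.x1 = R.x1) (h2 : P.x2 = R.x2) :
    ∃ z ∈ A, A.erase z = B ∧ z ∉ B ∧
      ((P.y1 = R.y1 ∧ z.2 = R.y2 ∧ (P.y2 + 1 = R.y2 ∨ P.y2 + 2 = R.y2)) ∨
       (P.y2 = R.y2 ∧ z.2 = R.y1 ∧ (P.y1 = R.y1 + 1 ∨ P.y1 = R.y1 + 2))) := by
  obtain ⟨X, hX, hnX, hRX, hfar⟩ := hm.compl h
  have hwR := h.1.wf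
  have hwX := hX.wf
  have hwP := hm.is.wf
  have hPR := hm.subR h
  have hMX : Mn (A \ B) X := h.sub Finset.sdiff_subset hX
  have hXR : Sub X R := by rw [hRX]; exact sub_box_right _ _
  by_cases hcard : 2 ≤ (A \ B).card
  · exfalso
    obtain ⟨D, E, Y, Z, hD, hE, -, -, hY, hZ, hn, hXe⟩ := hMX.split hcard
    have f1 := hfar D hD Y hY
    have f2 := hfar E hE Z hZ
    have wY := hY.wf
    have wZ := hZ.wf
    have s1 : Sub Y R := hY.mono h.1 (hD.1.trans Finset.sdiff_subset)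
    have s2 : Sub Z R := hZ.mono h.1 (hE.1.trans Finset.sdiff_subset)
    have s3 : Sub X R := hXR
    rw [far_rows wY.1 (by unfold Sub at s1; omega) (by unfold Sub at s1; omega)] at f1
    rw [far_rows wZ.1 (by unfold Sub at s2; omega) (by unfold Sub at s2; omega)] at f2
    have f3 : ¬ (P.y2 + 3 ≤ X.y1 ∨ X.y2 + 3 ≤ P.y1) := by
      rw [← far_rows hwX.1 (by unfold Sub at s3; omega) (by unfold Sub at s3; omega), not_not]
      exact hnX
    have e1 : X.y1 = min Y.y1 Z.y1 := by rw [hXe]; rfl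
    have e2 : X.y2 = max Y.y2 Z.y2 := by rw [hXe]; rfl
    have hn' : Y.y1 ≤ Z.y2 + 2 ∧ Z.y1 ≤ Y.y2 + 2 := by
      unfold Near at hn; omega
    clear hn hfar hnX hRX hwR hPR s1 s2 s3 hXR hXe
    omega
  · have hc1 : (A \ B).card = 1 := by
      have := hX.nonempty.card_pos
      omega
    obtain ⟨z, hz⟩ := Finset.card_eq_one.mp hc1
    have hzA : z ∈ A ∧ z ∉ B := by
      have : z ∈ A \ B := by rw [hz]; simp
      exact Finset.mem_sdiff.mp this
    have hXz : X = Rc.pt z := by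
      rw [hz] at hX
      exact hX.uniq (IS.pt z)
    have hAB : A.erase z = B := by
      ext x
      rw [Finset.mem_erase]
      constructor
      · rintro ⟨hx1, hx2⟩
        by_contra hxB
        have : x ∈ A \ B := Finset.mem_sdiff.mpr ⟨hx2, hxB⟩
        rw [hz, Finset.mem_singleton] at this
        exact hx1 this
      · intro hx
        exact ⟨fun e => hzA.2 (e ▸ hx), hm.sub hx⟩
    refine ⟨z, hzA.1, hAB, hzA.2, ?_⟩
    have hzP : ¬ Mem z P := fun hz' => hzA.2 (h.mem_of hm.sub hm.is hzA.1 hz')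
    subst hXz
    rw [hRX] at h1 h2 hXR hPR
    rw [hRX]
    unfold Near Sub box Rc.pt Mem at *
    simp only at *
    omega

/-- full height version -/
theorem Mxp.full_height (h : Mn A R) (hm : Mxp A R B P) (h1 : P.y1 = R.y1) (h2 : P.y2 = R.y2) :
    ∃ z ∈ A, A.erase z = B ∧ z ∉ B ∧
      ((P.x1 = R.x1 ∧ z.1 = R.x2 ∧ (P.x2 + 1 = R.x2 ∨ P.x2 + 2 = R.x2)) ∨
       (P.x2 = R.x2 ∧ z.1 = R.x1 ∧ (P.x1 = R.x1 + 1 ∨ P.x1 = R.x1 + 2))) := by
  have h' := Sy.swap.Mn h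
  have hm' : Mxp (Sy.swap.im A) (Sy.swap.g R) (Sy.swap.im B) (Sy.swap.g P) := by
    refine ⟨Sy.swap.im_sub hm.sub, Sy.swap.IS hm.is, fun e => hm.ne (Sy.swap.ginj e), ?_⟩
    intro C Q hC hQ hs
    have hC' := Sy.swap.im_sub hC
    rw [Sy.im_im] at hC'
    have hs' := Sy.swap.hsub _ _ hs
    rw [Sy.gg] at hs'
    rcases hm.mx _ _ hC' (Sy.swap.IS hQ) hs' with e | e
    · left; rw [← e, Sy.gg]
    · right; rw [← e, Sy.gg]
  obtain ⟨z, hz, e1, e2, h3⟩ := hm'.full_width h' h1 h2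
  refine ⟨Sy.swap.f z, (Sy.mem_im _).mp hz, ?_, ?_, h3⟩
  · have := congrArg Sy.swap.im e1
    rwa [Sy.im_im, Sy.im_erase, Sy.im_im] at this
  · intro hc
    apply e2
    rw [Sy.mem_im]
    exact hc

end Pool.Agent.H109
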