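import Pool.Agent.H109.Base

/-!
Symmetries: reflections and the diagonal swap act on sites and rectangles.
-/

set_option autoImplicit false

namespace Pool.Agent.H109

open Rc

/-- An involutive symmetry of the lattice, acting on sites by `f` and on rectangles by `g`. -/
structure Sy where
  f : ℤ × ℤ → ℤ × ℤ
  g : Rc → Rc
  ff : ∀ c, f (f c) = c
  gg : ∀ P, g (g P) = P
  hpt : ∀ c, g (Rc.pt c) = Rc.pt (f c)
  hbox : ∀ P Q, g (box P Q) = box (g P) (g Q)
  hnear : ∀ P Q, Near P Q → Near (g P) (g Q)
  hsub : ∀ P Q, Sub P Q → Sub (g P) (g Q)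
  hmem : ∀ c P, Mem c P → Mem (f c) (g P)

namespace Sy

/-- reflection in the diagonal -/
def swap : Sy where
  f c := (c.2, c.1)
  g P := ⟨P.y1, P.y2, P.x1, P.x2⟩
  ff _ := rfl
  gg _ := rfl
  hpt _ := rfl
  hbox _ _ := rfl
  hnear P Q h := by unfold Near at *; simp only at *; omega
  hsub P Q h := by unfold Sub at *; simp only at *; omega
  hmem c P h := by unfold Mem at *; simp only at *; omega

/-- reflection of the first coordinate -/
def flx : Sy where
  f c := (-c.1, c.2)
  g P := ⟨-P.x2, -P.x1, P.y1, P.y2⟩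
  ff c := by simp
  gg P := by simp
  hpt _ := rfl
  hbox P Q := by unfold box; apply rc_eq <;> simp only <;> omega
  hnear P Q h := by unfold Near at *; simp only at *; omega
  hsub P Q h := by unfold Sub at *; simp only at *; omega
  hmem c P h := by unfold Mem at *; simp only at *; omega

/-- reflection of the second coordinate -/
def fly : Sy where
  f c := (c.1, -c.2)
  g P := ⟨P.x1, P.x2, -P.y2, -P.y1⟩
  ff c := by simp
  gg P := by simp
  hpt _ := rfl
  hbox P Q := by unfold box; apply rc_eq <;> simp only <;> omega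
  hnear P Q h := by unfold Near at *; simp only at *; omega
  hsub P Q h := by unfold Sub at *; simp only at *; omega
  hmem c P h := by unfold Mem at *; simp only at *; omega

/-- point reflection -/
def neg : Sy where
  f c := (-c.1, -c.2)
  g P := ⟨-P.x2, -P.x1, -P.y2, -P.y1⟩
  ff c := by simp
  gg P := by simp
  hpt _ := rfl
  hbox P Q := by unfold box; apply rc_eq <;> simp only <;> omega
  hnear P Q h := by unfold Near at *; simp only at *; omega
  hsub P Q h := by unfold Sub at *; simp only at *; omega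
  hmem c P h := by unfold Mem at *; simp only at *; omega

variable (s : Sy) {A B : Finset (ℤ × ℤ)} {P Q R : Rc} {c : ℤ × ℤ}

theorem inj : Function.Injective s.f := fun a b h => by
  rw [← s.ff a, h, s.ff]

theorem ginj : Function.Injective s.g := fun a b h => by
  rw [← s.gg a, h, s.gg]

/-- the image of a set of sites -/
def im (A : Finset (ℤ × ℤ)) : Finset (ℤ × ℤ) := A.image s.f

@[simp] theorem mem_im : c ∈ s.im A ↔ s.f c ∈ A := by
  unfold im
  rw [Finset.mem_image]
  constructor
  · rintro ⟨d, hd, rfl⟩; rwa [s.ff]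
  · intro h; exact ⟨s.f c, h, s.ff c⟩

theorem im_im : s.im (s.im A) = A := by
  ext c; simp [s.ff]

@[simp] theorem card_im : (s.im A).card = A.card := by
  unfold im; exact Finset.card_image_of_injective _ s.inj

theorem im_sub (h : A ⊆ B) : s.im A ⊆ s.im B := by
  intro c hc
  rw [mem_im] at *
  exact h hc

theorem im_ssub (h : A ⊂ B) : s.im A ⊂ s.im B := by
  refine ⟨s.im_sub h.1, fun h' => h.2 ?_⟩
  have := s.im_sub h'
  rwa [im_im, im_im] at this

theorem im_union : s.im (A ∪ B) = s.im A ∪ s.im B := by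
  ext c; simp

theorem im_sdiff : s.im (A \ B) = s.im A \ s.im B := by
  ext c; simp

theorem im_erase : s.im (A.erase c) = (s.im A).erase (s.f c) := by
  ext d
  simp only [mem_im, Finset.mem_erase]
  constructor
  · rintro ⟨h1, h2⟩; exact ⟨fun h => h1 (by rw [h, s.ff]), h2⟩
  · rintro ⟨h1, h2⟩; exact ⟨fun h => h1 (by rw [← h, s.ff]), h2⟩

theorem IS (h : IS A P) : H109.IS (s.im A) (s.g P) := by
  induction h with
  | pt c =>
    rw [s.hpt]
    have : s.im {c} = {s.f c} := by unfold im; simp
    rw [this]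
    exact H109.IS.pt _
  | mg _ _ hn ih1 ih2 =>
    rw [s.hbox, im_union]
    exact H109.IS.mg ih1 ih2 (s.hnear _ _ hn)

theorem IS_iff : H109.IS (s.im A) (s.g P) ↔ H109.IS A P := by
  refine ⟨fun h => ?_, s.IS⟩
  have := s.IS h
  rwa [im_im, s.gg] at this

theorem near_iff : Near (s.g P) (s.g Q) ↔ Near P Q := by
  refine ⟨fun h => ?_, s.hnear _ _⟩
  have := s.hnear _ _ h
  rwa [s.gg, s.gg] at this

theorem sub_iff : Sub (s.g P) (s.g Q) ↔ Sub P Q := by
  refine ⟨fun h => ?_, s.hsub _ _⟩
  have := s.hsub _ _ h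
  rwa [s.gg, s.gg] at this

theorem Mn (h : Mn A R) : H109.Mn (s.im A) (s.g R) := by
  refine ⟨s.IS h.1, fun B hB hIS => ?_⟩
  refine h.2 (s.im B) ?_ ?_
  · have := s.im_ssub hB
    rwa [im_im] at this
  · have := s.IS hIS
    rwa [s.gg] at this

end Sy

end Pool.Agent.H109
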