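import Pool.Agent.H109.Walls

/-!
Minimal spanning sets of rectangles of width one and two.
-/

set_option autoImplicit false

namespace Pool.Agent.H109

open Rc

variable {A B C D : Finset (ℤ × ℤ)} {P Q R W : Rc} {c : ℤ × ℤ}

/-- In a spanned rectangle of width one, of two consecutive rows at least one carries a site.
Proof: induction on `IS`; for `box P Q` both `P` and `Q` have width one in the same column, and
their vertical distance is at most `2`; if the pair of rows `r, r + 1` is not inside `P` or `Q` then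
it meets the top or the bottom row of `P` or `Q`, and these rows carry a site (`IS.sides`). -/
theorem one_wide (h : IS A P) (hw : P.x1 = P.x2) :
    ∀ r, P.y1 ≤ r → r < P.y2 → (∃ c ∈ A, c.2 = r) ∨ (∃ c ∈ A, c.2 = r + 1) := by
  induction h with
  | pt c =>
    intro r h1 h2
    simp only [Rc.pt] at h1 h2
    omega
  | @mg A B P Q hP hQ hn ih1 ih2 =>
    intro r h1 h2
    have w1 := hP.wf
    have w2 := hQ.wf
    unfold Near at hn
    simp only [box] at hw h1 h2
    by_cases c1 : P.y1 ≤ r ∧ r < P.y2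
    · rcases ih1 (by omega) r c1.1 c1.2 with ⟨c, hc, hc2⟩ | ⟨c, hc, hc2⟩
      · exact Or.inl ⟨c, Finset.mem_union_left _ hc, hc2⟩
      · exact Or.inr ⟨c, Finset.mem_union_left _ hc, hc2⟩
    by_cases c2 : Q.y1 ≤ r ∧ r < Q.y2
    · rcases ih2 (by omega) r c2.1 c2.2 with ⟨c, hc, hc2⟩ | ⟨c, hc, hc2⟩
      · exact Or.inl ⟨c, Finset.mem_union_right _ hc, hc2⟩
      · exact Or.inr ⟨c, Finset.mem_union_right _ hc, hc2⟩
    obtain ⟨_, _, ⟨a3, ha3, h3⟩, ⟨a4, ha4, h4⟩⟩ := hP.sides
    obtain ⟨_, _, ⟨b3, hb3, k3⟩, ⟨b4, hb4, k4⟩⟩ := hQ.sides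
    have : P.y2 = r ∨ Q.y2 = r ∨ P.y1 = r + 1 ∨ Q.y1 = r + 1 := by omega
    rcases this with h | h | h | h
    · exact Or.inl ⟨a4, Finset.mem_union_left _ ha4, by omega⟩
    · exact Or.inl ⟨b4, Finset.mem_union_right _ hb4, by omega⟩
    · exact Or.inr ⟨a3, Finset.mem_union_left _ ha3, by omega⟩
    · exact Or.inr ⟨b3, Finset.mem_union_right _ hb3, by omega⟩

/-- auxiliary: a row of a spanned rectangle of width one or the next one carries a site -/
theorem h571_row (h : IS A P) (hw : P.x1 = P.x2) {r : ℤ} (h1 : P.y1 ≤ r) (h2 : r ≤ P.y2) :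
    ∃ c ∈ A, r ≤ c.2 ∧ c.2 ≤ r + 1 := by
  rcases lt_or_eq_of_le h2 with h3 | h3
  · rcases one_wide h hw r h1 h3 with ⟨c, hc, hc2⟩ | ⟨c, hc, hc2⟩
    · exact ⟨c, hc, by omega, by omega⟩
    · exact ⟨c, hc, by omega, by omega⟩
  · obtain ⟨_, _, _, ⟨a4, ha4, h4⟩⟩ := h.sides
    exact ⟨a4, ha4, by omega, by omega⟩

/-- auxiliary: two rectangles of width one at vertical distance at most one -/
theorem h571_two (hP : IS A P) (hQ : IS B Q) (hwP : P.x1 = P.x2) (hwQ : Q.x1 = Q.x2)
    (hd1 : Q.y1 ≤ P.y2 + 1) (hd2 : P.y1 ≤ Q.y2 + 1) :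
    ∃ u ∈ A, ∃ v ∈ B, u.1 = P.x1 ∧ v.1 = Q.x1 ∧ u.2 ≤ v.2 + 1 ∧ v.2 ≤ u.2 + 1 := by
  have w1 := hP.wf
  have w2 := hQ.wf
  have colP : ∀ c ∈ A, c.1 = P.x1 := fun c hc => by
    have := hP.mem c hc
    unfold Mem at this
    omega
  have colQ : ∀ c ∈ B, c.1 = Q.x1 := fun c hc => by
    have := hQ.mem c hc
    unfold Mem at this
    omega
  obtain ⟨_, _, ⟨a3, ha3, h3⟩, ⟨a4, ha4, h4⟩⟩ := hP.sides
  obtain ⟨_, _, ⟨b3, hb3, k3⟩, ⟨b4, hb4, k4⟩⟩ := hQ.sides
  by_cases c1 : Q.y1 = P.y2 + 1
  · exact ⟨a4, ha4, b3, hb3, colP _ ha4, colQ _ hb3, by omega, by omega⟩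
  by_cases c2 : P.y1 = Q.y2 + 1
  · exact ⟨a3, ha3, b4, hb4, colP _ ha3, colQ _ hb4, by omega, by omega⟩
  rcases le_total P.y1 Q.y1 with h | h
  · obtain ⟨u, hu, hu1, hu2⟩ := h571_row hP hwP (r := Q.y1) h (by omega)
    exact ⟨u, hu, b3, hb3, colP _ hu, colQ _ hb3, by omega, by omega⟩
  · obtain ⟨v, hv, hv1, hv2⟩ := h571_row hQ hwQ (r := P.y1) h (by omega)
    exact ⟨a3, ha3, v, hv, colP _ ha3, colQ _ hv, by omega, by omega⟩

/-- A spanned rectangle of width two contains two sites in different columns at distance at most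
`2`. Proof: induction on `IS`. For `box P Q` of width two: if `P` or `Q` has width two, use the
induction hypothesis. Otherwise `P` and `Q` have width one, in adjacent columns, so their vertical
distance is at most `1`. If it is `1`, use the top row of one and the bottom row of the other
(`IS.sides`). If they share a row, let `r` be the larger one of `P.y1`, `Q.y1`, say `r = Q.y1`, it is a
row of `P`; `Q` has a site in row `r`, and `P` has a site in one of the rows `r - 1, r, r + 1` by
`one_wide`. -/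
theorem core2 (h : IS A P) (hw : P.x2 = P.x1 + 1) :
    ∃ u ∈ A, ∃ v ∈ A, u.1 = P.x1 ∧ v.1 = P.x2 ∧ u.2 ≤ v.2 + 1 ∧ v.2 ≤ u.2 + 1 := by
  induction h with
  | pt c =>
    simp only [Rc.pt] at hw
    omega
  | @mg A B P Q hP hQ hn ih1 ih2 =>
    have w1 := hP.wf
    have w2 := hQ.wf
    unfold Near at hn
    simp only [box] at hw ⊢
    by_cases c1 : P.x2 = P.x1 + 1
    · obtain ⟨u, hu, v, hv, e1, e2, e3, e4⟩ := ih1 c1
      exact ⟨u, Finset.mem_union_left _ hu, v, Finset.mem_union_left _ hv, by omega, by omega,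
        e3, e4⟩
    by_cases c2 : Q.x2 = Q.x1 + 1
    · obtain ⟨u, hu, v, hv, e1, e2, e3, e4⟩ := ih2 c2
      exact ⟨u, Finset.mem_union_right _ hu, v, Finset.mem_union_right _ hv, by omega, by omega,
        e3, e4⟩
    clear ih1 ih2
    have hwP : P.x1 = P.x2 := by omega
    have hwQ : Q.x1 = Q.x2 := by omega
    have d1 : Q.y1 ≤ P.y2 + 1 := by omega
    have d2 : P.y1 ≤ Q.y2 + 1 := by omega
    obtain ⟨u, hu, v, hv, e1, e2, e3, e4⟩ := h571_two hP hQ hwP hwQ d1 d2
    rcases le_total P.x1 Q.x1 with h | h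
    · exact ⟨u, Finset.mem_union_left _ hu, v, Finset.mem_union_right _ hv, by omega, by omega,
        e3, e4⟩
    · exact ⟨v, Finset.mem_union_right _ hv, u, Finset.mem_union_left _ hu, by omega, by omega,
        e4, e3⟩

/-- The rectangle spanned by two sites of adjacent columns and rows at distance at most one. -/
theorem IS_pair {u v : ℤ × ℤ} (h1 : v.1 = u.1 + 1) (h2 : u.2 ≤ v.2 + 1) (h3 : v.2 ≤ u.2 + 1) :
    IS {u, v} ⟨u.1, v.1, min u.2 v.2, max u.2 v.2⟩ := by
  have hn : Near (Rc.pt u) (Rc.pt v) := by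
    unfold Near Rc.pt
    simp only
    omega
  have h := IS.mg (IS.pt u) (IS.pt v) hn
  have e1 : ({u} ∪ {v} : Finset (ℤ × ℤ)) = {u, v} := rfl
  have e2 : box (Rc.pt u) (Rc.pt v) = ⟨u.1, v.1, min u.2 v.2, max u.2 v.2⟩ := by
    unfold box Rc.pt
    apply rc_eq <;> simp only <;> omega
  rw [e1, e2] at h
  exact h

/-- Width one: `3 |A| ≤ 2 h + 2`. Proof: the one-site wall `{c}` with `c.2 = R.y1`, and `wall_up`. -/
theorem row_bound (h : Mn A R) (hw : R.x1 = R.x2) : 3 * (A.card : ℤ) ≤ 2 * R.h + 2 := by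
  obtain ⟨_, _, ⟨c, hc, hc1⟩, _⟩ := h.1.sides
  have hm : ∀ d ∈ A, d.1 = R.x1 ∧ R.y1 ≤ d.2 := fun d hd => by
    have := h.1.mem d hd
    unfold Mem at this
    omega
  have hW : Wall A R {c} (Rc.pt c) :=
    ⟨by simpa using hc, IS.pt c, (hm c hc).1, by
      have := (hm c hc).1
      simp only [Rc.pt]
      omega⟩
  have key := (wall_up h hW).1
  have hsub : A ⊆ insert c (A.filter fun d => (Rc.pt c).y2 < d.2) := by
    intro d hd
    rw [Finset.mem_insert, Finset.mem_filter]
    have h1 := hm d hd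
    have h2 := hm c hc
    by_cases e : d.2 = c.2
    · left
      exact Prod.ext (by omega) e
    · right
      exact ⟨hd, by simp only [Rc.pt]; omega⟩
  have hcard := (Finset.card_le_card hsub).trans (Finset.card_insert_le _ _)
  have hcard' : (A.card : ℤ) ≤ ((A.filter fun d => (Rc.pt c).y2 < d.2).card : ℤ) + 1 := by
    exact_mod_cast hcard
  have e : (Rc.pt c).y2 = c.2 := rfl
  rw [e] at key hcard'
  unfold Rc.h
  omega

/-- Width two: `3 |A| ≤ 2 h + 4`. Proof: take `u, v` from `core2`, they span a wall `W`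
(`IS_pair`), with `A ∩ W = {u, v}` by `Mn.mem_of`, of height one or two. If the height is two, then
`3 |A| ≤ 3 * 2 + (2 (R.y2 - W.y2) + 1) + (2 (W.y1 - R.y1) + 1) = 2 h + 4` by `wall_up`, `wall_down`.
If `W` has height one (`u` and `v` in the same row) then the rows `W.y2 + 1` and `W.y1 - 1` carry no
site: a site `s` in one of these rows spans with one of `u`, `v` a `2 × 2` square which contains the
other one, which contradicts `Mn.mem_of`. So `3 |A| ≤ 6 + 2 (R.y2 - W.y2) + 2 (W.y1 - R.y1) = 2 h + 4`. -/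
theorem t2_bound (h : Mn A R) (hw : R.x2 = R.x1 + 1) : 3 * (A.card : ℤ) ≤ 2 * R.h + 4 := by
  obtain ⟨u, hu, v, hv, e1, e2, e3, e4⟩ := core2 h.1 hw
  have huv : ({u, v} : Finset (ℤ × ℤ)) ⊆ A := by
    intro d hd
    rw [Finset.mem_insert, Finset.mem_singleton] at hd
    rcases hd with rfl | rfl
    · exact hu
    · exact hv
  have hIS := IS_pair (u := u) (v := v) (by omega) e3 e4
  have hm : ∀ d ∈ A, R.x1 ≤ d.1 ∧ d.1 ≤ R.x2 ∧ R.y1 ≤ d.2 ∧ d.2 ≤ R.y2 := fun d hd => h.1.mem d hd
  set W : Rc := ⟨u.1, v.1, min u.2 v.2, max u.2 v.2⟩ with hWdef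
  have hW : Wall A R {u, v} W := ⟨huv, hIS, e1, e2⟩
  have wx1 : W.x1 = u.1 := rfl
  have wx2 : W.x2 = v.1 := rfl
  have wy1 : W.y1 = min u.2 v.2 := rfl
  have wy2 : W.y2 = max u.2 v.2 := rfl
  have hup := wall_up h hW
  have hdn := wall_down h hW
  have hsub : A ⊆ ({u, v} : Finset (ℤ × ℤ)) ∪ ((A.filter fun d => W.y2 < d.2) ∪
      (A.filter fun d => d.2 < W.y1)) := by
    intro d hd
    rw [Finset.mem_union, Finset.mem_union, Finset.mem_filter, Finset.mem_filter]
    by_cases h1 : W.y2 < d.2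
    · exact Or.inr (Or.inl ⟨hd, h1⟩)
    by_cases h2 : d.2 < W.y1
    · exact Or.inr (Or.inr ⟨hd, h2⟩)
    left
    refine h.mem_of huv hIS hd ?_
    have := hm d hd
    unfold Mem
    omega
  have hc2 : ({u, v} : Finset (ℤ × ℤ)).card ≤ 2 := Finset.card_le_two
  have hcard : A.card ≤ 2 + ((A.filter fun d => W.y2 < d.2).card +
      (A.filter fun d => d.2 < W.y1).card) :=
    (Finset.card_le_card hsub).trans ((Finset.card_union_le _ _).trans
      (add_le_add hc2 (Finset.card_union_le _ _)))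
  have hcard' : (A.card : ℤ) ≤ 2 + (((A.filter fun d => W.y2 < d.2).card : ℤ) +
      ((A.filter fun d => d.2 < W.y1).card : ℤ)) := by exact_mod_cast hcard
  unfold Rc.h
  by_cases hh : u.2 = v.2
  · have contra : ∀ s ∈ A, s.2 ≠ u.2 → s.2 ≤ u.2 + 1 → u.2 ≤ s.2 + 1 → False := by
      intro s hs h1 h2 h3
      have hsm := hm s hs
      have : s.1 = u.1 ∨ s.1 = v.1 := by omega
      rcases this with h4 | h4
      · have hp := IS_pair (u := s) (v := v) (by omega) (by omega) (by omega)
        have hsub2 : ({s, v} : Finset (ℤ × ℤ)) ⊆ A := by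
          intro d hd
          rw [Finset.mem_insert, Finset.mem_singleton] at hd
          rcases hd with rfl | rfl
          · exact hs
          · exact hv
        have hmem := h.mem_of hsub2 hp hu (by
          unfold Mem
          simp only
          omega)
        rw [Finset.mem_insert, Finset.mem_singleton] at hmem
        rcases hmem with h5 | h5
        · exact h1 (by rw [← h5])
        · have : u.1 = v.1 := by rw [← h5]
          omega
      · have hp := IS_pair (u := u) (v := s) (by omega) (by omega) (by omega)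
        have hsub2 : ({u, s} : Finset (ℤ × ℤ)) ⊆ A := by
          intro d hd
          rw [Finset.mem_insert, Finset.mem_singleton] at hd
          rcases hd with rfl | rfl
          · exact hu
          · exact hs
        have hmem := h.mem_of hsub2 hp hv (by
          unfold Mem
          simp only
          omega)
        rw [Finset.mem_insert, Finset.mem_singleton] at hmem
        rcases hmem with h5 | h5
        · have : v.1 = u.1 := by rw [h5]
          omega
        · exact h1 (by rw [← h5]; exact hh.symm)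
    have k1 := hup.2.1 fun s hs h5 => contra s hs (by omega) (by omega) (by omega)
    have k2 := hdn.2 fun s hs h5 => contra s hs (by omega) (by omega) (by omega)
    omega
  · have k1 := hup.1
    have k2 := hdn.1
    omega

end Pool.Agent.H109
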