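import Pool.Agent.H109.Thin2
import Pool.Agent.H109.Struct

/-!
`lemmaG` of `Pool.Agent.H109.Thin3` (task PERC-4).
-/

set_option autoImplicit false

namespace Pool.Agent.H109

open Rc

variable {A B C D : Finset (ℤ × ℤ)} {P Q R W : Rc} {c : ℤ × ℤ}

theorem lemmaG (h : Mn A P) (hw : P.x2 = P.x1 + 1) {u v : ℤ × ℤ} (hu : u ∈ A) (hv : v ∈ A)
    (hu1 : u.1 = P.x1) (hv1 : v.1 = P.x2) (huv : u.2 ≤ v.2 + 1) (hvu : v.2 ≤ u.2 + 1) (y k : ℤ)
    (hfar : ∀ D Q, D ⊂ A → IS D Q → Q.x1 = P.x1 → Q.x2 = P.x2 → Q.y1 ≤ u.2 → Q.y1 ≤ v.2 →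
      u.2 ≤ Q.y2 → v.2 ≤ Q.y2 → Q.y2 + k ≤ y)
    (hnear : y ≤ P.y2 + k - 1) (h3 : 3 ≤ A.card) :
    P.y2 + k - 2 ≤ y ∧ ∃ t : ℤ, 0 ≤ t ∧ t ≤ 1 ∧
      (t = 1 → ∃ a ∈ A, ∃ b ∈ A, a ≠ b ∧ a.2 = P.y1 ∧ b.2 = P.y1) ∧
      3 * (A.card : ℤ) ≤ 2 * P.h + 3 + t ∧
      (y ≤ P.y2 + k - 2 → 3 * (A.card : ℤ) ≤ 2 * P.h + 2 + t) := by
  have hv1' : v.1 = u.1 + 1 := by omega
  have hne : u ≠ v := fun e => by rw [e] at hv1'; omega
  obtain ⟨W, hWdef⟩ : ∃ W : Rc, W = ⟨u.1, v.1, min u.2 v.2, max u.2 v.2⟩ := ⟨_, rfl⟩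
  have hWx1 : W.x1 = u.1 := by rw [hWdef]
  have hWx2 : W.x2 = v.1 := by rw [hWdef]
  have hWy1 : W.y1 = min u.2 v.2 := by rw [hWdef]
  have hWy2 : W.y2 = max u.2 v.2 := by rw [hWdef]
  have hIS : IS {u, v} W := by rw [hWdef]; exact IS_pair hv1' huv hvu
  have huvA : ({u, v} : Finset (ℤ × ℤ)) ⊆ A := by
    intro c hc
    simp only [Finset.mem_insert, Finset.mem_singleton] at hc
    rcases hc with rfl | rfl <;> assumption
  have hss : ({u, v} : Finset (ℤ × ℤ)) ⊂ A := by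
    refine Finset.ssubset_iff_subset_ne.2 ⟨huvA, fun e => ?_⟩
    have : ({u, v} : Finset (ℤ × ℤ)).card ≤ 2 := Finset.card_le_two
    rw [e] at this; omega
  have hwall : Wall A P {u, v} W := ⟨huvA, hIS, by omega, by omega⟩
  have hWfar := hfar _ _ hss hIS (by omega) (by omega) (by omega) (by omega) (by omega) (by omega)
  have hlt : W.y2 < P.y2 := by omega
  have hmu := h.1.mem u hu
  have hmv := h.1.mem v hv
  unfold Mem at hmu hmv
  have hbot : P.y1 = W.y1 := by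
    by_contra hcon
    obtain ⟨D, Q, hD, hQ, hsub, hx1, hx2, hy2⟩ := wall_remove_bot h hwall (by omega)
    have hs := hsub
    unfold Sub at hs
    have := hfar D Q hD hQ hx1 hx2 (by omega) (by omega) (by omega) (by omega)
    omega
  obtain ⟨D, Q, hD, hQ, hsub, hx1, hx2, hy2, hy2'⟩ := wall_remove_top h hwall hlt
  have hs := hsub
  unfold Sub at hs
  have hQfar := hfar D Q hD hQ hx1 hx2 (by omega) (by omega) (by omega) (by omega)
  refine ⟨by omega, ?_⟩
  -- counting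
  have hcard : A.card ≤ 2 + (A.filter fun c => W.y2 < c.2).card := by
    have hsub2 : A ⊆ {u, v} ∪ A.filter (fun c => W.y2 < c.2) := by
      intro c hc
      rw [Finset.mem_union, Finset.mem_filter]
      by_cases hcW : W.y2 < c.2
      · exact Or.inr ⟨hc, hcW⟩
      · refine Or.inl (h.mem_of huvA hIS hc ?_)
        have hmc := h.1.mem c hc
        unfold Mem at hmc ⊢
        omega
    calc A.card ≤ ({u, v} ∪ A.filter (fun c => W.y2 < c.2)).card := Finset.card_le_card hsub2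
      _ ≤ ({u, v} : Finset (ℤ × ℤ)).card + (A.filter (fun c => W.y2 < c.2)).card :=
        Finset.card_union_le _ _
      _ ≤ 2 + (A.filter (fun c => W.y2 < c.2)).card := by
        have : ({u, v} : Finset (ℤ × ℤ)).card ≤ 2 := Finset.card_le_two
        omega
  obtain ⟨U1, U2, U3, U4⟩ := wall_up h hwall
  have hempty : y ≤ P.y2 + k - 2 → (∀ c ∈ A, c.2 ≠ P.y2 - 1) ∧ 2 ≤ P.y2 - W.y2 := by
    intro hy
    have he : ∀ c ∈ A, c.2 ≠ P.y2 - 1 := by
      intro c hc hcc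
      have := hy2' ⟨c, hc, hcc⟩
      omega
    refine ⟨he, ?_⟩
    have h1 := he u hu
    have h2 := he v hv
    omega
  have hPh : P.h = P.y2 - P.y1 + 1 := rfl
  by_cases hrow : u.2 = v.2
  · have hE : ∀ c ∈ A, c.2 ≠ W.y2 + 1 := by
      intro s hs1 hs2
      have hms := h.1.mem s hs1
      unfold Mem at hms
      have hs2' : s.2 = u.2 + 1 := by omega
      have hcol : s.1 = P.x1 ∨ s.1 = P.x2 := by omega
      rcases hcol with hcol | hcol
      · have hp : IS {s, v} ⟨s.1, v.1, min s.2 v.2, max s.2 v.2⟩ :=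
          IS_pair (by omega) (by omega) (by omega)
        have hin := h.mem_of (B := {s, v}) (c := u) (by
          intro c hc
          simp only [Finset.mem_insert, Finset.mem_singleton] at hc
          rcases hc with rfl | rfl <;> assumption) hp hu (by
            unfold Mem; simp only; omega)
        simp only [Finset.mem_insert, Finset.mem_singleton] at hin
        rcases hin with e | e
        · rw [e] at hs2'; omega
        · exact hne e
      · have hp : IS {u, s} ⟨u.1, s.1, min u.2 s.2, max u.2 s.2⟩ :=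
          IS_pair (by omega) (by omega) (by omega)
        have hin := h.mem_of (B := {u, s}) (c := v) (by
          intro c hc
          simp only [Finset.mem_insert, Finset.mem_singleton] at hc
          rcases hc with rfl | rfl <;> assumption) hp hv (by
            unfold Mem; simp only; omega)
        simp only [Finset.mem_insert, Finset.mem_singleton] at hin
        rcases hin with e | e
        · exact hne e.symm
        · rw [← e] at hs2'; omega
    have U2' := U2 hE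
    refine ⟨1, by norm_num, le_refl _, fun _ => ⟨u, hu, v, hv, hne, by omega, by omega⟩, ?_, ?_⟩
    · omega
    · intro hy
      obtain ⟨he1, he2⟩ := hempty hy
      have U4' := U4 he2 hE he1
      omega
  · refine ⟨0, le_refl _, by norm_num, fun h0 => by omega, ?_, ?_⟩
    · omega
    · intro hy
      obtain ⟨he1, he2⟩ := hempty hy
      have U3' := U3 he2 he1
      omega

section h825

variable {E : Finset (ℤ × ℤ)} {X : Rc}

/-- conclusion of CLAIM 2 -/
def h825_Cn (A : Finset (ℤ × ℤ)) (W : Rc) : Prop :=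
  ∃ t t' : ℤ, 0 ≤ t ∧ t ≤ 1 ∧ 0 ≤ t' ∧ t' ≤ 1 ∧
      (t = 1 → ∃ a ∈ A, ∃ b ∈ A, a ≠ b ∧ a.2 = W.y2 ∧ b.2 = W.y2) ∧
      (t' = 1 → ∃ a ∈ A, ∃ b ∈ A, a ≠ b ∧ a.2 = W.y1 ∧ b.2 = W.y1) ∧
      3 * (A.card : ℤ) ≤ 2 * W.h + 4 + t + t'

/-- no proper subset spans a wall -/
def h825_Hm (A : Finset (ℤ × ℤ)) (W : Rc) : Prop :=
  ∀ D Q, D ⊂ A → IS D Q → ¬ (Q.x1 = W.x1 ∧ Q.x2 = W.x2)

/-- configuration of the last merge -/
structure h825_Cf (A D E : Finset (ℤ × ℤ)) (W P X : Rc) : Prop where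
  mn : Mn A W
  hw : W.x2 = W.x1 + 2
  hmin : h825_Hm A W
  h4 : 4 ≤ A.card
  dis : Disjoint D E
  un : D ∪ E = A
  isD : IS D P
  isE : IS E X
  near : Near P X
  hW : W = box P X
  px : P.x1 = W.x1
  xx : X.x2 = W.x2
  px2 : P.x2 < W.x2
  xx1 : W.x1 < X.x1

theorem h825_Cf.subD (h : h825_Cf A D E W P X) : D ⊆ A := h.un ▸ Finset.subset_union_left

theorem h825_Cf.subE (h : h825_Cf A D E W P X) : E ⊆ A := h.un ▸ Finset.subset_union_right

theorem h825_Cf.star (h : h825_Cf A D E W P X) {D' E' : Finset (ℤ × ℤ)} {P' X' : Rc}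
    (hD : D' ⊆ D) (hE : E' ⊆ E) (h1 : IS D' P') (h2 : IS E' X') (h3 : P'.x1 = W.x1)
    (h4 : X'.x2 = W.x2) (hn : Near P' X') : D' = D ∧ E' = E := by
  have hDA := h.subD
  have hEA := h.subE
  have hm := IS.mg h1 h2 hn
  have hsub' : D' ∪ E' ⊆ A := Finset.union_subset (hD.trans hDA) (hE.trans hEA)
  have hsub : Sub (box P' X') W := hm.sub_of_mem (fun c hc => h.mn.1.mem c (hsub' hc))
  have hcol : (box P' X').x1 = W.x1 ∧ (box P' X').x2 = W.x2 := by
    unfold Sub at hsub; unfold box at *; simp only at *; omega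
  have heq : D' ∪ E' = A := by
    by_contra hne
    exact h.hmin _ _ (Finset.ssubset_iff_subset_ne.mpr ⟨hsub', hne⟩) hm hcol
  constructor
  · apply Finset.Subset.antisymm hD
    intro c hc
    have hc2 : c ∈ D' ∪ E' := by rw [heq]; exact hDA hc
    rcases Finset.mem_union.mp hc2 with h' | h'
    · exact h'
    · exact absurd (hE h') (Finset.disjoint_left.mp h.dis hc)
  · apply Finset.Subset.antisymm hE
    intro c hc
    have hc2 : c ∈ D' ∪ E' := by rw [heq]; exact hEA hc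
    rcases Finset.mem_union.mp hc2 with h' | h'
    · exact absurd hc (Finset.disjoint_left.mp h.dis (hD h'))
    · exact h'

theorem h825_Cf.card (h : h825_Cf A D E W P X) : A.card = D.card + E.card := by
  rw [← h.un, Finset.card_union_of_disjoint h.dis]

theorem h825_im_ssub {s : Sy} (hD : D ⊂ s.im A) : s.im D ⊂ A := by
  have := s.im_ssub hD
  rwa [Sy.im_im] at this

theorem h825_im_disj {s : Sy} (hD : Disjoint D E) : Disjoint (s.im D) (s.im E) := by
  rw [Finset.disjoint_left] at *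
  intro a ha hb
  rw [Sy.mem_im] at ha hb
  exact hD ha hb

theorem h825_Hm_fly (h : h825_Hm A W) : h825_Hm (Sy.fly.im A) (Sy.fly.g W) := by
  intro D Q hD hQ hh
  refine h _ _ (h825_im_ssub hD) (Sy.fly.IS hQ) ?_
  simpa [Sy.fly] using hh

theorem h825_Hm_flx (h : h825_Hm A W) : h825_Hm (Sy.flx.im A) (Sy.flx.g W) := by
  intro D Q hD hQ hh
  refine h _ _ (h825_im_ssub hD) (Sy.flx.IS hQ) ?_
  simp only [Sy.flx] at hh ⊢
  omega

theorem h825_Cf.fly (h : h825_Cf A D E W P X) :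
    h825_Cf (Sy.fly.im A) (Sy.fly.im D) (Sy.fly.im E) (Sy.fly.g W) (Sy.fly.g P) (Sy.fly.g X) where
  mn := Sy.fly.Mn h.mn
  hw := h.hw
  hmin := h825_Hm_fly h.hmin
  h4 := by rw [Sy.card_im]; exact h.h4
  dis := h825_im_disj h.dis
  un := by rw [← Sy.im_union, h.un]
  isD := Sy.fly.IS h.isD
  isE := Sy.fly.IS h.isE
  near := Sy.fly.hnear _ _ h.near
  hW := by rw [← Sy.fly.hbox, ← h.hW]
  px := h.px
  xx := h.xx
  px2 := h.px2
  xx1 := h.xx1

theorem h825_Cf.flx (h : h825_Cf A D E W P X) :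
    h825_Cf (Sy.flx.im A) (Sy.flx.im E) (Sy.flx.im D) (Sy.flx.g W) (Sy.flx.g X) (Sy.flx.g P) where
  mn := Sy.flx.Mn h.mn
  hw := by have := h.hw; simp only [Sy.flx]; omega
  hmin := h825_Hm_flx h.hmin
  h4 := by rw [Sy.card_im]; exact h.h4
  dis := h825_im_disj h.dis.symm
  un := by rw [← Sy.im_union, Finset.union_comm, h.un]
  isD := Sy.flx.IS h.isE
  isE := Sy.flx.IS h.isD
  near := near_symm (Sy.flx.hnear _ _ h.near)
  hW := by rw [box_comm, ← Sy.flx.hbox, ← h.hW]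
  px := by have := h.xx; simp only [Sy.flx]; omega
  xx := by have := h.px; simp only [Sy.flx]; omega
  px2 := by have := h.xx1; simp only [Sy.flx]; omega
  xx1 := by have := h.px2; simp only [Sy.flx]; omega

theorem h825_two_im {s : Sy} {p : ℤ × ℤ → Prop}
    (h : ∃ a ∈ s.im A, ∃ b ∈ s.im A, a ≠ b ∧ p a ∧ p b) :
    ∃ a ∈ A, ∃ b ∈ A, a ≠ b ∧ p (s.f a) ∧ p (s.f b) := by
  obtain ⟨a, ha, b, hb, hab, h1, h2⟩ := h
  rw [Sy.mem_im] at ha hb
  refine ⟨_, ha, _, hb, fun he => hab (s.inj he), ?_, ?_⟩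
  · rwa [s.ff]
  · rwa [s.ff]

theorem h825_Cn_fly (h : h825_Cn (Sy.fly.im A) (Sy.fly.g W)) : h825_Cn A W := by
  obtain ⟨t, t', h1, h2, h3, h4, h5, h6, h7⟩ := h
  rw [Sy.card_im] at h7
  refine ⟨t', t, h3, h4, h1, h2, fun ht => ?_, fun ht => ?_, ?_⟩
  · obtain ⟨a, ha, b, hb, hab, k1, k2⟩ := h825_two_im (h6 ht)
    refine ⟨a, ha, b, hb, hab, ?_, ?_⟩
    · simp only [Sy.fly] at k1; omega
    · simp only [Sy.fly] at k2; omega
  · obtain ⟨a, ha, b, hb, hab, k1, k2⟩ := h825_two_im (h5 ht)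
    refine ⟨a, ha, b, hb, hab, ?_, ?_⟩
    · simp only [Sy.fly] at k1; omega
    · simp only [Sy.fly] at k2; omega
  · simp only [Sy.fly, Rc.h] at h7 ⊢
    omega

theorem h825_Cn_flx (h : h825_Cn (Sy.flx.im A) (Sy.flx.g W)) : h825_Cn A W := by
  obtain ⟨t, t', h1, h2, h3, h4, h5, h6, h7⟩ := h
  rw [Sy.card_im] at h7
  refine ⟨t, t', h1, h2, h3, h4, fun ht => ?_, fun ht => ?_, ?_⟩
  · obtain ⟨a, ha, b, hb, hab, k1, k2⟩ := h825_two_im (h5 ht)
    exact ⟨a, ha, b, hb, hab, k1, k2⟩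
  · obtain ⟨a, ha, b, hb, hab, k1, k2⟩ := h825_two_im (h6 ht)
    exact ⟨a, ha, b, hb, hab, k1, k2⟩
  · simp only [Sy.flx, Rc.h] at h7 ⊢
    omega

theorem h825_cover (h : IS A P) (hw : P.x1 = P.x2) {r : ℤ} (h1 : P.y1 ≤ r) (h2 : r ≤ P.y2) :
    (∃ c ∈ A, c.2 = r) ∨ (∃ a ∈ A, ∃ b ∈ A, a.2 = r - 1 ∧ b.2 = r + 1) := by
  by_cases hr : ∃ c ∈ A, c.2 = r
  · exact Or.inl hr
  · right
    obtain ⟨_, _, ⟨c, hc, hc1⟩, ⟨d, hd, hd1⟩⟩ := h.sides
    have hlt : P.y1 < r := lt_of_le_of_ne h1 (fun he => hr ⟨c, hc, by omega⟩)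
    have hlt2 : r < P.y2 := lt_of_le_of_ne h2 (fun he => hr ⟨d, hd, by omega⟩)
    have k1 := one_wide h hw (r - 1) (by omega) (by omega)
    have k2 := one_wide h hw r (by omega) (by omega)
    obtain ⟨a, ha, ha2⟩ : ∃ a ∈ A, a.2 = r - 1 := by
      rcases k1 with k | ⟨e, he, he2⟩
      · exact k
      · exact absurd ⟨e, he, by omega⟩ hr
    obtain ⟨b, hb, hb2⟩ : ∃ b ∈ A, b.2 = r + 1 := by
      rcases k2 with ⟨e, he, he2⟩ | k
      · exact absurd ⟨e, he, he2⟩ hr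
      · exact k
    exact ⟨a, ha, b, hb, ha2, hb2⟩

theorem h825_small (h : IS A P) (hw : P.x1 = P.x2) {r : ℤ} (h1 : P.y1 ≤ r) (h2 : r ≤ P.y2) :
    ∃ D' P', D' ⊆ A ∧ IS D' P' ∧ P'.x1 = P.x1 ∧ P'.x2 = P.x1 ∧ P'.y1 ≤ r ∧ r ≤ P'.y2 ∧
      D'.card ≤ 2 ∧ (D'.card = 2 → ∃ a ∈ D', a.2 = r - 1) := by
  rcases h825_cover h hw h1 h2 with ⟨c, hc, hr⟩ | ⟨a, ha, b, hb, ha2, hb2⟩
  · have hm := h.mem c hc
    unfold Mem at hm
    refine ⟨{c}, Rc.pt c, by simpa using hc, IS.pt c, ?_, ?_, ?_, ?_, ?_, ?_⟩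
    · simp only [Rc.pt]; omega
    · simp only [Rc.pt]; omega
    · simp only [Rc.pt]; omega
    · simp only [Rc.pt]; omega
    · simp
    · simp
  · have hma := h.mem a ha
    have hmb := h.mem b hb
    unfold Mem at hma hmb
    have hn : Near (Rc.pt a) (Rc.pt b) := by
      unfold Near Rc.pt; simp only; omega
    refine ⟨{a} ∪ {b}, box (Rc.pt a) (Rc.pt b), ?_, IS.mg (IS.pt a) (IS.pt b) hn,
      ?_, ?_, ?_, ?_, ?_, fun _ => ⟨a, by simp, ha2⟩⟩
    · intro x hx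
      simp only [Finset.mem_union, Finset.mem_singleton] at hx
      rcases hx with rfl | rfl <;> assumption
    · simp only [Rc.pt, box]; omega
    · simp only [Rc.pt, box]; omega
    · simp only [Rc.pt, box]; omega
    · simp only [Rc.pt, box]; omega
    · exact (Finset.card_union_le _ _).trans (by simp)

theorem h825_Cf.caseA (h : h825_Cf A D E W P X) (hP : P.x2 = P.x1) (hX : X.x1 = X.x2) : False := by
  have hn := h.near
  have hpx := h.px
  have hxx := h.xx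
  have hw := h.hw
  have hwf1 := h.isD.wf
  have hwf2 := h.isE.wf
  have hcard := h.card
  have h4 := h.h4
  obtain ⟨r, hr1, hr2, hr3, hr4⟩ : ∃ r, P.y1 ≤ r ∧ r ≤ P.y2 ∧ X.y1 ≤ r ∧ r ≤ X.y2 := by
    refine ⟨max P.y1 X.y1, ?_, ?_, ?_, ?_⟩ <;> unfold Near at hn <;> omega
  obtain ⟨D', P', hD1, hD2, hD3, hD4, hD5, hD6, hD7, hD8⟩ := h825_small h.isD hP.symm hr1 hr2
  obtain ⟨E', X', hE1, hE2, hE3, hE4, hE5, hE6, hE7, hE8⟩ := h825_small h.isE hX hr3 hr4
  have hn' : Near P' X' := by unfold Near; omega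
  obtain ⟨e1, e2⟩ := h.star hD1 hE1 hD2 hE2 (by omega) (by omega) hn'
  subst e1 e2
  obtain ⟨a, ha, ha2⟩ := hD8 (by omega)
  obtain ⟨b, hb, hb2⟩ := hE8 (by omega)
  have hma := h.isD.mem a ha
  have hmb := h.isE.mem b hb
  unfold Mem at hma hmb
  obtain ⟨e1, e2⟩ := h.star (D' := {a}) (E' := {b}) (by simpa using ha) (by simpa using hb)
    (IS.pt a) (IS.pt b) (by simp only [Rc.pt]; omega) (by simp only [Rc.pt]; omega)
    (by unfold Near Rc.pt; simp only; omega)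
  rw [← e1, ← e2] at hcard
  simp at hcard
  omega

/-- core of a width two rectangle, with its wall -/
theorem h825_core (h : IS A P) (hw : P.x2 = P.x1 + 1) :
    ∃ u ∈ A, ∃ v ∈ A, u.1 = P.x1 ∧ v.1 = P.x2 ∧ u.2 ≤ v.2 + 1 ∧ v.2 ≤ u.2 + 1 ∧
      IS {u, v} ⟨u.1, v.1, min u.2 v.2, max u.2 v.2⟩ ∧ ({u, v} : Finset (ℤ × ℤ)) ⊆ A ∧
      ({u, v} : Finset (ℤ × ℤ)).card = 2 := by
  obtain ⟨u, hu, v, hv, h1, h2, h3, h4⟩ := core2 h hw
  refine ⟨u, hu, v, hv, h1, h2, h3, h4, IS_pair (by omega) h3 h4, ?_, ?_⟩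
  · intro x hx
    simp only [Finset.mem_insert, Finset.mem_singleton] at hx
    rcases hx with rfl | rfl <;> assumption
  · apply Finset.card_pair
    intro he
    rw [he] at h1
    omega

/-- case (B), the core below the single site -/
theorem h825_Cf.caseB' (h : h825_Cf A D E W P X) (hP : P.x2 = P.x1 + 1) {x : ℤ × ℤ}
    (hE : E = {x}) {u v : ℤ × ℤ} (hu : u ∈ D) (hv : v ∈ D) (hu1 : u.1 = P.x1) (hv1 : v.1 = P.x2)
    (huv : u.2 ≤ v.2 + 1) (hvu : v.2 ≤ u.2 + 1) (hlow : max u.2 v.2 + 2 ≤ x.2) : h825_Cn A W := by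
  have hX : X = Rc.pt x := h.isE.uniq (hE ▸ IS.pt x)
  have hn := h.near
  have hpx := h.px
  have hxx := h.xx
  have hw := h.hw
  have hwf1 := h.isD.wf
  have hcard := h.card
  have h4 := h.h4
  have hW := h.hW
  have hMn : Mn D P := h.mn.sub h.subD h.isD
  have hEc : E.card = 1 := by rw [hE]; simp
  have hxE : x ∈ E := by rw [hE]; simp
  rw [hX] at hn hxx hW
  have hx1 : x.1 = W.x2 := hxx
  have hn2 := hn
  unfold Near Rc.pt at hn2
  simp only at hn2
  obtain ⟨g1, t', g2, g3, g4, g5, g6⟩ := lemmaG hMn hP hu hv hu1 hv1 huv hvu x.2 2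
    (fun D' Q hD' hQ q1 q2 q3 q4 q5 q6 => by
      by_contra hlt
      have hnear : Near Q (Rc.pt x) := by
        unfold Near Rc.pt; simp only; omega
      have := (h.star hD'.1 subset_rfl hQ h.isE (by omega) h.xx (by rw [hX]; exact hnear)).1
      exact hD'.2 this.symm.subset) (by omega) (by omega)
  have hWy1 : W.y1 = P.y1 := by rw [hW]; simp only [box, Rc.pt]; omega
  have hWy2 : W.y2 = x.2 := by rw [hW]; simp only [box, Rc.pt]; omega
  have hT : t' = 1 → ∃ a ∈ A, ∃ b ∈ A, a ≠ b ∧ a.2 = W.y1 ∧ b.2 = W.y1 := by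
    intro ht
    obtain ⟨a, ha, b, hb, hab, k1, k2⟩ := g4 ht
    exact ⟨a, h.subD ha, b, h.subD hb, hab, by omega, by omega⟩
  rcases lt_or_eq_of_le (show P.y2 ≤ x.2 by omega) with hlt | heq
  · refine ⟨0, t', by omega, by omega, g2, g3, by omega, hT, ?_⟩
    unfold Rc.h at *
    omega
  · refine ⟨1, t', by omega, by omega, g2, g3, fun _ => ?_, hT, ?_⟩
    · obtain ⟨_, _, _, ⟨d, hd, hd1⟩⟩ := h.isD.sides
      refine ⟨x, h.subE hxE, d, h.subD hd, ?_, by omega, by omega⟩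
      intro he
      subst he
      exact Finset.disjoint_left.mp h.dis hd hxE
    · have := g6 (by omega)
      unfold Rc.h at *
      omega

theorem h825_Cf.caseB (h : h825_Cf A D E W P X) (hP : P.x2 = P.x1 + 1) (hX : X.x1 = X.x2) :
    h825_Cn A W := by
  have hn := h.near
  have hpx := h.px
  have hxx := h.xx
  have hw := h.hw
  have hwf1 := h.isD.wf
  have hwf2 := h.isE.wf
  have hcard := h.card
  have h4 := h.h4
  unfold Near at hn
  obtain ⟨x, hxE, hx1, hx2⟩ : ∃ x ∈ E, P.y1 - 1 ≤ x.2 ∧ x.2 ≤ P.y2 + 1 := by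
    rcases le_or_gt (P.y1 - 1) X.y1 with hle | hgt
    · obtain ⟨_, _, ⟨x, hx, hx1⟩, _⟩ := h.isE.sides
      exact ⟨x, hx, by omega, by omega⟩
    · rcases h825_cover h.isE hX (r := P.y1 - 1) (by omega) (by omega) with
        ⟨x, hx, hr⟩ | ⟨a, ha, b, hb, ha2, hb2⟩
      · exact ⟨x, hx, by omega, by omega⟩
      · exact ⟨b, hb, by omega, by omega⟩
  have hmx := h.isE.mem x hxE
  unfold Mem at hmx
  have hE : E = {x} := ((h.star (E' := {x}) subset_rfl (by simpa using hxE) h.isD (IS.pt x) h.px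
    (by simp only [Rc.pt]; omega) (by unfold Near Rc.pt; simp only; omega)).2).symm
  have hEc : E.card = 1 := by rw [hE]; simp
  obtain ⟨u, hu, v, hv, hu1, hv1, huv, hvu, hc1, hc2, hc3⟩ := h825_core h.isD hP
  have hfar : ¬ Near ⟨u.1, v.1, min u.2 v.2, max u.2 v.2⟩ (Rc.pt x) := by
    intro hnear
    have := (h.star (E' := {x}) hc2 (by simpa using hxE) hc1 (IS.pt x) (by simp only; omega)
      (by simp only [Rc.pt]; omega) hnear).1
    rw [this] at hc3
    omega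
  unfold Near Rc.pt at hfar
  simp only at hfar
  rcases (show max u.2 v.2 + 2 ≤ x.2 ∨ x.2 + 2 ≤ min u.2 v.2 by omega) with hlow | hhigh
  · exact h.caseB' hP hE hu hv hu1 hv1 huv hvu hlow
  · apply h825_Cn_fly
    refine h.fly.caseB' (x := Sy.fly.f x) (u := Sy.fly.f u) (v := Sy.fly.f v) hP ?_ ?_ ?_ hu1 hv1
      ?_ ?_ ?_
    · rw [hE]; unfold Sy.im; simp
    · rw [Sy.mem_im, Sy.fly.ff]; exact hu
    · rw [Sy.mem_im, Sy.fly.ff]; exact hv
    · simp only [Sy.fly]; omega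
    · simp only [Sy.fly]; omega
    · simp only [Sy.fly]; omega

/-- bound for the lower half in case (C) -/
def h825_Half (D : Finset (ℤ × ℤ)) (P X : Rc) : Prop :=
  ∃ t' : ℤ, 0 ≤ t' ∧ t' ≤ 1 ∧
    (t' = 1 → ∃ a ∈ D, ∃ b ∈ D, a ≠ b ∧ a.2 = P.y1 ∧ b.2 = P.y1) ∧
    3 * (D.card : ℤ) ≤ 2 * P.h + 3 + t' ∧
    (X.y1 ≤ P.y2 + 1 → 3 * (D.card : ℤ) ≤ 2 * P.h + 2 + t')

theorem h825_Cf.lowC (h : h825_Cf A D E W P X) (hP : P.x2 = P.x1 + 1) (hX : X.x2 = X.x1 + 1)
    {u v : ℤ × ℤ} (hu : u ∈ D) (hv : v ∈ D) (hu1 : u.1 = P.x1) (hv1 : v.1 = P.x2)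
    (huv : u.2 ≤ v.2 + 1) (hvu : v.2 ≤ u.2 + 1) (h3 : 3 ≤ D.card)
    (hlow : max u.2 v.2 + 3 ≤ X.y1) : P.y2 < X.y1 ∧ h825_Half D P X := by
  have hn := h.near
  have hpx := h.px
  have hxx := h.xx
  have hw := h.hw
  have hwf1 := h.isD.wf
  have hwf2 := h.isE.wf
  have hMn : Mn D P := h.mn.sub h.subD h.isD
  unfold Near at hn
  obtain ⟨g1, t', g2, g3, g4, g5, g6⟩ := lemmaG hMn hP hu hv hu1 hv1 huv hvu X.y1 3
    (fun D' Q hD' hQ q1 q2 q3 q4 q5 q6 => by
      by_contra hlt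
      have hnear : Near Q X := by
        unfold Near; omega
      have := (h.star hD'.1 subset_rfl hQ h.isE (by omega) h.xx hnear).1
      exact hD'.2 this.symm.subset) (by omega) (by omega)
  exact ⟨by omega, t', g2, g3, g4, g5, fun hle => g6 (by omega)⟩

theorem h825_Cf.farC (h : h825_Cf A D E W P X) (_hP : P.x2 = P.x1 + 1) (hX : X.x2 = X.x1 + 1)
    {u v : ℤ × ℤ} (hu1 : u.1 = P.x1) (hv1 : v.1 = P.x2)
    (hc1 : IS {u, v} ⟨u.1, v.1, min u.2 v.2, max u.2 v.2⟩)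
    (hc2 : ({u, v} : Finset (ℤ × ℤ)) ⊆ D) (hc3 : ({u, v} : Finset (ℤ × ℤ)).card = 2)
    (h3 : 3 ≤ D.card) : max u.2 v.2 + 3 ≤ X.y1 ∨ X.y2 + 3 ≤ min u.2 v.2 := by
  have hpx := h.px
  have hxx := h.xx
  have hw := h.hw
  have hfar : ¬ Near ⟨u.1, v.1, min u.2 v.2, max u.2 v.2⟩ X := by
    intro hnear
    have := (h.star hc2 subset_rfl hc1 h.isE (by simp only; omega) h.xx hnear).1
    rw [this] at hc3
    omega
  unfold Near at hfar
  simp only at hfar
  omega

/-- the site `u` in the left column is far from `X` if `D` has two sites -/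
theorem h825_Cf.farU (h : h825_Cf A D E W P X) (hP : P.x2 = P.x1 + 1) (hX : X.x2 = X.x1 + 1)
    {u : ℤ × ℤ} (hu : u ∈ D) (hu1 : u.1 = P.x1) (h2 : 2 ≤ D.card) :
    u.2 + 2 ≤ X.y1 ∨ X.y2 + 2 ≤ u.2 := by
  have hpx := h.px
  have hxx := h.xx
  have hw := h.hw
  have hwf2 := h.isE.wf
  have hfar : ¬ Near (Rc.pt u) X := by
    intro hnear
    have := (h.star (D' := {u}) (by simpa using hu) subset_rfl (IS.pt u) h.isE
      (by simp only [Rc.pt]; omega) h.xx hnear).1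
    rw [← this] at h2
    simp at h2
  unfold Near Rc.pt at hfar
  simp only at hfar
  omega

theorem h825_Cf.halfC (h : h825_Cf A D E W P X) (hP : P.x2 = P.x1 + 1) (hX : X.x2 = X.x1 + 1)
    (hs : P.y2 < X.y1) : h825_Half D P X := by
  have hwf1 := h.isD.wf
  have hwf2 := h.isE.wf
  obtain ⟨u, hu, v, hv, hu1, hv1, huv, hvu, hc1, hc2, hc3⟩ := h825_core h.isD hP
  have hmu := h.isD.mem u hu
  have hmv := h.isD.mem v hv
  unfold Mem at hmu hmv
  have h2 : 2 ≤ D.card := hc3 ▸ Finset.card_le_card hc2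
  by_cases h3 : 3 ≤ D.card
  · rcases h.farC hP hX hu1 hv1 hc1 hc2 hc3 h3 with hl | hr
    · exact (h.lowC hP hX hu hv hu1 hv1 huv hvu h3 hl).2
    · omega
  · have hD : ({u, v} : Finset (ℤ × ℤ)) = D := Finset.eq_of_subset_of_card_le hc2 (by omega)
    have hPe : P = ⟨u.1, v.1, min u.2 v.2, max u.2 v.2⟩ := h.isD.uniq (hD ▸ hc1)
    have hy1 : P.y1 = min u.2 v.2 := by rw [hPe]
    have hy2 : P.y2 = max u.2 v.2 := by rw [hPe]
    have hf := h.farU hP hX hu hu1 h2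
    have huv' : u ≠ v := by
      intro he
      rw [he] at hu1
      omega
    by_cases he : u.2 = v.2
    · refine ⟨1, by omega, by omega, fun _ => ⟨u, hu, v, hv, huv', by omega, by omega⟩, ?_, ?_⟩
      · unfold Rc.h; omega
      · intro hle; unfold Rc.h; omega
    · refine ⟨0, by omega, by omega, by omega, ?_, ?_⟩
      · unfold Rc.h; omega
      · intro hle; unfold Rc.h; omega

theorem h825_Cf.sepC (h : h825_Cf A D E W P X) (hP : P.x2 = P.x1 + 1) (hX : X.x2 = X.x1 + 1) :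
    P.y2 < X.y1 ∨ X.y2 < P.y1 := by
  obtain ⟨u, hu, v, hv, hu1, hv1, huv, hvu, hc1, hc2, hc3⟩ := h825_core h.isD hP
  have h2 : 2 ≤ D.card := hc3 ▸ Finset.card_le_card hc2
  by_cases h3 : 3 ≤ D.card
  · rcases h.farC hP hX hu1 hv1 hc1 hc2 hc3 h3 with hl | hr
    · exact Or.inl (h.lowC hP hX hu hv hu1 hv1 huv hvu h3 hl).1
    · right
      have := (h.fly.lowC (u := Sy.fly.f u) (v := Sy.fly.f v) hP hX
        (by rw [Sy.mem_im, Sy.fly.ff]; exact hu) (by rw [Sy.mem_im, Sy.fly.ff]; exact hv) hu1 hv1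
        (by simp only [Sy.fly]; omega) (by simp only [Sy.fly]; omega)
        (by rw [Sy.card_im]; exact h3) (by simp only [Sy.fly]; omega)).1
      simp only [Sy.fly] at this
      omega
  · have hD : ({u, v} : Finset (ℤ × ℤ)) = D := Finset.eq_of_subset_of_card_le hc2 (by omega)
    have hPe : P = ⟨u.1, v.1, min u.2 v.2, max u.2 v.2⟩ := h.isD.uniq (hD ▸ hc1)
    have hy1 : P.y1 = min u.2 v.2 := by rw [hPe]
    have hy2 : P.y2 = max u.2 v.2 := by rw [hPe]
    have hf := h.farU hP hX hu hu1 h2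
    omega

theorem h825_Cf.caseC' (h : h825_Cf A D E W P X) (hP : P.x2 = P.x1 + 1) (hX : X.x2 = X.x1 + 1)
    (hs : P.y2 < X.y1) : h825_Cn A W := by
  have hwf1 := h.isD.wf
  have hwf2 := h.isE.wf
  have hn := h.near
  have hcard := h.card
  have hW := h.hW
  have hpx := h.px
  have hxx := h.xx
  have hw := h.hw
  unfold Near at hn
  obtain ⟨t', a1, a2, a3, a4, a5⟩ := h.halfC hP hX hs
  obtain ⟨t, b1, b2, b3, b4, b5⟩ := h.flx.fly.halfC
    (by simp only [Sy.fly, Sy.flx]; omega) (by simp only [Sy.fly, Sy.flx]; omega)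
    (by simp only [Sy.fly, Sy.flx]; omega)
  rw [Sy.card_im, Sy.card_im] at b4 b5
  simp only [Sy.fly, Sy.flx, Rc.h] at b4 b5
  have hWy1 : W.y1 = P.y1 := by rw [hW]; simp only [box]; omega
  have hWy2 : W.y2 = X.y2 := by rw [hW]; simp only [box]; omega
  refine ⟨t, t', b1, b2, a1, a2, fun ht => ?_, fun ht => ?_, ?_⟩
  · obtain ⟨a, ha, b, hb, hab, k1, k2⟩ := h825_two_im (b3 ht)
    obtain ⟨a, ha, b, hb, hab, k1, k2⟩ := h825_two_im
      (p := fun c => (Sy.fly.f c).2 = (Sy.fly.g (Sy.flx.g X)).y1) ⟨a, ha, b, hb, hab, k1, k2⟩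
    simp only [Sy.fly, Sy.flx] at k1 k2
    exact ⟨a, h.subE ha, b, h.subE hb, hab, by omega, by omega⟩
  · obtain ⟨a, ha, b, hb, hab, k1, k2⟩ := a3 ht
    exact ⟨a, h.subD ha, b, h.subD hb, hab, by omega, by omega⟩
  · unfold Rc.h at *
    omega

theorem h825_Cf.caseC (h : h825_Cf A D E W P X) (hP : P.x2 = P.x1 + 1) (hX : X.x2 = X.x1 + 1) :
    h825_Cn A W := by
  rcases h.sepC hP hX with hs | hs
  · exact h.caseC' hP hX hs
  · apply h825_Cn_fly
    refine h.fly.caseC' hP hX ?_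
    simp only [Sy.fly]
    omega

theorem h825_Cf.main (h : h825_Cf A D E W P X) : h825_Cn A W := by
  have hwf1 := h.isD.wf
  have hwf2 := h.isE.wf
  have hpx := h.px
  have hxx := h.xx
  have hw := h.hw
  have hpx2 := h.px2
  have hxx1 := h.xx1
  rcases (show P.x2 = P.x1 ∨ P.x2 = P.x1 + 1 by omega) with hP | hP
  · rcases (show X.x2 = X.x1 ∨ X.x2 = X.x1 + 1 by omega) with hX | hX
    · exact (h.caseA hP hX.symm).elim
    · apply h825_Cn_flx
      exact h.flx.caseB (by simp only [Sy.flx]; omega) (by simp only [Sy.flx]; omega)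
  · rcases (show X.x2 = X.x1 ∨ X.x2 = X.x1 + 1 by omega) with hX | hX
    · exact h.caseB hP hX.symm
    · exact h.caseC hP hX

end h825

/-- CLAIM 2: a wall of width three without smaller walls, at least four sites.

Columns `0, 1, 2` stand for `W.x1, W.x1 + 1, W.x2`. By `Mn.split`, `A = D ∪ E` (disjoint), `IS D P`,
`IS E X`, `Near P X`, `W = box P X`, `D, E ⊂ A`. By `hmin` neither of `P`, `X` touches both columns `0` and `2`;
so one of them, say `P`, touches column `0` and has width one or two, and `X` touches column `2`, width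
one or two. (**): if `D' ⊆ D` spans `P'` touching column `0`, `E' ⊆ E` spans `X'` touching column `2`,
`P'` and `X'` near, then `D' ∪ E' = A` by `hmin`, hence `D' = D` and `E' = E` by disjointness.

(A) `P` and `X` both of width one (columns `0` and `2`, horizontal distance two): they share a row `r`.
By `one_wide` (and `IS.sides`) there is `D' ⊆ D` with at most two sites whose rectangle contains row `r`: one
site if row `r` carries a site of `D`, otherwise the sites in rows `r - 1` and `r + 1`. Similarly `E'`. By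
(**) `D = D'`, `E = E'`; `|A| ≥ 4` forces `|D| = |E| = 2`, with sites in rows `r - 1`, `r + 1` in both
columns; then `(0, r - 1)` and `(2, r - 1)` are a two-site wall, contradiction.

(B) `P` of width two (columns `0, 1`), `X` of width one (column `2`) (or the mirror image `Sy.flx`). The
vertical distance of `P` and `X` is at most one. Some site `x ∈ E` has vertical distance at most one from
`P` (otherwise consecutive sites of `X` would jump over three rows, `one_wide`; the ends of `X` carry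
sites). So `E = {x}` by (**), and `|D| ≥ 3`. Let `u, v` be the core of `P` (`core2`) and `W0` its wall; it is
proper, so by (**) it is at vertical distance at least two from `x`; by `Sy.fly` assume
`W0.y2 + 2 ≤ x.2`. Every proper wall `Q` of `P` (columns `0, 1`) is at vertical distance at least two from
`x`, and if it contains the core it is below `x`. `lemmaG` with `y = x.2`, `k = 2` gives
`P.y2 ≤ x.2 ≤ P.y2 + 1`. If `x.2 = P.y2 + 1`: `h = P.h + 1`,
`3 |A| = 3 |D| + 3 ≤ 2 P.h + 6 + t' = 2 h + 4 + t'`. If `x.2 = P.y2`: `h = P.h`, `3 |A| ≤ 2 P.h + 5 + t'`,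
and the top row carries `x` and a site of `D` (`IS.sides`), so `t = 1` is allowed.

(C) `P` in columns `0, 1` and `X` in columns `1, 2`, both of width two, vertical distance at most two. By
(**) every wall of `P` (touching column `0`) spanned by a proper subset of `D` is at vertical distance at least
three from `X` if it has width two, and vice versa; also `P` and a single site `x` of `E` in column `2` are
far, vertical distance at least `2`; similarly a site of `D` in column `0` and `X`.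
 (C1) `|D| = |E| = 2`: `D = {u, v}`, `u` in column `0`, `v` in column `1`, `E = {u', v'}`, `v'` in column
 `2`. `v'` is at vertical distance at least two from `P`; by reflection assume `P.y2 + 2 ≤ v'.2`; then
 `P.y2 + 1 ≤ X.y1 ≤ P.y2 + 2`, and `u.2 ≤ X.y1 - 2`. If `X.y1 = P.y2 + 1` then both `P` and `X` have
 height two, `h = 4`, `12 ≤ 8 + 4`. If `X.y1 = P.y2 + 2`: `h = P.h + X.h + 1`; `h ≥ 4` is fine; `h = 3`
 means both have height one, `t = t' = 1`, `12 ≤ 6 + 4 + 2`.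
 (C2) `|D| ≥ 3` (or, by point reflection `Sy.neg`, `|E| ≥ 3`). The core wall `W0` of `P` is proper, so it is at
 vertical distance at least `3` from `X`; by `Sy.fly` assume `X` above, `W0.y2 + 3 ≤ X.y1`. `lemmaG` for `P`
 with `y = X.y1`, `k = 3`: `P.y2 + 1 ≤ X.y1 ≤ P.y2 + 2`, `3 |D| ≤ 2 P.h + 3 + t'`, and
 `3 |D| ≤ 2 P.h + 2 + t'` if `X.y1 = P.y2 + 1`. If `|E| ≥ 3`, the point reflection (`Sy.neg`) and
 `lemmaG` for `X` (its core wall is at distance at least three from `P`, hence above `P`) give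
 `3 |E| ≤ 2 X.h + 3 + t`, and `3 |E| ≤ 2 X.h + 2 + t` if `X.y1 = P.y2 + 1`. If `|E| = 2`:
 `6 ≤ 2 X.h + 3 + t` (`X.h = 1`, `t = 1` or `X.h = 2`); if `X.y1 = P.y2 + 1` then the site `v'` of `E` in
 column `2` has `v'.2 ≥ P.y2 + 2 = X.y1 + 1`, so `X.h = 2` and `6 ≤ 2 X.h + 2 + t`.
 Sum: `X.y1 = P.y2 + 1`: `h = P.h + X.h`, `3 |A| ≤ 2 h + 4 + t + t'`. `X.y1 = P.y2 + 2`:
 `h = P.h + X.h + 1`, `3 |A| ≤ 2 (P.h + X.h) + 6 + t + t' = 2 h + 4 + t + t'`. -/
theorem min_wall_bound (h : Mn A W) (hw : W.x2 = W.x1 + 2)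
    (hmin : ∀ D Q, D ⊂ A → IS D Q → ¬ (Q.x1 = W.x1 ∧ Q.x2 = W.x2)) (h4 : 4 ≤ A.card) :
    ∃ t t' : ℤ, 0 ≤ t ∧ t ≤ 1 ∧ 0 ≤ t' ∧ t' ≤ 1 ∧
      (t = 1 → ∃ a ∈ A, ∃ b ∈ A, a ≠ b ∧ a.2 = W.y2 ∧ b.2 = W.y2) ∧
      (t' = 1 → ∃ a ∈ A, ∃ b ∈ A, a ≠ b ∧ a.2 = W.y1 ∧ b.2 = W.y1) ∧
      3 * (A.card : ℤ) ≤ 2 * W.h + 4 + t + t' := by
  obtain ⟨D, E, P, X, hD, hE, hdis, hun, isD, isE, hnear, hbox⟩ := h.split (by omega)
  have m1 := hmin D P hD isD
  have m2 := hmin E X hE isE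
  have wf1 := isD.wf
  have wf2 := isE.wf
  have e1 : W.x1 = min P.x1 X.x1 := by rw [hbox]; rfl
  have e2 : W.x2 = max P.x2 X.x2 := by rw [hbox]; rfl
  by_cases hc : P.x1 = W.x1
  · have hCf : h825_Cf A D E W P X := ⟨h, hw, hmin, h4, hdis, hun, isD, isE, hnear, hbox, hc,
      by omega, by omega, by omega⟩
    exact hCf.main
  · have hCf : h825_Cf A E D W X P := ⟨h, hw, hmin, h4, hdis.symm, by rw [Finset.union_comm, hun],
      isE, isD, near_symm hnear, by rw [box_comm, hbox], by omega, by omega, by omega, by omega⟩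
    exact hCf.main

end Pool.Agent.H109
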