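import Pool.Agent.H109.Struct

/-!
The structure theorem: single type or type (b).
-/

set_option autoImplicit false

namespace Pool.Agent.H109

open Rc

variable {A B C D B' B1 B2 : Finset (ℤ × ℤ)} {P Q R X Y P' M M1 M2 : Rc} {c z : ℤ × ℤ}

/-- type (b): exactly two maximal rectangles, `M1` bottom left and `M2` top right -/
structure TB (A : Finset (ℤ × ℤ)) (R : Rc) (B1 : Finset (ℤ × ℤ)) (M1 : Rc)
    (B2 : Finset (ℤ × ℤ)) (M2 : Rc) : Prop where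
  m1 : Mxp A R B1 M1
  m2 : Mxp A R B2 M2
  l1 : M1.x1 = R.x1
  b1 : M1.y1 = R.y1
  r1 : M1.x2 < R.x2
  t1 : M1.y2 < R.y2
  l2 : R.x1 < M2.x1
  b2 : R.y1 < M2.y1
  r2 : M2.x2 = R.x2
  t2 : M2.y2 = R.y2

/-- type (b), mirrored: `M1` top left and `M2` bottom right -/
structure TBm (A : Finset (ℤ × ℤ)) (R : Rc) (B1 : Finset (ℤ × ℤ)) (M1 : Rc)
    (B2 : Finset (ℤ × ℤ)) (M2 : Rc) : Prop where
  m1 : Mxp A R B1 M1
  m2 : Mxp A R B2 M2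
  l1 : M1.x1 = R.x1
  t1 : M1.y2 = R.y2
  r1 : M1.x2 < R.x2
  b1 : R.y1 < M1.y1
  l2 : R.x1 < M2.x1
  b2 : M2.y1 = R.y1
  r2 : M2.x2 = R.x2
  t2 : M2.y2 < R.y2

/-- `R` is `M` plus one or two columns on the right, `z` the only site outside `M` -/
structure SgR (A : Finset (ℤ × ℤ)) (R : Rc) (z : ℤ × ℤ) (M : Rc) : Prop where
  hz : z ∈ A
  is : IS (A.erase z) M
  l : M.x1 = R.x1
  b : M.y1 = R.y1
  t : M.y2 = R.y2
  r : M.x2 + 1 = R.x2 ∨ M.x2 + 2 = R.x2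
  zz : z.1 = R.x2

/-- columns on the left -/
structure SgL (A : Finset (ℤ × ℤ)) (R : Rc) (z : ℤ × ℤ) (M : Rc) : Prop where
  hz : z ∈ A
  is : IS (A.erase z) M
  r : M.x2 = R.x2
  b : M.y1 = R.y1
  t : M.y2 = R.y2
  l : M.x1 - 1 = R.x1 ∨ M.x1 - 2 = R.x1
  zz : z.1 = R.x1

/-- rows on the top -/
structure SgT (A : Finset (ℤ × ℤ)) (R : Rc) (z : ℤ × ℤ) (M : Rc) : Prop where
  hz : z ∈ A
  is : IS (A.erase z) M
  l : M.x1 = R.x1
  r : M.x2 = R.x2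
  b : M.y1 = R.y1
  t : M.y2 + 1 = R.y2 ∨ M.y2 + 2 = R.y2
  zz : z.2 = R.y2

/-- rows at the bottom -/
structure SgB (A : Finset (ℤ × ℤ)) (R : Rc) (z : ℤ × ℤ) (M : Rc) : Prop where
  hz : z ∈ A
  is : IS (A.erase z) M
  l : M.x1 = R.x1
  r : M.x2 = R.x2
  t : M.y2 = R.y2
  b : M.y1 - 1 = R.y1 ∨ M.y1 - 2 = R.y1
  zz : z.2 = R.y1

/-- single type -/
def Single (A : Finset (ℤ × ℤ)) (R : Rc) (z : ℤ × ℤ) (M : Rc) : Prop :=
  SgR A R z M ∨ SgL A R z M ∨ SgT A R z M ∨ SgB A R z M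

theorem Mxp.single_w (h : Mn A R) (hm : Mxp A R B P) (h1 : P.x1 = R.x1) (h2 : P.x2 = R.x2) :
    ∃ z M, Single A R z M := by
  obtain ⟨z, hz, e1, e2, h3⟩ := hm.full_width h h1 h2
  have his : IS (A.erase z) P := by rw [e1]; exact hm.is
  rcases h3 with ⟨a, b, c⟩ | ⟨a, b, c⟩
  · exact ⟨z, P, Or.inr (Or.inr (Or.inl ⟨hz, his, h1, h2, a, c, b⟩))⟩
  · exact ⟨z, P, Or.inr (Or.inr (Or.inr ⟨hz, his, h1, h2, a, by omega, b⟩))⟩

theorem Mxp.single_h (h : Mn A R) (hm : Mxp A R B P) (h1 : P.y1 = R.y1) (h2 : P.y2 = R.y2) :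
    ∃ z M, Single A R z M := by
  obtain ⟨z, hz, e1, e2, h3⟩ := hm.full_height h h1 h2
  have his : IS (A.erase z) P := by rw [e1]; exact hm.is
  rcases h3 with ⟨a, b, c⟩ | ⟨a, b, c⟩
  · exact ⟨z, P, Or.inl ⟨hz, his, a, h1, h2, c, b⟩⟩
  · exact ⟨z, P, Or.inr (Or.inl ⟨hz, his, a, h1, h2, by omega, b⟩)⟩

/-- STRUCTURE THEOREM -/
theorem Mn.structure (h : Mn A R) (h2 : 2 ≤ A.card) :
    (∃ z M, Single A R z M) ∨ (∃ B1 M1 B2 M2, TB A R B1 M1 B2 M2) ∨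
      (∃ B1 M1 B2 M2, TBm A R B1 M1 B2 M2) := by
  obtain ⟨B, P, B', P', hm, hm', hne⟩ := h.two_max h2
  obtain ⟨hn, hbox⟩ := hm.near h hm' hne
  have s1 := hm.subR h
  have s2 := hm'.subR h
  by_cases c1 : P.x1 = R.x1 ∧ P.x2 = R.x2
  · exact Or.inl (hm.single_w h c1.1 c1.2)
  by_cases c2 : P.y1 = R.y1 ∧ P.y2 = R.y2
  · exact Or.inl (hm.single_h h c2.1 c2.2)
  by_cases c3 : P'.x1 = R.x1 ∧ P'.x2 = R.x2
  · exact Or.inl (hm'.single_w h c3.1 c3.2)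
  by_cases c4 : P'.y1 = R.y1 ∧ P'.y2 = R.y2
  · exact Or.inl (hm'.single_h h c4.1 c4.2)
  have e1 : min P.x1 P'.x1 = R.x1 := by rw [← hbox]; rfl
  have e2 : max P.x2 P'.x2 = R.x2 := by rw [← hbox]; rfl
  have e3 : min P.y1 P'.y1 = R.y1 := by rw [← hbox]; rfl
  have e4 : max P.y2 P'.y2 = R.y2 := by rw [← hbox]; rfl
  unfold Sub at s1 s2
  right
  by_cases d1 : P.x1 = R.x1
  · by_cases d2 : P.y1 = R.y1
    · left
      exact ⟨B, P, B', P', hm, hm', d1, d2, by omega, by omega, by omega, by omega, by omega,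
        by omega⟩
    · right
      exact ⟨B, P, B', P', hm, hm', d1, by omega, by omega, by omega, by omega, by omega, by omega,
        by omega⟩
  · by_cases d2 : P.y1 = R.y1
    · right
      exact ⟨B', P', B, P, hm', hm, by omega, by omega, by omega, by omega, by omega, by omega,
        by omega, by omega⟩
    · left
      exact ⟨B', P', B, P, hm', hm, by omega, by omega, by omega, by omega, by omega, by omega,
        by omega, by omega⟩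

/-- In type (b) every proper spanned rectangle is inside `M1` or inside `M2`. -/
theorem TB.only (h : Mn A R) (ht : TB A R B1 M1 B2 M2) (hC : C ⊆ A) (hQ : IS C Q) (hne : Q ≠ R) :
    Sub Q M1 ∨ Sub Q M2 := by
  obtain ⟨D, Q', hm, hs⟩ := h.exists_mxp hC hQ hne
  by_cases c1 : Q' = M1
  · exact Or.inl (c1 ▸ hs)
  by_cases c2 : Q' = M2
  · exact Or.inr (c2 ▸ hs)
  exfalso
  obtain ⟨-, b1⟩ := hm.near h ht.m1 c1
  obtain ⟨-, b2⟩ := hm.near h ht.m2 c2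
  obtain ⟨-, -, h1, h2, h3, h4, h5, h6, h7, h8⟩ := ht
  apply hm.ne
  have e2 : max Q'.x2 M1.x2 = R.x2 := by rw [← b1]; rfl
  have e4 : max Q'.y2 M1.y2 = R.y2 := by rw [← b1]; rfl
  have e1 : min Q'.x1 M2.x1 = R.x1 := by rw [← b2]; rfl
  have e3 : min Q'.y1 M2.y1 = R.y1 := by rw [← b2]; rfl
  apply rc_eq <;> omega

theorem TB.near (h : Mn A R) (ht : TB A R B1 M1 B2 M2) : Near M1 M2 := by
  refine (ht.m1.near h ht.m2 ?_).1
  intro e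
  have := ht.l1
  have := ht.l2
  rw [e] at *
  omega

theorem TB.cover (h : Mn A R) (ht : TB A R B1 M1 B2 M2) : B1 ∪ B2 = A := by
  refine ht.m1.cover h ht.m2 ?_
  intro e
  have := ht.l1
  have := ht.l2
  rw [e] at *
  omega

/-- symmetry acts on maximal rectangles -/
theorem Sy.Mxp (s : Sy) (hm : H109.Mxp A R B P) : H109.Mxp (s.im A) (s.g R) (s.im B) (s.g P) := by
  refine ⟨s.im_sub hm.sub, s.IS hm.is, fun e => hm.ne (s.ginj e), ?_⟩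
  intro C Q hC hQ hs
  have hC' := s.im_sub hC
  rw [Sy.im_im] at hC'
  have hs' := s.hsub _ _ hs
  rw [Sy.gg] at hs'
  rcases hm.mx _ _ hC' (s.IS hQ) hs' with e | e
  · left; rw [← e, Sy.gg]
  · right; rw [← e, Sy.gg]

theorem TBm.fly (ht : TBm A R B1 M1 B2 M2) :
    TB (Sy.fly.im A) (Sy.fly.g R) (Sy.fly.im B1) (Sy.fly.g M1) (Sy.fly.im B2) (Sy.fly.g M2) := by
  obtain ⟨m1, m2, h1, h2, h3, h4, h5, h6, h7, h8⟩ := ht
  refine ⟨Sy.fly.Mxp m1, Sy.fly.Mxp m2, ?_, ?_, ?_, ?_, ?_, ?_, ?_, ?_⟩ <;>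
    simp only [Sy.fly] <;> omega

theorem TB.swap (ht : TB A R B1 M1 B2 M2) :
    TB (Sy.swap.im A) (Sy.swap.g R) (Sy.swap.im B1) (Sy.swap.g M1) (Sy.swap.im B2)
      (Sy.swap.g M2) := by
  obtain ⟨m1, m2, h1, h2, h3, h4, h5, h6, h7, h8⟩ := ht
  refine ⟨Sy.swap.Mxp m1, Sy.swap.Mxp m2, ?_, ?_, ?_, ?_, ?_, ?_, ?_, ?_⟩ <;>
    simp only [Sy.swap] <;> omega

theorem TB.neg (ht : TB A R B1 M1 B2 M2) :
    TB (Sy.neg.im A) (Sy.neg.g R) (Sy.neg.im B2) (Sy.neg.g M2) (Sy.neg.im B1) (Sy.neg.g M1) := by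
  obtain ⟨m1, m2, h1, h2, h3, h4, h5, h6, h7, h8⟩ := ht
  refine ⟨Sy.neg.Mxp m2, Sy.neg.Mxp m1, ?_, ?_, ?_, ?_, ?_, ?_, ?_, ?_⟩ <;>
    simp only [Sy.neg] <;> omega

end Pool.Agent.H109
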