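import Pool.Agent.H109.Sym

/-!
Walls: `wall_erase`, `wall_row_unique`, `wall_remove_top`, `wall_remove_bot` (subtask PERC-1).
-/

set_option autoImplicit false

namespace Pool.Agent.H109

open Rc

variable {A B C D : Finset (ℤ × ℤ)} {P Q R W : Rc} {c : ℤ × ℤ}

/-- `W`, spanned by `B ⊆ A`, has the full width of `R`. -/
structure Wall (A : Finset (ℤ × ℤ)) (R : Rc) (B : Finset (ℤ × ℤ)) (W : Rc) : Prop where
  sub : B ⊆ A
  is : IS B W
  x1 : W.x1 = R.x1
  x2 : W.x2 = R.x2

/-- two full width rectangles with at least two empty rows between them cannot cover `A` -/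
theorem s177_split (h : IS A R) (y z : ℤ) (hyz : y + 3 ≤ z)
    (hA : ∀ d ∈ A, d.2 ≤ y ∨ z ≤ d.2) : R.y2 ≤ y ∨ z ≤ R.y1 := by
  have hwf := h.wf
  obtain ⟨P, hP, hs⟩ := h.cover
    (fun X => X = ⟨R.x1, R.x2, R.y1, y⟩ ∨ X = ⟨R.x1, R.x2, z, R.y2⟩)
    (by
      rintro P Q (rfl | rfl) (rfl | rfl) hn
      · rfl
      · exfalso
        unfold Near at hn
        simp only at hn
        omega
      · exfalso
        unfold Near at hn
        simp only at hn
        omega
      · rfl)
    (fun d hd => by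
      have hm := h.mem d hd
      unfold Mem at hm
      rcases hA d hd with h1 | h1
      · refine ⟨_, Or.inl rfl, ?_⟩
        unfold Mem
        simp only
        omega
      · refine ⟨_, Or.inr rfl, ?_⟩
        unfold Mem
        simp only
        omega)
  unfold Sub at hs
  rcases hP with rfl | rfl
  · left
    simp only at hs
    omega
  · right
    simp only at hs
    omega

theorem wall_erase (h : Mn A R) (hw : Wall A R B W) (hc : c ∈ A) (hcW : W.y2 < c.2) :
    ∃ Q, Sp (A.erase c) Q ∧ Sub W Q ∧ Q.x1 = R.x1 ∧ Q.x2 = R.x2 ∧ Q.y1 = R.y1 ∧ Q.y2 < R.y2 ∧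
      (c.2 = Q.y2 + 1 ∨ c.2 = Q.y2 + 2) ∧
      ∀ d ∈ A, d ≠ c → d.2 ≠ Q.y2 + 1 ∧ d.2 ≠ Q.y2 + 2 := by
  have hcB : c ∉ B := by
    intro hcB
    have h1 := hw.is.mem c hcB
    unfold Mem at h1
    omega
  have hspW : Sp (A.erase c) W := ⟨B, fun d hd => Finset.mem_erase.mpr
    ⟨fun h => hcB (h ▸ hd), hw.sub hd⟩, hw.is⟩
  obtain ⟨Q, hQ, hWQ⟩ := hspW.exists_MxS
  have hin : ∀ Q', Sp (A.erase c) Q' → Sub Q' R := fun Q' hQ' =>
    hQ'.sub_of_mem fun d hd => h.1.mem d (Finset.erase_subset _ _ hd)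
  have hQR := hin Q hQ.1
  have hRwf := h.1.wf
  have hQwf := hQ.1.wf
  have hWwf := hw.is.wf
  have hx1 := hw.x1
  have hx2 := hw.x2
  unfold Sub at hWQ hQR
  have hQx1 : Q.x1 = R.x1 := by omega
  have hQx2 : Q.x2 = R.x2 := by omega
  -- the rows next to `Q`
  have hrow : ∀ d ∈ A, d ≠ c → d.2 ≠ Q.y2 + 1 ∧ d.2 ≠ Q.y2 + 2 ∧ d.2 ≠ Q.y1 - 1 ∧
      d.2 ≠ Q.y1 - 2 := by
    intro d hd hdc
    obtain ⟨Q', hQ', hdQ'⟩ := exists_MxS_mem (A := A.erase c) (Finset.mem_erase.mpr ⟨hdc, hd⟩)
    have hQ'R := hin Q' hQ'.1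
    have hQ'wf := hQ'.1.wf
    by_contra hcon
    have hnear : Near Q Q' := by
      unfold Near
      unfold Sub at hQ'R
      unfold Mem at hdQ'
      omega
    have he := hQ.eq_of_near hQ' hnear
    subst he
    unfold Mem at hdQ'
    omega
  have hne : Q ≠ R := by
    rintro rfl
    obtain ⟨B', hB', hIS⟩ := hQ.1
    exact h.2 B' (Finset.ssubset_of_subset_of_ssubset hB' (Finset.erase_ssubset hc)) hIS
  have hQy1 : Q.y1 = R.y1 := by
    by_contra hne1
    have h1 := s177_split h.1 (Q.y1 - 3) Q.y1 (by omega) (fun d hd => by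
      by_cases hdc : d = c
      · subst hdc
        omega
      · have h2 := hrow d hd hdc
        omega)
    omega
  have hQy2 : Q.y2 < R.y2 := by
    by_contra hge
    exact hne (rc_eq hQx1 hQx2 hQy1 (by omega))
  refine ⟨Q, hQ.1, by unfold Sub; omega, hQx1, hQx2, hQy1, hQy2, ?_, fun d hd hdc =>
    ⟨(hrow d hd hdc).1, (hrow d hd hdc).2.1⟩⟩
  by_contra hcc
  have h1 := s177_split h.1 Q.y2 (Q.y2 + 3) (by omega) (fun d hd => by
    by_cases hdc : d = c
    · subst hdc
      omega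
    · have h2 := hrow d hd hdc
      omega)
  omega

/-- Rows above a wall carry at most one site. -/
theorem wall_row_unique (h : Mn A R) (hw : Wall A R B W) {c d : ℤ × ℤ} (hc : c ∈ A) (hd : d ∈ A)
    (h1 : W.y2 < c.2) (h2 : c.2 = d.2) : c = d := by
  by_contra hne
  obtain ⟨Q, -, -, -, -, -, -, h3, h4⟩ := wall_erase h hw hc h1
  have h5 := h4 d hd (fun h => hne h.symm)
  omega

/-- Removing the top site of `A` (which is above the wall `W`) leaves a wall reaching almost to the
top. Proof: `wall_erase` for a site `c` with `c.2 = R.y2`. -/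
theorem wall_remove_top (h : Mn A R) (hw : Wall A R B W) (hlt : W.y2 < R.y2) :
    ∃ D Q, D ⊂ A ∧ IS D Q ∧ Sub W Q ∧ Q.x1 = R.x1 ∧ Q.x2 = R.x2 ∧ R.y2 - 2 ≤ Q.y2 ∧
      ((∃ c ∈ A, c.2 = R.y2 - 1) → R.y2 - 1 ≤ Q.y2) := by
  obtain ⟨c, hc, hcy⟩ := h.1.sides.2.2.2
  obtain ⟨Q, ⟨D, hD, hDQ⟩, h1, h2, h3, -, -, h4, h5⟩ := wall_erase h hw hc (by omega)
  refine ⟨D, Q, Finset.ssubset_of_subset_of_ssubset hD (Finset.erase_ssubset hc), hDQ, h1, h2, h3,
    by omega, ?_⟩
  rintro ⟨d, hd, hdy⟩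
  have h6 := h5 d hd (fun h => by subst h; omega)
  omega

/-- Removing a bottom site of `A` (which is below the wall `W`) leaves a wall reaching the top.
Proof: the mirror image of `wall_erase` for a site `c` with `c.2 = R.y1` gives `Q.y2 = R.y2`. -/
theorem wall_remove_bot (h : Mn A R) (hw : Wall A R B W) (hlt : R.y1 < W.y1) :
    ∃ D Q, D ⊂ A ∧ IS D Q ∧ Sub W Q ∧ Q.x1 = R.x1 ∧ Q.x2 = R.x2 ∧ Q.y2 = R.y2 := by
  obtain ⟨c, hc, hcy⟩ := h.1.sides.2.2.1
  have h' : Mn (Sy.fly.im A) (Sy.fly.g R) := Sy.fly.Mn h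
  have hw' : Wall (Sy.fly.im A) (Sy.fly.g R) (Sy.fly.im B) (Sy.fly.g W) :=
    ⟨Sy.fly.im_sub hw.sub, Sy.fly.IS hw.is, hw.x1, hw.x2⟩
  have hc' : Sy.fly.f c ∈ Sy.fly.im A := by
    rw [Sy.mem_im, Sy.fly.ff]
    exact hc
  obtain ⟨Q, ⟨D, hD, hDQ⟩, h1, h2, h3, h4, -, -, -⟩ := wall_erase h' hw' hc' (by
    show -W.y1 < -c.2
    omega)
  have hDA : D ⊂ Sy.fly.im A :=
    Finset.ssubset_of_subset_of_ssubset hD (Finset.erase_ssubset hc')
  refine ⟨Sy.fly.im D, Sy.fly.g Q, ?_, Sy.fly.IS hDQ, ?_, h2, h3, ?_⟩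
  · have h5 := Sy.fly.im_ssub hDA
    rwa [Sy.fly.im_im] at h5
  · have h5 := Sy.fly.hsub _ _ h1
    rwa [Sy.fly.gg] at h5
  · show -Q.y1 = R.y2
    rw [h4]
    show - -R.y2 = R.y2
    omega

theorem h175_pattern_aux (n : ℕ) : ∀ (b : ℤ), b.toNat = n → ∀ (hb : 0 ≤ b) (S : Finset ℤ)
    (h1 : ∀ s ∈ S, 1 ≤ s ∧ s ≤ b)
    (h2 : 1 ≤ b → b ∈ S) (h3 : ∀ s, 1 ≤ s → s + 1 ≤ b → s ∈ S ∨ s + 1 ∈ S)
    (h4 : ∀ s ∈ S, s < b → (2 ≤ s ∧ s - 1 ∉ S) ∨ s + 1 ∉ S),
    3 * (S.card : ℤ) ≤ 2 * b + 1 ∧ (1 ∉ S → 3 * (S.card : ℤ) ≤ 2 * b) ∧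
      (2 ≤ b → b - 1 ∉ S → 3 * (S.card : ℤ) ≤ 2 * b) ∧
      (2 ≤ b → 1 ∉ S → b - 1 ∉ S → 3 * (S.card : ℤ) ≤ 2 * b - 1) := by
  induction n using Nat.strong_induction_on with
  | _ n ih =>
  intro b hn hb S h1 h2 h3 h4
  rcases eq_or_lt_of_le hb with hb0 | hb0
  · -- b = 0
    subst hb0
    have hS : S = ∅ := by
      rw [Finset.eq_empty_iff_forall_notMem]
      intro s hs
      have := h1 s hs
      omega
    subst hS
    simp
  · have hbS : b ∈ S := h2 (by omega)
    rcases eq_or_lt_of_le (show 1 ≤ b by omega) with hb1 | hb1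
    · -- b = 1
      have hS : S = {1} := by
        ext s
        rw [Finset.mem_singleton]
        constructor
        · intro hs
          have := h1 s hs
          omega
        · rintro rfl
          rw [hb1]; exact hbS
      subst hS
      rw [← hb1]
      refine ⟨by simp, fun h => absurd (by simp) h, fun h => by omega, fun h => by omega⟩
    · by_cases hb2 : b - 1 ∈ S
      · -- remove three rows
        have h5 := h4 _ hb2 (by omega)
        have h6 : 2 ≤ b - 1 ∧ b - 1 - 1 ∉ S := by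
          rcases h5 with h | h
          · exact h
          · exact absurd (by simpa using hbS) h
        have h7 : b - 2 ∉ S := by
          have := h6.2
          rwa [show b - 1 - 1 = b - 2 by ring] at this
        have key := ih (b - 3).toNat (by omega) (b - 3) rfl (by omega)
          ((S.erase b).erase (b - 1)) ?_ ?_ ?_ ?_
        · have hc : ((S.erase b).erase (b - 1)).card + 2 = S.card := by
            have e1 : b - 1 ∈ S.erase b := Finset.mem_erase.mpr ⟨by omega, hb2⟩
            have := Finset.card_erase_add_one e1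
            have := Finset.card_erase_add_one hbS
            omega
          obtain ⟨k1, k2, k3, k4⟩ := key
          refine ⟨by omega, fun h => ?_, fun h h' => absurd hb2 h', fun _ _ h' => absurd hb2 h'⟩
          have := k2 (fun h' => h (Finset.mem_of_mem_erase (Finset.mem_of_mem_erase h')))
          omega
        · intro s hs
          rw [Finset.mem_erase, Finset.mem_erase] at hs
          have h8 := h1 s hs.2.2
          have h9 : s ≠ b - 2 := fun h => h7 (h ▸ hs.2.2)
          omega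
        · intro h
          rw [Finset.mem_erase, Finset.mem_erase]
          refine ⟨by omega, by omega, ?_⟩
          rcases h3 (b - 3) h (by omega) with h' | h'
          · exact h'
          · rw [show b - 3 + 1 = b - 2 by ring] at h'
            exact absurd h' h7
        · intro s hs hs'
          rw [Finset.mem_erase, Finset.mem_erase, Finset.mem_erase, Finset.mem_erase]
          rcases h3 s hs (by omega) with h' | h'
          · left; exact ⟨by omega, by omega, h'⟩
          · right; exact ⟨by omega, by omega, h'⟩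
        · intro s hs hs'
          rw [Finset.mem_erase, Finset.mem_erase] at hs
          rcases h4 s hs.2.2 (by omega) with h' | h'
          · left
            exact ⟨h'.1, fun h => h'.2 (Finset.mem_of_mem_erase (Finset.mem_of_mem_erase h))⟩
          · right
            exact fun h => h' (Finset.mem_of_mem_erase (Finset.mem_of_mem_erase h))
      · -- remove two rows
        have key := ih (b - 2).toNat (by omega) (b - 2) rfl (by omega) (S.erase b) ?_ ?_ ?_ ?_
        · have hc : (S.erase b).card + 1 = S.card := Finset.card_erase_add_one hbS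
          obtain ⟨k1, k2, k3, k4⟩ := key
          refine ⟨by omega, fun h => ?_, fun h h' => by omega, fun _ h h' => ?_⟩
          · have := k2 (fun h' => h (Finset.mem_of_mem_erase h'))
            omega
          · have := k2 (fun h' => h (Finset.mem_of_mem_erase h'))
            omega
        · intro s hs
          rw [Finset.mem_erase] at hs
          have h8 := h1 s hs.2
          have h9 : s ≠ b - 1 := fun h => hb2 (h ▸ hs.2)
          omega
        · intro h
          rw [Finset.mem_erase]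
          refine ⟨by omega, ?_⟩
          rcases h3 (b - 2) h (by omega) with h' | h'
          · exact h'
          · rw [show b - 2 + 1 = b - 1 by ring] at h'
            exact absurd h' hb2
        · intro s hs hs'
          rw [Finset.mem_erase, Finset.mem_erase]
          rcases h3 s hs (by omega) with h' | h'
          · left; exact ⟨by omega, h'⟩
          · right; exact ⟨by omega, h'⟩
        · intro s hs hs'
          rw [Finset.mem_erase] at hs
          rcases h4 s hs.2 (by omega) with h' | h'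
          · left
            exact ⟨h'.1, fun h => h'.2 (Finset.mem_of_mem_erase h)⟩
          · right
            exact fun h => h' (Finset.mem_of_mem_erase h)

/-- Pattern counting. `S` is the set of occupied rows `1, ..., b` above a wall (row `0`).
Rows are occupied so that no two consecutive rows are empty (in particular `1` or `2` is occupied,
if `b ≥ 2`), the last row `b` is occupied, and every occupied row `s < b` has an empty neighbour
among `s - 1 ≥ 1` and `s + 1`. Then `3 |S| ≤ 2 b + 1`, and each of the two conditions `1 ∉ S` and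
`b - 1 ∉ S` improves this by one. Proof: strong induction on `b`, remove the last one or two or
three rows (pattern from the top: `b`, then `b - 1`, then empty `b - 2`; or `b`, empty `b - 1`). -/
theorem pattern_count (b : ℤ) (hb : 0 ≤ b) (S : Finset ℤ) (h1 : ∀ s ∈ S, 1 ≤ s ∧ s ≤ b)
    (h2 : 1 ≤ b → b ∈ S) (h3 : ∀ s, 1 ≤ s → s + 1 ≤ b → s ∈ S ∨ s + 1 ∈ S)
    (h4 : ∀ s ∈ S, s < b → (2 ≤ s ∧ s - 1 ∉ S) ∨ s + 1 ∉ S) :
    3 * (S.card : ℤ) ≤ 2 * b + 1 ∧ (1 ∉ S → 3 * (S.card : ℤ) ≤ 2 * b) ∧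
      (2 ≤ b → b - 1 ∉ S → 3 * (S.card : ℤ) ≤ 2 * b) ∧
      (2 ≤ b → 1 ∉ S → b - 1 ∉ S → 3 * (S.card : ℤ) ≤ 2 * b - 1) :=
  h175_pattern_aux _ b rfl hb S h1 h2 h3 h4

/-- two consecutive empty rows strictly between the bottom and the top are impossible -/
theorem h175_no_gap (h : IS A R) (y : ℤ) (h1 : R.y1 < y) (h2 : y + 1 ≤ R.y2) :
    ∃ c ∈ A, c.2 = y ∨ c.2 = y + 1 := by
  by_contra hno
  push Not at hno
  obtain ⟨P, hP, hs⟩ := h.cover
    (fun P => P = ⟨R.x1, R.x2, R.y1, y - 1⟩ ∨ P = ⟨R.x1, R.x2, y + 2, R.y2⟩)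
    (by
      intro P Q hP hQ hn
      rcases hP with rfl | rfl <;> rcases hQ with rfl | rfl
      · rfl
      · exfalso; unfold Near at hn; simp only at hn; omega
      · exfalso; unfold Near at hn; simp only at hn; omega
      · rfl)
    (by
      intro c hc
      have h3 := hno c hc
      have h4 := h.mem c hc
      unfold Mem at h4
      rcases lt_or_ge c.2 y with h5 | h5
      · refine ⟨_, Or.inl rfl, ?_⟩
        unfold Mem; simp only; omega
      · refine ⟨_, Or.inr rfl, ?_⟩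
        unfold Mem; simp only; omega)
  rcases hP with rfl | rfl
  · unfold Sub at hs; simp only at hs; omega
  · unfold Sub at hs; simp only at hs; omega

/-- WALL LEMMA. The number of sites above a wall. Proof: by `wall_erase` every row above `W` has at
most one site (if `c ≠ c'` are in the same row above `W`, erase `c`: then `c'` contradicts the last
clause), so the number of sites above `W` is the number of occupied rows; the occupied rows (shifted
by `W.y2`) satisfy the hypotheses of `pattern_count` with `b = R.y2 - W.y2`: the top row is occupied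
by `IS.sides`; no two consecutive rows above `W.y2` are empty (splitting argument with `IS.cover` and
the two full width rectangles below and above); (h4): erase the site `c` of row `s < b` with
`s + 1` occupied by `d` and (`s = 1` or `s - 1` occupied by `e`): `wall_erase` gives
`c.2 = Q.y2 + 1` (then `d` is in row `Q.y2 + 2`) or `c.2 = Q.y2 + 2` (then `e` is in row
`Q.y2 + 1`, or `s = 1` and `Q.y2 < W.y2`). -/
theorem wall_up (h : Mn A R) (hw : Wall A R B W) :
    3 * ((A.filter fun c => W.y2 < c.2).card : ℤ) ≤ 2 * (R.y2 - W.y2) + 1 ∧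
    ((∀ c ∈ A, c.2 ≠ W.y2 + 1) →
      3 * ((A.filter fun c => W.y2 < c.2).card : ℤ) ≤ 2 * (R.y2 - W.y2)) ∧
    (2 ≤ R.y2 - W.y2 → (∀ c ∈ A, c.2 ≠ R.y2 - 1) →
      3 * ((A.filter fun c => W.y2 < c.2).card : ℤ) ≤ 2 * (R.y2 - W.y2)) ∧
    (2 ≤ R.y2 - W.y2 → (∀ c ∈ A, c.2 ≠ W.y2 + 1) → (∀ c ∈ A, c.2 ≠ R.y2 - 1) →
      3 * ((A.filter fun c => W.y2 < c.2).card : ℤ) ≤ 2 * (R.y2 - W.y2) - 1) := by
  set S : Finset ℤ := (A.filter fun c => W.y2 < c.2).image (fun c => c.2 - W.y2) with hS
  have hmem : ∀ s, s ∈ S ↔ 0 < s ∧ ∃ c ∈ A, c.2 = W.y2 + s := by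
    intro s
    rw [hS, Finset.mem_image]
    constructor
    · rintro ⟨c, hc, rfl⟩
      rw [Finset.mem_filter] at hc
      exact ⟨by omega, c, hc.1, by ring⟩
    · rintro ⟨hs, c, hc, hcs⟩
      exact ⟨c, Finset.mem_filter.mpr ⟨hc, by omega⟩, by omega⟩
  have hcard : S.card = (A.filter fun c => W.y2 < c.2).card := by
    rw [hS]
    apply Finset.card_image_of_injOn
    intro c hc d hd hcd
    have hc' := Finset.mem_filter.mp (Finset.mem_coe.mp hc)
    have hd' := Finset.mem_filter.mp (Finset.mem_coe.mp hd)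
    simp only at hcd
    exact wall_row_unique h hw hc'.1 hd'.1 hc'.2 (by omega)
  have hWR : Sub W R := hw.is.mono h.1 hw.sub
  have hW := hw.is.wf
  have hWR' : R.x1 ≤ W.x1 ∧ W.x2 ≤ R.x2 ∧ R.y1 ≤ W.y1 ∧ W.y2 ≤ R.y2 := hWR
  have key := pattern_count (R.y2 - W.y2) (by omega) S ?_ ?_ ?_ ?_
  · obtain ⟨k1, k2, k3, k4⟩ := key
    rw [hcard] at k1 k2 k3 k4
    have e1 : (∀ c ∈ A, c.2 ≠ W.y2 + 1) → (1 : ℤ) ∉ S := by
      intro h1 h2
      rw [hmem] at h2
      obtain ⟨_, c, hc, hc2⟩ := h2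
      exact h1 c hc hc2
    have e2 : (∀ c ∈ A, c.2 ≠ R.y2 - 1) → R.y2 - W.y2 - 1 ∉ S := by
      intro h1 h2
      rw [hmem] at h2
      obtain ⟨_, c, hc, hc2⟩ := h2
      exact h1 c hc (by omega)
    exact ⟨k1, fun h1 => k2 (e1 h1), fun h1 h2 => k3 h1 (e2 h2),
      fun h1 h2 h3 => k4 h1 (e1 h2) (e2 h3)⟩
  · intro s hs
    rw [hmem] at hs
    obtain ⟨hs0, c, hc, hcs⟩ := hs
    have hcR := h.1.mem c hc
    unfold Mem at hcR
    omega
  · intro hb
    rw [hmem]
    obtain ⟨c, hc, hc2⟩ := h.1.sides.2.2.2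
    exact ⟨by omega, c, hc, by omega⟩
  · intro s hs hsb
    rw [hmem, hmem]
    obtain ⟨c, hc, hc2⟩ := h175_no_gap h.1 (W.y2 + s) (by omega) (by omega)
    rcases hc2 with hc2 | hc2
    · left; exact ⟨by omega, c, hc, hc2⟩
    · right; exact ⟨by omega, c, hc, by omega⟩
  · intro s hs hsb
    rw [hmem] at hs
    obtain ⟨hs0, c, hc, hcs⟩ := hs
    by_cases hs1 : s + 1 ∈ S
    · left
      rw [hmem] at hs1
      obtain ⟨_, d, hd, hds⟩ := hs1
      obtain ⟨Q, hQ, hWQ, _, _, _, hQR, hcQ, hcl⟩ := wall_erase h hw hc (by omega)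
      have hWQ' : Q.x1 ≤ W.x1 ∧ W.x2 ≤ Q.x2 ∧ Q.y1 ≤ W.y1 ∧ W.y2 ≤ Q.y2 := hWQ
      have hdc : d ≠ c := by
        intro hdc
        rw [hdc] at hds
        omega
      have hd2 := hcl d hd hdc
      refine ⟨by omega, ?_⟩
      intro hs2
      rw [hmem] at hs2
      obtain ⟨_, e, he, hes⟩ := hs2
      have hec : e ≠ c := by
        intro hec
        rw [hec] at hes
        omega
      have he2 := hcl e he hec
      omega
    · right; exact hs1

/-- The mirror image of `wall_up`, by `Sy.fly`. -/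
theorem wall_down (h : Mn A R) (hw : Wall A R B W) :
    3 * ((A.filter fun c => c.2 < W.y1).card : ℤ) ≤ 2 * (W.y1 - R.y1) + 1 ∧
    ((∀ c ∈ A, c.2 ≠ W.y1 - 1) →
      3 * ((A.filter fun c => c.2 < W.y1).card : ℤ) ≤ 2 * (W.y1 - R.y1)) := by
  have hm : Mn (Sy.fly.im A) (Sy.fly.g R) := Sy.fly.Mn h
  have hw' : Wall (Sy.fly.im A) (Sy.fly.g R) (Sy.fly.im B) (Sy.fly.g W) :=
    ⟨Sy.fly.im_sub hw.sub, Sy.fly.IS hw.is, hw.x1, hw.x2⟩
  obtain ⟨k1, k2, _, _⟩ := wall_up hm hw'
  have hy2 : (Sy.fly.g W).y2 = - W.y1 := rfl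
  have hy2R : (Sy.fly.g R).y2 = - R.y1 := rfl
  have hc : ((Sy.fly.im A).filter fun c => (Sy.fly.g W).y2 < c.2).card =
      (A.filter fun c => c.2 < W.y1).card := by
    rw [← Sy.fly.card_im (A := A.filter fun c => c.2 < W.y1)]
    refine congrArg Finset.card ?_
    ext c
    rw [Finset.mem_filter, Sy.mem_im, Sy.mem_im, Finset.mem_filter, hy2]
    have : (Sy.fly.f c).2 = - c.2 := rfl
    rw [this]
    constructor
    · rintro ⟨h1, h2⟩; exact ⟨h1, by omega⟩
    · rintro ⟨h1, h2⟩; exact ⟨h1, by omega⟩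
  rw [hc, hy2, hy2R] at k1 k2
  refine ⟨by omega, fun h1 => ?_⟩
  have := k2 ?_
  · omega
  · intro c hc' hc2
    rw [Sy.mem_im] at hc'
    refine h1 _ hc' ?_
    have : (Sy.fly.f c).2 = - c.2 := rfl
    rw [this, hc2]
    ring

end Pool.Agent.H109
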